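import Mathlib
import Pool.Agent.Lib.H28G.K4
import Pool.Agent.Lib.H55R.HB1

open NumberField IsDedekindDomain

namespace H28R

open H55P H55R

/-! Chunk W12 (M): N/C is unramified at w if all the p-th powers c of the generators are 1 modulo p^2 and have order divisible by p at w. W a prime of N above w, t in the inertia group of W over C (Ideal.inertia, card_inertia_eq_ramificationIdxIn as in H28G/K4.lean, unram): W.valuation (t x - x) < 1 for every W-integral x of N (as in H28G/K4.lean),
and W.valuation (t x) = W.valuation x. Let x in R, x^p = c, t x = ζ^i x (t fixes C). Suppose z = ζ^i <> 1. Case p not in W: choose d in Cˣ with ord w d = ord w c / p (a power of a uniformizer of w), y = x/d has W.valuation 1, t y - y = (z - 1) y, so W.valuation (z - 1) < 1; but z - 1 divides p (product of the 1 - z^j, j = 1..p-1, is p): p in W, contradiction.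
Case p in W: c = 1 mod p^2 is a unit at W, so W.valuation x = 1. Let s = W.valuation (1 - ζ) < 1; all W.valuation (1 - z') for p-th roots of unity z' <> 1 are equal to s (quotients are units) and s^(p-1) = W.valuation p. product over j < p of (x - ζ^j) = x^p - 1 = c - 1 has valuation <= (W.valuation p)^2 = s^(2p-2) < s^p (p > 2), so some j has
W.valuation (x - ζ^j) < s. Then W.valuation (t x - ζ^j) = W.valuation (t (x - ζ^j)) < s (ζ in C), so W.valuation (t x - x) < s, but t x - x = (z - 1) x has valuation s: contradiction. So t fixes R, t = 1 (hgen), the inertia group is trivial. -/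

theorem W12_root {N : Type} [Field N] [NumberField N] (W : Pl N) {z : N} {n : ℕ} (hn : n ≠ 0)
    (h : W.valuation N z ^ n = 1) : W.valuation N z = 1 := by
  rcases lt_trichotomy (W.valuation N z) 1 with h1 | h1 | h1
  · exact absurd h (pow_lt_one₀ zero_le h1 hn).ne
  · exact h1
  · exact absurd h (one_lt_pow₀ h1 hn).ne'

/-- 1 - z^j is divisible by 1 - z. -/
theorem W12_pow {N : Type} [Field N] [NumberField N] (W : Pl N) {z : N}
    (h : W.valuation N z = 1) (j : ℕ) :
    W.valuation N (1 - z ^ j) ≤ W.valuation N (1 - z) := by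
  rw [← mul_neg_geom_sum, map_mul]
  refine mul_le_of_le_one_right' ?_
  refine Valuation.map_sum_le _ fun i _ => ?_
  rw [map_pow, h, one_pow]

/-- p is divisible by 1 - z. -/
theorem W12_p {N : Type} [Field N] [NumberField N] (W : Pl N) {z : N} {p : ℕ}
    (h : W.valuation N z = 1) (hz : z ^ p = 1) (h1 : z ≠ 1) :
    W.valuation N (p : N) ≤ W.valuation N (1 - z) := by
  have e1 : (1 - z) * ∑ i ∈ Finset.range p, z ^ i = 0 := by
    rw [mul_neg_geom_sum, hz, sub_self]
  have e2 : ∑ i ∈ Finset.range p, z ^ i = 0 := by
    rcases mul_eq_zero.1 e1 with h2 | h2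
    · exact absurd (sub_eq_zero.1 h2).symm h1
    · exact h2
  have e3 : (p : N) = ∑ i ∈ Finset.range p, (1 - z ^ i) := by
    rw [Finset.sum_sub_distrib, e2, sub_zero, Finset.sum_const, Finset.card_range, nsmul_eq_mul,
      mul_one]
  rw [e3]
  exact Valuation.map_sum_le _ fun i _ => W12_pow W h i

/-- p is divisible by (1 - z)^(p-1). -/
theorem W12_p2 {N : Type} [Field N] [NumberField N] (W : Pl N) {z : N} {p : ℕ} (hp : p.Prime)
    (h : W.valuation N z = 1) (hz : IsPrimitiveRoot z p) :
    W.valuation N ((p : N) / (1 - z) ^ (p - 1)) ≤ 1 := by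
  classical
  have := Fact.mk hp
  have hz1 : z ≠ 1 := hz.ne_one hp.one_lt
  have hne : (1 - z) ≠ 0 := sub_ne_zero.2 hz1.symm
  have e1 : (p : N) = ∏ μ ∈ primitiveRoots p N, (1 - μ) := by
    rw [← Polynomial.eval_one_cyclotomic_prime (R := N) (p := p),
      Polynomial.cyclotomic_eq_prod_X_sub_primitiveRoots hz, Polynomial.eval_prod]
    refine Finset.prod_congr rfl fun μ _ => ?_
    rw [Polynomial.eval_sub, Polynomial.eval_X, Polynomial.eval_C]
  have e2 : (p : N) / (1 - z) ^ (p - 1) = ∏ μ ∈ primitiveRoots p N, ((1 - μ) / (1 - z)) := by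
    rw [Finset.prod_div_distrib, ← e1, Finset.prod_const, hz.card_primitiveRoots,
      Nat.totient_prime hp]
  rw [e2]
  refine Finset.prod_induction _ (fun a => W.valuation N a ≤ 1) ?_ ?_ ?_
  · intro a b ha hb
    rw [map_mul]
    exact mul_le_one' ha hb
  · exact (map_one _).le
  · intro μ hμ
    rw [mem_primitiveRoots hp.pos] at hμ
    obtain ⟨j, -, rfl⟩ := hz.eq_pow_of_pow_eq_one hμ.pow_eq_one
    rw [map_div₀]
    exact div_le_one_of_le₀ (W12_pow W h j) zero_le

theorem unr_N {p : ℕ} (hp : p.Prime) (h3 : 3 ≤ p) {C N : Type} [Field C] [NumberField C] [Field N]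
    [NumberField N] [Algebra C N] [IsGalois C N] {ζ : C} (hζ : IsPrimitiveRoot ζ p) (R : Set N)
    (hgen : Algebra.adjoin C R = ⊤) (W : Pl N) (w : Pl C) (hw : W.under (𝓞 C) = w)
    (hR : ∀ x ∈ R, ∃ c : Cˣ, x ^ p = algebraMap C N c ∧
      (∃ a : 𝓞 C, (a : C) = c ∧ (p : 𝓞 C) ^ 2 ∣ a - 1) ∧ (p : ℤ) ∣ ord w c) :
    W.asIdeal.ramificationIdx (𝓞 C) = 1 := by
  classical
  have hvp := w.isPrime
  have hWp := W.isPrime
  have hl : W.asIdeal.LiesOver w.asIdeal := (BF2_mem w W hw).2
  have h1 := Ideal.card_inertia_eq_ramificationIdxIn (G := Gal(N/C)) w.asIdeal W.asIdeal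
  have h0 := Ideal.ramificationIdxIn_eq_ramificationIdx w.asIdeal W.asIdeal Gal(N/C)
  have hζN : IsPrimitiveRoot (algebraMap C N ζ) p := hζ.map_of_injective (algebraMap C N).injective
  have hne0 : NeZero p := ⟨hp.ne_zero⟩
  have hbot : W.asIdeal.inertia Gal(N/C) = ⊥ := by
    rw [eq_bot_iff]
    intro σ hσ
    rw [Subgroup.mem_bot]
    have hfix : ∀ x ∈ R, σ x = x := by
      intro x hx
      obtain ⟨c, hc, ⟨a, ha, b, hb⟩, hord⟩ := hR x hx
      have hcN : algebraMap C N c ≠ 0 := by
        intro h2
        exact c.ne_zero ((map_eq_zero _).1 h2)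
      have hx0 : x ≠ 0 := by
        rintro rfl
        rw [zero_pow hp.ne_zero] at hc
        exact hcN hc.symm
      have hσx : σ x ^ p = algebraMap C N c := by
        rw [← map_pow, hc]
        exact σ.commutes _
      have hzp : (σ x / x) ^ p = 1 := by
        rw [div_pow, hσx, hc, div_self hcN]
      obtain ⟨z, hz⟩ : ∃ z, z = σ x / x := ⟨_, rfl⟩
      rw [← hz] at hzp
      have hσz : σ x = z * x := by
        rw [hz, div_mul_cancel₀ _ hx0]
      by_contra hne
      have hz1 : z ≠ 1 := by
        rintro rfl
        rw [one_mul] at hσz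
        exact hne hσz
      have hσfix : σ z = z := by
        obtain ⟨i, -, hi⟩ := hζN.eq_pow_of_pow_eq_one hzp
        rw [← hi, ← map_pow]
        exact σ.commutes _
      have hzprim : IsPrimitiveRoot z p := by
        have h2 := orderOf_eq_prime (p := p) (hp := ⟨hp⟩) hzp hz1
        rw [← h2]
        exact IsPrimitiveRoot.orderOf z
      have hvz : W.valuation N z = 1 := by
        refine W12_root W hp.ne_zero ?_
        rw [← map_pow, hzp, map_one]
      by_cases hpW : W.valuation N (p : N) = 1
      · -- p is a unit at W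
        obtain ⟨k, hk⟩ := hord
        obtain ⟨π, hπ⟩ := HB1_pi w
        have hd : ord w (π ^ k) = k := by
          rw [ord_zpow, hπ, mul_one]
        have hdN : algebraMap C N ((π ^ k : Cˣ) : C) ≠ 0 := by
          intro h2
          exact (π ^ k : Cˣ).ne_zero ((map_eq_zero _).1 h2)
        have hy : W.valuation N (x / algebraMap C N ((π ^ k : Cˣ) : C)) = 1 := by
          refine W12_root W hp.ne_zero ?_
          rw [← map_pow, div_pow, hc]
          have e1 : algebraMap C N c / algebraMap C N ((π ^ k : Cˣ) : C) ^ p =
              ((Units.map (algebraMap C N : C →* N) (c * ((π ^ k) ^ (p : ℤ))⁻¹) : Nˣ) : N) := by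
            rw [Units.coe_map]
            show _ = algebraMap C N ((c * ((π ^ k) ^ (p : ℤ))⁻¹ : Cˣ) : C)
            rw [Units.val_mul, map_mul, Units.val_inv_eq_inv_val, map_inv₀, zpow_natCast,
              Units.val_pow_eq_pow_val, map_pow, div_eq_mul_inv]
          rw [e1, BF1_val, ord_map W w hw, ord_mul, ord_inv, ord_zpow, hd, hk, add_neg_cancel,
            mul_zero, neg_zero]
          exact WithZero.exp_zero
        have h2 := H28G.K4_iner W σ hσ _ hy.le
        have e2 : σ (x / algebraMap C N ((π ^ k : Cˣ) : C)) - x / algebraMap C N ((π ^ k : Cˣ) : C)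
            = -((1 - z) * (x / algebraMap C N ((π ^ k : Cˣ) : C))) := by
          have e3 : σ (algebraMap C N ((π ^ k : Cˣ) : C)) = algebraMap C N ((π ^ k : Cˣ) : C) :=
            σ.commutes _
          rw [map_div₀, hσz, e3]
          ring
        rw [e2, Valuation.map_neg, map_mul, hy, mul_one] at h2
        have h4 := W12_p W hvz hzp hz1
        rw [hpW] at h4
        exact absurd (h4.trans_lt h2) (lt_irrefl _)
      · -- p is not a unit at W
        have hint : ∀ t : 𝓞 C, W.valuation N (algebraMap C N (t : C)) ≤ 1 := by
          intro t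
          have e : algebraMap C N (t : C) = ((algebraMap (𝓞 C) (𝓞 N) t : 𝓞 N) : N) := rfl
          rw [e]
          exact W.valuation_le_one _
        have hpe : W.valuation N (p : N) = W.valuation N (algebraMap C N ((p : 𝓞 C) : C)) := by
          congr 1
          have e1 : ((p : 𝓞 C) : C) = (p : C) := map_natCast (algebraMap (𝓞 C) C) p
          rw [e1, map_natCast]
        have hple : W.valuation N (p : N) ≤ 1 := by
          rw [hpe]
          exact hint _
        have hplt : W.valuation N (p : N) < 1 := lt_of_le_of_ne hple hpW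
        have hcb : algebraMap C N c = 1 + (p : N) ^ 2 * algebraMap C N (b : C) := by
          rw [← ha]
          have e1 : a = 1 + (p : 𝓞 C) ^ 2 * b := by
            rw [← hb]
            ring
          have e2 : (a : C) = 1 + (p : C) ^ 2 * (b : C) := by
            rw [e1]
            show algebraMap (𝓞 C) C _ = _
            rw [map_add, map_mul, map_pow, map_one, map_natCast]
          rw [e2, map_add, map_mul, map_pow, map_one, map_natCast]
        have hvc : W.valuation N (x ^ p) = 1 := by
          rw [hc, hcb]
          apply Valuation.map_one_add_of_lt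
          rw [map_mul, map_pow]
          refine (mul_le_of_le_one_right' (hint b)).trans_lt ?_
          exact pow_lt_one₀ zero_le hplt two_ne_zero
        have hvx : W.valuation N x = 1 := by
          refine W12_root W hp.ne_zero ?_
          rw [← map_pow]
          exact hvc
        have hzne : (1 - z) ≠ 0 := sub_ne_zero.2 hz1.symm
        have hz1le : W.valuation N (1 - z) ≤ 1 := by
          refine (Valuation.map_sub_le (v := W.valuation N) (g := 1) ?_ ?_)
          · rw [map_one]
          · exact hvz.le
        -- some root of unity is close to x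
        obtain ⟨μ, hμ, hμ2⟩ : ∃ μ ∈ Polynomial.nthRootsFinset p (1 : N),
            W.valuation N ((x - μ) / (1 - z)) ≤ 1 := by
          by_contra hcon
          push Not at hcon
          have e1 : x ^ p - 1 = ∏ μ ∈ Polynomial.nthRootsFinset p (1 : N), (x - μ) := by
            have h5 := congrArg (Polynomial.eval x) (Polynomial.X_pow_sub_one_eq_prod hp.pos hzprim)
            rw [Polynomial.eval_prod, Polynomial.eval_sub, Polynomial.eval_pow, Polynomial.eval_X,
              Polynomial.eval_one] at h5
            rw [h5]
            refine Finset.prod_congr rfl fun μ _ => ?_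
            rw [Polynomial.eval_sub, Polynomial.eval_X, Polynomial.eval_C]
          have e2 : (x ^ p - 1) / (1 - z) ^ p =
              ∏ μ ∈ Polynomial.nthRootsFinset p (1 : N), ((x - μ) / (1 - z)) := by
            rw [Finset.prod_div_distrib, ← e1, Finset.prod_const, hzprim.card_nthRootsFinset]
          have e3 : (x ^ p - 1) / (1 - z) ^ p =
              algebraMap C N (b : C) * ((p : N) / (1 - z) ^ (p - 1)) ^ 2 * (1 - z) ^ (p - 2) := by
            rw [hc, hcb]
            have e4 : (1 - z) ^ (p - 1) * (1 - z) ^ (p - 1) = (1 - z) ^ p * (1 - z) ^ (p - 2) := by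
              rw [← pow_add, ← pow_add]
              congr 1
              omega
            rw [div_pow, ← pow_mul, show (p - 1) * 2 = (p - 1) + (p - 1) by ring, pow_add, e4,
              add_sub_cancel_left]
            have e5 : (1 - z) ^ p ≠ 0 := pow_ne_zero _ hzne
            have e6 : (1 - z) ^ (p - 2) ≠ 0 := pow_ne_zero _ hzne
            field_simp
          have h6 : W.valuation N ((x ^ p - 1) / (1 - z) ^ p) ≤ 1 := by
            rw [e3, map_mul, map_mul, map_pow, map_pow]
            exact mul_le_one' (mul_le_one' (hint b) (pow_le_one₀ zero_le (W12_p2 W hp hvz hzprim)))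
              (pow_le_one₀ zero_le hz1le)
          have h7 : 1 < W.valuation N ((x ^ p - 1) / (1 - z) ^ p) := by
            rw [e2]
            refine Finset.prod_induction_nonempty _ (fun a => 1 < W.valuation N a) ?_ ?_ ?_
            · intro a b ha hb
              rw [map_mul]
              exact one_lt_mul'' ha hb
            · refine ⟨1, ?_⟩
              rw [Polynomial.mem_nthRootsFinset hp.pos, one_pow]
            · exact hcon
          exact absurd (h6.trans_lt h7) (lt_irrefl _)
        have h8 := H28G.K4_iner W σ hσ _ hμ2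
        have hσμ : σ μ = μ := by
          rw [Polynomial.mem_nthRootsFinset hp.pos] at hμ
          obtain ⟨i, -, hi⟩ := hζN.eq_pow_of_pow_eq_one hμ
          rw [← hi, ← map_pow]
          exact σ.commutes _
        have e9 : σ ((x - μ) / (1 - z)) - (x - μ) / (1 - z) = -x := by
          rw [map_div₀, map_sub, map_sub, map_one, hσfix, hσμ, hσz]
          field_simp
          ring
        rw [e9, Valuation.map_neg, hvx] at h8
        exact lt_irrefl _ h8
    have h9 : (σ : N →ₐ[C] N) = AlgHom.id C N := by
      apply AlgHom.ext_of_adjoin_eq_top hgen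
      intro x hx
      exact hfix x hx
    apply AlgEquiv.ext
    intro x
    exact DFunLike.congr_fun h9 x
  rw [hbot, Subgroup.card_bot, h0] at h1
  exact h1.symm

end H28R
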