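import Mathlib
import Pool.Agent.Lib.H55P.Stm
import Pool.Agent.Lib.H55R.HD

/-!
# H28R: realisation of p-groups over F = Q(om), p >= 5 (definitions)

See PROOF.md.
-/

open NumberField IsDedekindDomain

namespace H28R

open H55B (F O om Prim gen)
open H55P H55R

/-- The cyclic group of order p. -/
abbrev CP (p : ℕ) : Type := Multiplicative (ZMod p)

/-- K/F is Galois of p-power degree, unramified outside the good primes, and all ramified primes have norm greater than B. -/
def PB (p : ℕ) (K : Type) [Field K] [NumberField K] [Algebra F K] (B : ℕ) : Prop :=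
  ExtP p K ∧ ∀ w : HeightOneSpectrum (𝓞 K), w.asIdeal.ramificationIdx O ≠ 1 →
    B < Ideal.absNorm w.asIdeal

/-- All primes of F above the number l are good. -/
def GoodL (p l : ℕ) : Prop := ∀ v : HeightOneSpectrum O, (l : O) ∈ v.asIdeal → GoodP p v

/-- K is contained in a field generated over F by m-th roots of unity, where all prime factors of m are good. -/
def ExplicitP (p : ℕ) (K : Type) [Field K] [Algebra F K] : Prop :=
  ∃ (N : Type) (_ : Field N) (_ : NumberField N) (_ : Algebra F N) (_ : Algebra K N)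
    (_ : IsScalarTower F K N) (m : ℕ) (S : Set N), m ≠ 0 ∧
    (∀ l : ℕ, l.Prime → l ∣ m → GoodL p l) ∧ (∀ s ∈ S, s ^ m = 1) ∧ Algebra.adjoin F S = ⊤

/-- K₀/ℚ is Galois of p-power degree and unramified outside the good primes. -/
def RatP (p : ℕ) (K₀ : Type) [Field K₀] [NumberField K₀] : Prop :=
  IsGalois ℚ K₀ ∧ (∃ k : ℕ, Module.finrank ℚ K₀ = p ^ k) ∧
    ∀ (w : HeightOneSpectrum (𝓞 K₀)) (l : ℕ), l.Prime → (l : 𝓞 K₀) ∈ w.asIdeal → ¬ GoodL p l →
      w.asIdeal.ramificationIdx ℤ = 1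

/-- K is the quadratic extension of K₀ generated by the cube roots of unity. -/
structure QuadF (K₀ K : Type) [Field K₀] [Field K] [Algebra F K] [Algebra K₀ K] : Prop where
  rank : Module.finrank K₀ K = 2
  noroot : ∀ x : K₀, x ^ 2 + x + 1 ≠ 0

/-- H is isomorphic to a quotient of a subgroup of Γ. -/
def SubQ (Γ : Type) [Group Γ] (H : Type) [Group H] : Prop :=
  ∃ (S : Subgroup Γ) (φ : S →* H), Function.Surjective φ

/-- There is a number field K₀ in the class InP p with a real place, whose compositum N with F is in the class ExtP p,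
and H is a subquotient of the Galois group of N/F. -/
def RealFieldP (p : ℕ) (H : Type) [Group H] : Prop :=
  ∃ (K₀ : Type) (_ : Field K₀) (_ : NumberField K₀), 0 < InfinitePlace.nrRealPlaces K₀ ∧
    InP p K₀ ∧
    ∃ (N : Type) (_ : Field N) (_ : NumberField N) (_ : Algebra F N) (_ : Algebra K₀ N),
      QuadF K₀ N ∧ ExtP p N ∧ SubQ (N ≃ₐ[F] N) H

/-! ### The wreath step -/

/-- The automorphisms over F₀ which fix ζ. -/
def FixZ (F₀ : Type) {E : Type} [Field F₀] [Field E] [Algebra F₀ E] (ζ : E) :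
    Subgroup (E ≃ₐ[F₀] E) where
  carrier := {σ | σ ζ = ζ}
  mul_mem' := by
    intro a b ha hb
    show a (b ζ) = ζ
    rw [show b ζ = ζ from hb]
    exact ha
  one_mem' := rfl
  inv_mem' := by
    intro a ha
    show a.symm ζ = ζ
    rw [AlgEquiv.symm_apply_eq]
    exact (show a ζ = ζ from ha).symm

theorem mem_FixZ {F₀ E : Type} [Field F₀] [Field E] [Algebra F₀ E] {ζ : E} {σ : E ≃ₐ[F₀] E} :
    σ ∈ FixZ F₀ ζ ↔ σ ζ = ζ := Iff.rfl

/-- C = K(ζ), ζ a primitive p-th root of unity, K/F Galois of p-power degree: the group of C/F is the direct product of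
FixZ F ζ (isomorphic to the group of K/F) and the group of C/K. -/
structure Cyc (p : ℕ) (K C : Type) [Field K] [NumberField K] [Field C] [NumberField C]
    [Algebra F K] [Algebra F C] [Algebra K C] [IsScalarTower F K C] (ζ : C) : Prop where
  galK : IsGalois F K
  gal : IsGalois F C
  prim : IsPrimitiveRoot ζ p
  gen : ∀ σ : C ≃ₐ[K] C, σ ζ = ζ → σ = 1
  deg : Module.finrank K C ∣ p - 1
  pow : ∃ k : ℕ, Module.finrank F K = p ^ k
  iso : ∃ e : FixZ F ζ ≃* (K ≃ₐ[F] K), ∀ (σ : FixZ F ζ) (x : K),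
    (σ : C ≃ₐ[F] C) (algebraMap K C x) = algebraMap K C (e σ x)
  comm : ∀ (σ : FixZ F ζ) (δ : C ≃ₐ[K] C) (x : C),
    (σ : C ≃ₐ[F] C) (δ x) = δ ((σ : C ≃ₐ[F] C) x)
  dec : ∀ s : C ≃ₐ[F] C, ∃ (σ : FixZ F ζ) (δ : C ≃ₐ[K] C), ∀ x : C, s x = (σ : C ≃ₐ[F] C) (δ x)

/-- The prime w of C has degree one over F, is unramified over F, lies over a good prime, and has norm greater than B. -/
structure Nice (p : ℕ) (C : Type) [Field C] [NumberField C] [Algebra F C] (B : ℕ) (w : Pl C) :
    Prop where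
  deg : w.asIdeal.inertiaDeg O = 1
  unr : w.asIdeal.ramificationIdx O = 1
  good : ∀ v : HeightOneSpectrum O, v.asIdeal = w.asIdeal.under O → GoodP p v
  big : B < Ideal.absNorm w.asIdeal

/-- α is congruent to 1 modulo p^2, and its order is divisible by p except at w and w', two nice primes over different primes of
F, where it is 1 and -1 modulo p. -/
structure Alp (p : ℕ) (C : Type) [Field C] [NumberField C] [Algebra F C] (B : ℕ) (α : Cˣ)
    (w w' : Pl C) : Prop where
  pp : ∃ a : 𝓞 C, (a : C) = α ∧ (p : 𝓞 C) ^ 2 ∣ a - 1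
  at1 : (p : ℤ) ∣ ord w α - 1
  at2 : (p : ℤ) ∣ ord w' α + 1
  oth : ∀ P : Pl C, P ≠ w → P ≠ w' → (p : ℤ) ∣ ord P α
  ne : w.asIdeal.under O ≠ w'.asIdeal.under O
  nice : Nice p C B w
  nice' : Nice p C B w'

/-- γ is as α, with the conjugates of w, w' over K, and is an eigenvector for the group of C/K modulo p-th powers. -/
structure Gam (p : ℕ) (K C : Type) [Field K] [NumberField K] [Field C] [NumberField C]
    [Algebra F K] [Algebra F C] [Algebra K C] [IsScalarTower F K C] (ζ : C) (B : ℕ) (γ : Cˣ)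
    (w w' : Pl C) : Prop where
  pp : ∃ a : 𝓞 C, (a : C) = γ ∧ (p : 𝓞 C) ^ 2 ∣ a - 1
  at1 : ¬ (p : ℤ) ∣ ord w γ
  oth : ∀ P : Pl C, (∀ δ : C ≃ₐ[K] C, P ≠ smulP δ w ∧ P ≠ smulP δ w') → (p : ℤ) ∣ ord P γ
  eig : ∀ (δ : C ≃ₐ[K] C) (n : ℕ), δ ζ = ζ ^ n → ∃ z : Cˣ, δ (γ : C) = (γ : C) ^ n * (z : C) ^ p
  ne : w.asIdeal.under O ≠ w'.asIdeal.under O
  nice : Nice p C B w
  nice' : Nice p C B w'

/-- N is generated over C by p-th roots r g of the conjugates g γ, g in FixZ F₀ ζ, and N/F₀ is Galois. -/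
structure WrP (p : ℕ) (F₀ C N : Type) [Field F₀] [Field C] [Field N] [Algebra F₀ C] [Algebra F₀ N]
    [Algebra C N] (ζ γ : C) (r : FixZ F₀ ζ → N) : Prop where
  pow : ∀ g : FixZ F₀ ζ, r g ^ p = algebraMap C N ((g : C ≃ₐ[F₀] C) γ)
  gen : Algebra.adjoin C (Set.range r) = ⊤
  gal : IsGalois F₀ N

end H28R
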