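import Mathlib
import Pool.Agent.Lib.H28R.Defs
import Pool.Agent.Lib.H55P.Z5

open NumberField IsDedekindDomain WeierstrassCurve

namespace H28R

open H55B (F O om e Prim gen cj)
open H55P H55R

/-! Chunk A1 (M): numbers of points. card_pts: H55P.cardE for K = F (𝓞 F = O): Psi F v.asIdeal = conj (e (gen v)) (H55N.Psi, PsiP_apply, relNorm of v in O over O is v: Ideal.relNorm_self or Algebra.norm of the identity; H55N.psiF_prime), so the number of points is
|1 - e(gen v)|^2 = Nm (1 - gen v) (H55B.Nm_eq, e injective ring homomorphism, casts). good_two: v contains l = 2 mod 3: 3 not in v, v = (l) (H55B.prime_types: the other case absNorm v = l' = 1 mod 3 with l' in v gives l = l'), gen v = - l (it is the primary generator: unique, gen_spec,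
H55B.prim_unique or unit_cases; - l = 1 mod 3), the number of points is Nm (1 + l) = (l+1)^2 (K14_Nm_nat in H28G/K14 or Nm_repr), p does not divide it; p not in v: l <> p (p and l coprime integers). (bad_dvd is in A9.) -/

theorem A1_under (v : HeightOneSpectrum (𝓞 F)) : v.asIdeal = v.asIdeal.under O := by
  rw [Ideal.under_def]
  ext x
  rw [Ideal.mem_comap]
  have h : algebraMap O (𝓞 F) x = x := by
    apply RingOfIntegers.ext
    rfl
  rw [h]

theorem A1_inertia (K : Type) [Field K] [NumberField K] [Algebra F K] (h1 : Module.finrank F K = 1)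
    (v : HeightOneSpectrum (𝓞 K)) (u : HeightOneSpectrum O) (hu : u.asIdeal = v.asIdeal.under O) :
    v.asIdeal.inertiaDeg O = 1 := by
  obtain ⟨ε, hε⟩ := H55N.T2_equiv K h1
  have hlies : v.asIdeal.LiesOver u.asIdeal := ⟨hu⟩
  have := v.isMaximal
  have := u.isMaximal
  have h6 := Ideal.relNorm_eq_pow_of_isMaximal v.asIdeal u.asIdeal
  have h7 : v.asIdeal = (ε u.asIdeal) ^ (v.asIdeal.inertiaDeg O) := by
    obtain ⟨J, hJ⟩ := ε.surjective v.asIdeal
    obtain ⟨J', hJ'⟩ := ε.surjective ((ε u.asIdeal) ^ (v.asIdeal.inertiaDeg O))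
    have h8 := (hε J).1
    have h9 := (hε J').1
    rw [hJ, h6] at h8
    rw [hJ', map_pow, (hε _).1] at h9
    have h10 : J = J' := by rw [← h8, ← h9]
    exact hJ.symm.trans ((congrArg ε h10).trans hJ')
  have hirr := v.irreducible
  have hpos : 0 < v.asIdeal.inertiaDeg O := Ideal.inertiaDeg_pos v.asIdeal O
  obtain ⟨g, hg'⟩ : ∃ g, v.asIdeal.inertiaDeg O = g + 1 := ⟨_, (Nat.sub_add_cancel hpos).symm⟩
  rw [hg'] at h7
  rw [hg']
  have hnu : ¬ IsUnit (ε u.asIdeal) := by
    intro h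
    apply hirr.not_isUnit
    rw [h7]
    exact h.pow _
  rw [h7, pow_succ] at hirr
  rcases hirr.isUnit_or_isUnit rfl with h | h
  · rcases Nat.eq_zero_or_pos g with h0 | h0
    · rw [h0]
    · exact absurd ((isUnit_pow_iff h0.ne').1 h) hnu
  · exact absurd h hnu

theorem A1_Psi (v : HeightOneSpectrum O) (h3 : (3 : O) ∉ v.asIdeal) :
    H55N.Psi F v.asIdeal = (starRingEnd ℂ) (e (gen v)) := by
  have h := H55N.Psi_prime (K := F) v v (A1_under v)
  rw [A1_inertia F (Module.finrank_self F) v v (A1_under v), pow_one, H55N.psiF_prime v h3] at h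
  exact h

theorem A1_card (v : HeightOneSpectrum (𝓞 F)) (h3 : (3 : 𝓞 F) ∉ v.asIdeal)
    (i : Algebra O (𝓞 F ⧸ v.asIdeal)) :
    Nat.card (W27O⁄(𝓞 F ⧸ v.asIdeal)).toAffine.Point =
      Nat.card {p : (𝓞 F ⧸ v.asIdeal) × (𝓞 F ⧸ v.asIdeal) // p.2 ^ 2 + p.2 = p.1 ^ 3} + 1 :=
  PZ5_card F v h3

theorem card_pts (v : HeightOneSpectrum O) (h3 : (3 : O) ∉ v.asIdeal) :
    Nat.card (W27O⁄(O ⧸ v.asIdeal)).toAffine.Point = H55B.Nm (1 - gen v) := by
  have h1 := cardE F v h3
  rw [A1_Psi v h3] at h1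
  rw [A1_card v h3] at h1
  have h4 : Nat.card (W27O⁄(O ⧸ v.asIdeal)).toAffine.Point =
      Nat.card {p : (O ⧸ v.asIdeal) × (O ⧸ v.asIdeal) // p.2 ^ 2 + p.2 = p.1 ^ 3} + 1 :=
    PZ5_card F v h3
  rw [h4]
  have h5 : ((Nat.card {p : (O ⧸ v.asIdeal) × (O ⧸ v.asIdeal) // p.2 ^ 2 + p.2 = p.1 ^ 3} + 1 : ℕ) : ℂ) =
      ((H55B.Nm (1 - gen v) : ℕ) : ℂ) := by
    rw [h1, Complex.conj_conj]
    have h6 : ((H55B.Nm (1 - gen v) : ℕ) : ℂ) = ((‖e (1 - gen v)‖ ^ 2 : ℝ) : ℂ) := by
      rw [← H55B.Nm_eq]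
      push_cast
      rfl
    rw [h6, Complex.sq_norm, ← Complex.mul_conj, map_sub, map_one, map_sub, map_one]
    ring
  exact_mod_cast h5

theorem good_two {p l : ℕ} (hp : p.Prime) (hl : l.Prime) (h3 : l % 3 = 2) (hlp : l ≠ p)
    (h : ¬ p ∣ l + 1) : GoodL p l := by
  intro v hlv
  have hint : ∀ n : ℕ, Nat.Coprime l n → (n : O) ∉ v.asIdeal := by
    intro n hn hnv
    apply v.isPrime.ne_top
    rw [Ideal.eq_top_iff_one]
    have h1 : IsCoprime (l : ℤ) (n : ℤ) := Nat.isCoprime_iff_coprime.2 hn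
    obtain ⟨a, b, hab⟩ := h1
    have h2 : (1 : O) = (a : O) * (l : O) + (b : O) * (n : O) := by
      have h4 := congrArg (Int.cast : ℤ → O) hab
      push_cast at h4
      exact h4.symm
    rw [h2]
    exact v.asIdeal.add_mem (v.asIdeal.mul_mem_left _ hlv) (v.asIdeal.mul_mem_left _ hnv)
  have h3v : (3 : O) ∉ v.asIdeal := by
    have := hint 3 ((Nat.coprime_primes hl Nat.prime_three).2 (by rintro rfl; omega))
    exact_mod_cast this
  refine ⟨h3v, hint p ((Nat.coprime_primes hl hp).2 hlp), ?_⟩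
  have hsp : v.asIdeal = Ideal.span {(l : O)} := by
    rcases H55B.prime_types v h3v with ⟨l', hl', h3l', hN⟩ | ⟨q, hq, hq3, hv⟩
    · exfalso
      have h5 : (l' : O) ∈ v.asIdeal := by
        rw [← hN]
        exact Ideal.absNorm_mem v.asIdeal
      have h6 : l = l' := by
        by_contra hne
        exact hint l' ((Nat.coprime_primes hl hl').2 hne) h5
      subst h6
      -- norm of gen v is l = 2 mod 3
      obtain ⟨hg1, hg2⟩ := H55B.gen_spec v h3v
      have h7 := H55B.absNorm_gen v h3v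
      obtain ⟨a, b, hab⟩ := H55B.exists_repr (gen v)
      have h8 := H55B.Nm_repr a b
      rw [← hab, ← h7, hN] at h8
      have h9 : (l : ℤ) % 3 = 2 := by exact_mod_cast (by omega : ((l % 3 : ℕ) : ℤ) = 2)
      rw [h8] at h9
      have h10 : (a ^ 2 - a * b + b ^ 2) % 3 = (a + b) ^ 2 % 3 := by
        have : (a ^ 2 - a * b + b ^ 2) = (a + b) ^ 2 - 3 * (a * b) := by ring
        rw [this]
        omega
      rw [h10] at h9
      have h11 : ∀ c : ℤ, c ^ 2 % 3 ≠ 2 := by
        intro c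
        have : c % 3 = 0 ∨ c % 3 = 1 ∨ c % 3 = 2 := by omega
        rcases this with h | h | h <;> rw [pow_two, Int.mul_emod, h] <;> norm_num
      exact h11 _ h9
    · have h5 : (q : O) ∈ v.asIdeal := by
        rw [hv]
        exact Ideal.mem_span_singleton_self _
      have h6 : l = q := by
        by_contra hne
        exact hint q ((Nat.coprime_primes hl hq).2 hne) h5
      rw [h6]
      exact hv
  obtain ⟨hg1, hg2⟩ := H55B.gen_spec v h3v
  have hgen : gen v = -(l : O) := by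
    apply H55B.Prim.eq_of_associated hg2
    · obtain ⟨k, hk⟩ : ∃ k : ℕ, l + 1 = 3 * k := ⟨(l + 1) / 3, by omega⟩
      refine ⟨-(k : O), ?_⟩
      have h5 : ((l + 1 : ℕ) : O) = ((3 * k : ℕ) : O) := by rw [hk]
      push_cast at h5
      linear_combination -h5
    · have h6 : Ideal.span {gen v} = Ideal.span {(l : O)} := by rw [← hg1, hsp]
      exact (Ideal.span_singleton_eq_span_singleton.1 h6).neg_right
  rw [card_pts v h3v, hgen]
  have h8 := H55B.Nm_repr (l + 1) 0
  have h9 : (((l + 1 : ℤ) : O) + ((0 : ℤ) : O) * om) = 1 - -(l : O) := by push_cast; ring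
  rw [h9] at h8
  have h10 : H55B.Nm (1 - -(l : O)) = (l + 1) ^ 2 := by
    have : ((H55B.Nm (1 - -(l : O)) : ℕ) : ℤ) = (((l + 1) ^ 2 : ℕ) : ℤ) := by
      rw [h8]
      push_cast
      ring
    exact_mod_cast this
  rw [h10]
  intro hd
  exact h (hp.dvd_of_dvd_pow hd)

end H28R
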