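import Mathlib
import Pool.Agent.Lib.H28R.A1

open NumberField IsDedekindDomain WeierstrassCurve

namespace H28R

open H55B (F O om e Prim gen cj)
open H55P H55R

/-! Chunk A9 (M): bad_dvd: if v is not good, then p divides Nm (1 - gen v) = (1 - gen v)(cj (1 - gen v)) (mul_cj),
so π divides it, so π | 1 - gen v or π | cj(1 - gen v) = 1 - cj (gen v). In the second case: gen v * cj (gen v) = Nm (gen v) = absNorm v = 1 mod p, so modulo π: gen v = gen v * cj (gen v) = 1. (π | p; Nm (gen v) = absNorm v by gen_spec and the definition of Nm.) good_conj: card_pts for v and v': gen v' = cj (gen v) (both primary generators of v'), Nm (1 - cj g) = Nm (1 - g); 3 and p are fixed by cj. (If 3 is in v, v is not good.) exists_pi: a prime of O above p (exists_prime over p: under_exists or Ideal.exists_ideal_over / HeightOneSpectrum containing p), 3 is not in it, π = gen v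
(gen_spec: primary, generates v, so prime). -/

theorem A9_dvd {π : O} {n : ℕ} {p : ℕ} (hd : π ∣ (p : O)) (h : p ∣ n) : π ∣ (n : O) := by
  obtain ⟨m, rfl⟩ := h
  rw [Nat.cast_mul]
  exact hd.mul_right _

theorem bad_dvd {p : ℕ} (hp : p.Prime) (v : HeightOneSpectrum O) (h3 : (3 : O) ∉ v.asIdeal)
    (hpv : (p : O) ∉ v.asIdeal) (hN : p ∣ Ideal.absNorm v.asIdeal - 1) (hg : ¬ GoodP p v) {π : O}
    (hπ : Prime π) (hd : π ∣ (p : O)) : π ∣ gen v - 1 := by
  have h1 : p ∣ Nat.card (W27O⁄(O ⧸ v.asIdeal)).toAffine.Point := by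
    by_contra h
    exact hg ⟨h3, hpv, h⟩
  rw [card_pts v h3] at h1
  have h2 := A9_dvd hd h1
  rw [← H55B.mul_cj] at h2
  rcases hπ.dvd_or_dvd h2 with h4 | h4
  · have e1 : gen v - 1 = -(1 - gen v) := by ring
    rw [e1]
    exact h4.neg_right
  · have h5 := A9_dvd hd hN
    have h6 : 1 ≤ Ideal.absNorm v.asIdeal := by
      rw [H55B.absNorm_gen v h3]
      exact Nat.pos_of_ne_zero fun h => (H55B.gen_spec v h3).2.ne_zero (H55B.Nm_eq_zero.1 h)
    rw [Nat.cast_sub h6, H55B.absNorm_gen v h3, ← H55B.mul_cj, Nat.cast_one] at h5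
    rw [map_sub, map_one] at h4
    have e1 : gen v - 1 = gen v * (1 - cj (gen v)) + (gen v * cj (gen v) - 1) := by ring
    rw [e1]
    exact dvd_add (h4.mul_left _) h5

theorem A9_Nm (x : O) : H55B.Nm (cj x) = H55B.Nm x := by
  have h : (H55B.Nm (cj x) : ℝ) = (H55B.Nm x : ℝ) := by
    rw [H55B.Nm_eq, H55B.Nm_eq, H55B.e_cj, RCLike.norm_conj]
  exact_mod_cast h

/-- The good primes are stable under complex conjugation. -/
theorem good_conj {p : ℕ} (v v' : HeightOneSpectrum O)
    (h : ∀ x : O, cj x ∈ v'.asIdeal ↔ x ∈ v.asIdeal) (hg : GoodP p v) : GoodP p v' := by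
  obtain ⟨h3, hp, hc⟩ := hg
  have h3' : (3 : O) ∉ v'.asIdeal := by
    intro h4
    apply h3
    rw [← h, map_ofNat]
    exact h4
  have hp' : (p : O) ∉ v'.asIdeal := by
    intro h4
    apply hp
    rw [← h, map_natCast]
    exact h4
  refine ⟨h3', hp', ?_⟩
  have hg1 := H55B.gen_spec v h3
  have hg2 := H55B.gen_spec v' h3'
  have hprim : Prim (cj (gen v)) := by
    obtain ⟨a, ha⟩ := hg1.2
    refine ⟨cj a, ?_⟩
    have h4 := congrArg cj ha
    rw [map_sub, map_one, map_mul, map_ofNat] at h4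
    exact h4
  have hass : Associated (gen v') (cj (gen v)) := by
    refine associated_of_dvd_dvd ?_ ?_
    · rw [H55B.gen_dvd_iff v' h3', h]
      exact (H55B.gen_dvd_iff v h3 _).1 dvd_rfl
    · have h4 : cj (gen v') ∈ v.asIdeal := by
        rw [← h, H55B.cj_cj]
        exact (H55B.gen_dvd_iff v' h3' _).1 dvd_rfl
      obtain ⟨c, hc'⟩ := (H55B.gen_dvd_iff v h3 _).2 h4
      refine ⟨cj c, ?_⟩
      rw [← map_mul, ← hc', H55B.cj_cj]
  have heq := hg2.2.eq_of_associated hprim hass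
  rw [card_pts v' h3', heq]
  rw [card_pts v h3] at hc
  have e1 : 1 - cj (gen v) = cj (1 - gen v) := by rw [map_sub, map_one]
  rw [e1, A9_Nm]
  exact hc

/-- A primary prime element above p. -/
theorem exists_pi {p : ℕ} (hp : p.Prime) (h5 : 5 ≤ p) : ∃ π : O, Prime π ∧ Prim π ∧ π ∣ (p : O) := by
  have hnu : ¬ IsUnit (p : O) := by
    rw [← H55B.Nm_eq_one]
    intro h
    have h1 := H55B.Nm_repr (p : ℤ) 0
    have e : ((p : ℤ) : O) + ((0 : ℤ) : O) * om = (p : O) := by push_cast; ring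
    rw [e, h] at h1
    have h2 : (p : ℤ) ≥ 5 := by exact_mod_cast h5
    push_cast at h1
    nlinarith
  have hp0 : (p : O) ≠ 0 := by
    rw [Ne, Nat.cast_eq_zero]
    exact hp.ne_zero
  obtain ⟨M, hM, hpM⟩ := Ideal.exists_le_maximal (Ideal.span {(p : O)}) (by
    rw [Ne, Ideal.span_singleton_eq_top]
    exact hnu)
  have hpM' : (p : O) ∈ M := hpM (Ideal.mem_span_singleton_self _)
  have hM0 : M ≠ ⊥ := by
    rintro rfl
    exact hp0 ((Submodule.mem_bot _).1 hpM')
  let v : HeightOneSpectrum O := ⟨M, hM.isPrime, hM0⟩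
  have h3 : (3 : O) ∉ v.asIdeal := by
    intro h3
    have hcop : Nat.Coprime p 3 := (Nat.coprime_primes hp Nat.prime_three).2 (by omega)
    have h4 := Nat.isCoprime_iff_coprime.2 hcop
    obtain ⟨a, b, hab⟩ := h4
    apply hM.ne_top
    rw [Ideal.eq_top_iff_one]
    have e : (1 : O) = (a : O) * (p : O) + (b : O) * 3 := by
      have h5 := congrArg (Int.cast : ℤ → O) hab
      push_cast at h5
      exact h5.symm
    rw [e]
    exact M.add_mem (M.mul_mem_left _ hpM') (M.mul_mem_left _ h3)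
  exact ⟨gen v, H55B.gen_prime v h3, (H55B.gen_spec v h3).2, (H55B.gen_dvd_iff v h3 _).2 hpM'⟩

end H28R
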