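import Mathlib

namespace H28R

/-! Chunk A4 (S): Dirichlet's theorem (Nat.forall_exists_prime_gt_and_eq_mod) with the modulus 3 p^n and the class which is 2 modulo 3 and 1 modulo p^n (Nat.chineseRemainder, 3 and p^n coprime; the class is a unit: its coprimality with 3 p^n). -/

theorem exists_prime_p {p : ℕ} (hp : p.Prime) (h5 : 5 ≤ p) (n N : ℕ) :
    ∃ l : ℕ, l.Prime ∧ N < l ∧ l % 3 = 2 ∧ p ^ n ∣ l - 1 := by
  have hco : Nat.Coprime 3 (p ^ n) := by
    apply Nat.Coprime.pow_right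
    rw [Nat.coprime_primes Nat.prime_three hp]
    omega
  obtain ⟨a, ha3, hap⟩ := Nat.chineseRemainder hco 2 1
  have hq : 3 * p ^ n ≠ 0 := mul_ne_zero (by norm_num) (pow_ne_zero _ hp.ne_zero)
  have hac : Nat.Coprime a (3 * p ^ n) := by
    apply Nat.Coprime.mul_right
    · have h1 := ha3.gcd_eq
      change Nat.gcd a 3 = 1
      rw [h1]
      norm_num
    · have h1 := hap.gcd_eq
      change Nat.gcd a (p ^ n) = 1
      rw [h1]
      exact Nat.gcd_one_left _
  obtain ⟨l, hlN, hlp, hl⟩ := Nat.forall_exists_prime_gt_and_modEq N hq hac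
  refine ⟨l, hlp, hlN, ?_, ?_⟩
  · have h1 : l ≡ a [MOD 3] := hl.of_mul_right _
    have h2 : l ≡ 2 [MOD 3] := h1.trans ha3
    exact h2
  · have h1 : l ≡ a [MOD p ^ n] := hl.of_mul_left _
    have h2 : l ≡ 1 [MOD p ^ n] := h1.trans hap
    exact (Nat.modEq_iff_dvd' hlp.one_lt.le).1 h2.symm

end H28R
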