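import Mathlib
import Pool.Agent.Lib.H28R.Defs

open NumberField IsDedekindDomain

namespace H28R

open H55B (F O om Prim gen)
open H55P H55R

/-! Chunk W1 (M): the field C = K(ζ). C = CyclotomicField p K (or K(ζ) inside AlgebraicClosure K): IsCyclotomicExtension {p} K C, ζ = zeta. C/F is Galois: C is the splitting field over K of X^p - 1, which has coefficients in F, and K/F is normal:
every F-embedding of C into an algebraic closure maps K to K and ζ to a power of ζ (for example realise C as IntermediateField.adjoin K {ζ} in AlgebraicClosure K and use IntermediateField.normal_iff_forall_map_le over F, or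
Normal of a compositum). gen: C = K(ζ). deg: the group of C/K embeds in (ZMod p)ˣ (IsPrimitiveRoot.autToPow_injective or IsCyclotomicExtension), of order p - 1. Let Γ = group of C/F, |Γ| = p^k d, d = [C:K] dividing p - 1;
ω : Γ -> (ZMod p)ˣ (IsPrimitiveRoot.autToPow), kernel FixZ F ζ, so |FixZ| * |image| = p^k d, |image| divides p - 1, prime to p: p^k divides |FixZ|. The restriction FixZ -> group of K/F (restrictNormalHom) is injective (an element in the kernel is in the group of
C/K and fixes ζ: gen), so |FixZ| <= p^k and it is bijective: iso. comm: σ in FixZ, δ in the group of C/K: σ δ σ⁻¹ δ⁻¹ fixes K (res is a homomorphism and δ restricts to 1) and fixes ζ (δ ζ = ζ^a, σ ζ = ζ), so it is 1. dec: given s, let σ in FixZ have the same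
restriction to K, δ = σ⁻¹ s fixes K. -/

theorem W1_normal (p : ℕ) [NeZero p] (K : Type) [Field K] [NumberField K] [Algebra F K] [IsGalois F K]
    (C : Type) [Field C] [NumberField C] [Algebra F C] [Algebra K C] [IsScalarTower F K C]
    [IsCyclotomicExtension {p} K C] : Normal F C := by
  let Ω := AlgebraicClosure C
  have hF : IsScalarTower ℚ F C := IsScalarTower.of_algebraMap_eq' (Subsingleton.elim _ _)
  have hfin : FiniteDimensional F C := Module.Finite.of_restrictScalars_finite ℚ F C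
  let ζ : C := IsCyclotomicExtension.zeta p K C
  have hζ : IsPrimitiveRoot ζ p := IsCyclotomicExtension.zeta_spec p K C
  have hζ' : IsPrimitiveRoot (algebraMap C Ω ζ) p :=
    hζ.map_of_injective (algebraMap C Ω).injective
  let i : C →ₐ[F] Ω := IsScalarTower.toAlgHom F C Ω
  have key : ∀ (σ : Ω →ₐ[F] Ω) (x : C), ∃ y : C, σ (algebraMap C Ω x) = algebraMap C Ω y := by
    intro σ x
    have hx : x ∈ Algebra.adjoin K {ζ} := by
      rw [IsCyclotomicExtension.adjoin_primitive_root_eq_top hζ]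
      exact Algebra.mem_top
    refine Algebra.adjoin_induction (p := fun x _ => ∃ y : C, σ (algebraMap C Ω x) = algebraMap C Ω y)
      ?_ ?_ ?_ ?_ hx
    · rintro x hx
      rw [Set.mem_singleton_iff] at hx
      subst hx
      have h1 : σ (algebraMap C Ω ζ) ^ p = 1 := by
        rw [← map_pow, ← map_pow, hζ.pow_eq_one, map_one, map_one]
      obtain ⟨j, -, hj⟩ := hζ'.eq_pow_of_pow_eq_one h1
      exact ⟨ζ ^ j, by rw [map_pow]; exact hj.symm⟩
    · intro a
      refine ⟨algebraMap K C (σ.restrictNormal K a), ?_⟩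
      rw [← IsScalarTower.algebraMap_apply K C Ω, ← IsScalarTower.algebraMap_apply K C Ω]
      exact (AlgHom.restrictNormal_commutes σ K a).symm
    · rintro x y _ _ ⟨x', hx'⟩ ⟨y', hy'⟩
      exact ⟨x' + y', by rw [map_add, map_add, hx', hy', map_add]⟩
    · rintro x y _ _ ⟨x', hx'⟩ ⟨y', hy'⟩
      exact ⟨x' * y', by rw [map_mul, map_mul, hx', hy', map_mul]⟩
  have hΩ : Normal F Ω := by
    have h1 : Algebra.IsAlgebraic F Ω := Algebra.IsAlgebraic.trans F C Ω
    have h2 : IsAlgClosure F Ω := ⟨inferInstance, inferInstance⟩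
    exact IsAlgClosure.normal F Ω
  have h3 : Normal F i.fieldRange := by
    rw [IntermediateField.normal_iff_forall_map_le]
    intro σ
    rintro _ ⟨_, ⟨x, rfl⟩, rfl⟩
    obtain ⟨y, hy⟩ := key σ x
    exact ⟨y, hy.symm⟩
  let j : C →ₐ[F] i.fieldRange := i.codRestrict i.fieldRange.toSubalgebra fun x => ⟨x, rfl⟩
  let e : C ≃ₐ[F] i.fieldRange := AlgEquiv.ofBijective j ⟨j.injective, by
    rintro ⟨_, x, rfl⟩
    exact ⟨x, rfl⟩⟩
  exact Normal.of_algEquiv e.symm

theorem W1_ex (p : ℕ) [NeZero p] (K : Type) [Field K] [NumberField K] :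
    ∃ (C : Type) (_ : Field C) (_ : NumberField C) (_ : Algebra K C),
      IsCyclotomicExtension {p} K C :=
  ⟨CyclotomicField p K, inferInstance, IsCyclotomicExtension.numberField {p} K _, inferInstance,
    inferInstance⟩

theorem exists_cyc (p : ℕ) (hp : p.Prime) (h5 : 5 ≤ p) (K : Type) [Field K] [NumberField K]
    [Algebra F K] (hG : IsGalois F K) (hk : ∃ k : ℕ, Module.finrank F K = p ^ k) :
    ∃ (C : Type) (_ : Field C) (_ : NumberField C) (_ : Algebra F C) (_ : Algebra K C)
      (_ : IsScalarTower F K C) (ζ : C), Cyc p K C ζ := by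
  classical
  have hpF : Fact p.Prime := ⟨hp⟩
  have hp0 : NeZero p := ⟨hp.ne_zero⟩
  obtain ⟨C, iC, hC, iK, hCy⟩ := W1_ex p K
  let iF : Algebra F C := ((algebraMap K C).comp (algebraMap F K)).toAlgebra
  have hT : IsScalarTower F K C := IsScalarTower.of_algebraMap_eq fun x => rfl
  have hQ : IsScalarTower ℚ F C := IsScalarTower.of_algebraMap_eq' (Subsingleton.elim _ _)
  have hQK : IsScalarTower ℚ F K := IsScalarTower.of_algebraMap_eq' (Subsingleton.elim _ _)
  have hfin : FiniteDimensional F C := Module.Finite.of_restrictScalars_finite ℚ F C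
  have hfinK : FiniteDimensional F K := Module.Finite.of_restrictScalars_finite ℚ F K
  have hN : Normal F C := W1_normal p K C
  have hGC : IsGalois F C := { to_normal := hN }
  have hGKC : IsGalois K C := IsCyclotomicExtension.isGalois {p} K C
  let ζ : C := IsCyclotomicExtension.zeta p K C
  have hζ : IsPrimitiveRoot ζ p := IsCyclotomicExtension.zeta_spec p K C
  have hgen : ∀ σ : C ≃ₐ[K] C, σ ζ = ζ → σ = 1 := by
    intro σ hσ
    have h1 : (σ : C →ₐ[K] C) = AlgHom.id K C := by
      apply AlgHom.ext_of_adjoin_eq_top (IsCyclotomicExtension.adjoin_primitive_root_eq_top hζ)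
      intro x hx
      rw [Set.mem_singleton_iff] at hx
      rw [hx]
      exact hσ
    ext x
    exact congrArg (fun f : C →ₐ[K] C => f x) h1
  have hdeg : Module.finrank K C ∣ p - 1 := by
    rw [← IsGalois.card_aut_eq_finrank K C, ← ZMod.card_units p, ← Nat.card_eq_fintype_card]
    refine Subgroup.card_dvd_of_injective (hζ.autToPow K) ?_
    exact IsPrimitiveRoot.autToPow_injective K hζ
  -- restriction
  let res : (C ≃ₐ[F] C) →* (K ≃ₐ[F] K) := AlgEquiv.restrictNormalHom K
  have hres : ∀ (s : C ≃ₐ[F] C) (x : K), s (algebraMap K C x) = algebraMap K C (res s x) := fun s x =>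
    (AlgEquiv.restrictNormal_commutes s K x).symm
  have hlift : ∀ s : C ≃ₐ[F] C, res s = 1 → ∃ δ : C ≃ₐ[K] C, ∀ x, δ x = s x := by
    intro s hs
    refine ⟨AlgEquiv.ofRingEquiv (f := (s : C ≃+* C)) fun x => ?_, fun x => rfl⟩
    show s (algebraMap K C x) = algebraMap K C x
    rw [hres, hs]
    rfl
  have hinj1 : ∀ s : C ≃ₐ[F] C, res s = 1 → s ζ = ζ → s = 1 := by
    intro s hs hsζ
    obtain ⟨δ, hδ⟩ := hlift s hs
    have h1 : δ = 1 := hgen δ (by rw [hδ, hsζ])
    ext x
    rw [← hδ, h1]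
    rfl
  let ρ : FixZ F ζ →* (K ≃ₐ[F] K) := res.comp (FixZ F ζ).subtype
  have hρ : Function.Injective ρ := by
    rw [injective_iff_map_eq_one]
    intro σ hσ
    exact Subtype.ext (hinj1 _ hσ σ.2)
  -- counting
  have hker : (hζ.autToPow F).ker = FixZ F ζ := by
    ext f
    rw [MonoidHom.mem_ker, mem_FixZ]
    have h1 := hζ.autToPow_spec F f
    constructor
    · intro h
      rw [h, Units.val_one, ZMod.val_one, pow_one] at h1
      exact h1.symm
    · intro h
      rw [h] at h1
      have h2 : ((hζ.autToPow F f : (ZMod p)ˣ) : ZMod p).val = 1 := by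
        refine hζ.pow_inj (ZMod.val_lt _) hp.one_lt ?_
        rw [h1, pow_one]
      apply Units.ext
      rw [Units.val_one]
      have h3 := ZMod.natCast_zmod_val ((hζ.autToPow F f : (ZMod p)ˣ) : ZMod p)
      rw [h2, Nat.cast_one] at h3
      exact h3.symm
  obtain ⟨k, hk'⟩ := hk
  have hcardK : Nat.card (K ≃ₐ[F] K) = p ^ k := by rw [IsGalois.card_aut_eq_finrank, hk']
  have hcardF : Nat.card (FixZ F ζ) = p ^ k := by
    have h1 := Subgroup.card_mul_index (hζ.autToPow F).ker
    rw [Subgroup.index_ker, hker, IsGalois.card_aut_eq_finrank,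
      ← Module.finrank_mul_finrank F K C, hk'] at h1
    have h2 : Nat.card (hζ.autToPow F).range ∣ p - 1 := by
      rw [← ZMod.card_units p, ← Nat.card_eq_fintype_card]
      exact Subgroup.card_subgroup_dvd_card _
    have h3 : (p ^ k).Coprime (Nat.card (hζ.autToPow F).range) := by
      apply Nat.Coprime.pow_left
      apply Nat.Coprime.coprime_dvd_right h2
      have := (Nat.coprime_self_add_left (m := p - 1) (n := 1)).2 (Nat.coprime_one_left _)
      rwa [Nat.sub_add_cancel hp.one_le] at this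
    have h4 : p ^ k ∣ Nat.card (FixZ F ζ) :=
      h3.dvd_of_dvd_mul_right (h1 ▸ Dvd.intro _ rfl)
    have h5 : Nat.card (FixZ F ζ) ≤ p ^ k := by
      rw [← hcardK]
      exact Nat.card_le_card_of_injective ρ hρ
    exact le_antisymm h5 (Nat.le_of_dvd Nat.card_pos h4)
  have hbij : Function.Bijective ρ := by
    have := Fintype.ofFinite (FixZ F ζ)
    have := Fintype.ofFinite (K ≃ₐ[F] K)
    rw [Fintype.bijective_iff_injective_and_card]
    refine ⟨hρ, ?_⟩
    rw [← Nat.card_eq_fintype_card, ← Nat.card_eq_fintype_card, hcardF, hcardK]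
  let e : FixZ F ζ ≃* (K ≃ₐ[F] K) := MulEquiv.ofBijective ρ hbij
  have he : ∀ (σ : FixZ F ζ) (x : K),
      (σ : C ≃ₐ[F] C) (algebraMap K C x) = algebraMap K C (e σ x) := fun σ x => hres _ _
  refine ⟨C, iC, hC, iF, iK, hT, ζ, hG, hGC, hζ, hgen, hdeg, ⟨k, hk'⟩,
    ⟨e, he⟩, ?_, ?_⟩
  · intro σ δ x
    let δ' : C ≃ₐ[F] C := δ.restrictScalars F
    have h1 : (σ : C ≃ₐ[F] C) * δ' * (σ : C ≃ₐ[F] C)⁻¹ * δ'⁻¹ = 1 := by
      apply hinj1
      · have h2 : res δ' = 1 := by
          ext y
          apply (algebraMap K C).injective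
          rw [← hres]
          exact δ.commutes y
        rw [map_mul, map_mul, map_mul, map_inv, map_inv, h2, inv_one, mul_one, mul_one,
          mul_inv_cancel]
      · have h3 := hζ.autToPow_spec K δ
        have hσ : (σ : C ≃ₐ[F] C) ζ = ζ := σ.2
        have hσ' : (σ : C ≃ₐ[F] C)⁻¹ ζ = ζ := (FixZ F ζ).inv_mem σ.2
        -- δ'⁻¹ ζ = ζ ^ m
        have h5 := hζ.autToPow_spec K δ⁻¹
        set m := ((hζ.autToPow K δ⁻¹ : (ZMod p)ˣ) : ZMod p).val with hm
        have h6 : δ'⁻¹ ζ = ζ ^ m := h5.symm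
        show (σ : C ≃ₐ[F] C) (δ' ((σ : C ≃ₐ[F] C)⁻¹ (δ'⁻¹ ζ))) = ζ
        rw [h6, map_pow, hσ', ← h6]
        show (σ : C ≃ₐ[F] C) (δ' (δ'⁻¹ ζ)) = ζ
        rw [show δ' (δ'⁻¹ ζ) = ζ from AlgEquiv.apply_symm_apply δ' ζ, hσ]
    have h2 : (σ : C ≃ₐ[F] C) * δ' = δ' * (σ : C ≃ₐ[F] C) := by
      rw [mul_inv_eq_one, mul_inv_eq_iff_eq_mul] at h1
      exact h1
    exact congrArg (fun f : C ≃ₐ[F] C => f x) h2
  · intro s
    obtain ⟨σ, hσ⟩ := hbij.2 (res s)
    obtain ⟨δ, hδ⟩ := hlift ((σ : C ≃ₐ[F] C)⁻¹ * s) (by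
      rw [map_mul, map_inv]
      have : res (σ : C ≃ₐ[F] C) = res s := hσ
      rw [this, inv_mul_cancel])
    refine ⟨σ, δ, fun x => ?_⟩
    rw [hδ]
    show s x = (σ : C ≃ₐ[F] C) ((σ : C ≃ₐ[F] C)⁻¹ (s x))
    exact (AlgEquiv.apply_symm_apply (σ : C ≃ₐ[F] C) (s x)).symm

/-- The group FixZ F ζ has p-power order. -/
theorem Cyc.card {p : ℕ} {K C : Type} [Field K] [NumberField K] [Field C] [NumberField C]
    [Algebra F K] [Algebra F C] [Algebra K C] [IsScalarTower F K C] {ζ : C} (h : Cyc p K C ζ) :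
    Nat.card (FixZ F ζ) = Module.finrank F K := by
  have := h.galK
  obtain ⟨e, -⟩ := h.iso
  rw [Nat.card_congr e.toEquiv, IsGalois.card_aut_eq_finrank]

end H28R
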