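import Mathlib
import Pool.Agent.Lib.H28G.K1
import Pool.Agent.Lib.H28G.K9

open NumberField IsDedekindDomain

namespace H28R

open H55B (F O om Prim gen)
open H55P H55R
open H28G (P27 xc yc act Tor sp ak TFld)

/-! Chunk W2 (M): Frobenius elements act as multiplication. kron_nf: B, with TFld L B β, from H28G.exists_TFld; W a prime of B above Q (under_exists); X' = mp i X, i : L -> B (IsScalarTower.toAlgHom F L B), X' <> 0, act β X' = mp i (act β X); W.valuation of β is < 1, of xc X' is <= 1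
(H28G.lift_lt, lift_le). H28G.kron (j from H28G.exists_emb, TFld.full): the congruences for X' at W. They descend to Q: if y in L has W.valuation (algebraMap y) < 1 then Q.valuation y < 1 (otherwise Q.valuation y⁻¹ <= 1, lift_le). act β X <> 0 since mp i is injective.
frob_act: T = 0 clear. T <> 0 is Q-integral (H28G.tor_int), sp σ T and act β T are <> 0 and in Tor b L, their coordinates are congruent modulo Q: xc (sp σ T) = σ (xc T) = xc T ^ Nm β = xc (act β T) (hσ, xc_sp, H28G.int_y for yc). H28G.fix_of_cong. (H55B.Nm is the norm.) -/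

theorem W2_desc {L B : Type} [Field L] [NumberField L] [Field B] [NumberField B] [Algebra L B]
    (Q : Pl L) (W : Pl B) (hW : W.under (𝓞 L) = Q) (y : L)
    (h : W.valuation B (algebraMap L B y) < 1) : Q.valuation L y < 1 := by
  by_contra hc
  rw [not_lt] at hc
  have hy : y ≠ 0 := by
    rintro rfl
    rw [map_zero] at hc
    exact absurd hc (not_le.2 zero_lt_one)
  have h1 : Q.valuation L y⁻¹ ≤ 1 := by
    rw [map_inv₀]
    exact inv_le_one_of_one_le₀ hc
  have h2 := H28G.lift_le Q W hW y⁻¹ h1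
  have h3 : W.valuation B (algebraMap L B y * algebraMap L B y⁻¹) = 1 := by
    rw [← map_mul, mul_inv_cancel₀ hy, map_one, map_one]
  rw [map_mul] at h3
  have h4 : W.valuation B (algebraMap L B y) * W.valuation B (algebraMap L B y⁻¹) < 1 :=
    lt_of_le_of_lt (mul_le_of_le_one_right' h2) h
  exact absurd h3 h4.ne

theorem kron_nf {L : Type} [Field L] [NumberField L] [DecidableEq L] [Algebra F L] {β : O}
    (hp : Prime β) (hβ : Prim β) (Q : Pl L) (hQ : algebraMap O (𝓞 L) β ∈ Q.asIdeal) {X : P27 L}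
    (hX : X ≠ 0) (h1 : Q.valuation L (xc X) ≤ 1) :
    act β X ≠ 0 ∧ Q.valuation L (xc (act β X) - xc X ^ H55B.Nm β) < 1 ∧
      Q.valuation L (yc (act β X) - yc X ^ H55B.Nm β) < 1 := by
  obtain ⟨B, _, _, _, _, _, _, hT⟩ := H28G.exists_TFld L β hp.ne_zero
  obtain ⟨W, hW⟩ := under_exists (L := B) Q
  obtain ⟨j⟩ := H28G.exists_emb (N := B)
  let i : L →ₐ[F] B := IsScalarTower.toAlgHom F L B
  have hi : ∀ x : L, i x = algebraMap L B x := fun x => rfl
  have hak : ∀ c : O, ak B c = algebraMap L B (ak L c) := fun c =>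
    IsScalarTower.algebraMap_apply F L B (c : F)
  have hX0 : H28G.mp i X ≠ 0 := H28G.mp_ne i hX
  have hv : Q.valuation L (ak L β) < 1 := by
    rw [H28G.ak_int]
    exact (HeightOneSpectrum.valuation_lt_one_iff_mem Q (algebraMap O (𝓞 L) β)).2 hQ
  have hv' : W.valuation B (ak B β) < 1 := by
    rw [hak]
    exact H28G.lift_lt Q W hW _ hv
  have hint : W.valuation B (xc (H28G.mp i X)) ≤ 1 := by
    rw [H28G.xc_mp, hi]
    exact H28G.lift_le Q W hW _ h1
  obtain ⟨k1, k2, k3, k4⟩ := H28G.kron (W.valuation B) j hp hβ hT.full hv' hX0 hint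
  refine ⟨?_, ?_, ?_⟩
  · intro h0
    apply k1
    rw [← H28G.mp_act, h0, map_zero]
  · apply W2_desc Q W hW
    rw [← H28G.mp_act, H28G.xc_mp, H28G.xc_mp, hi, hi, ← map_pow, ← map_sub] at k3
    exact k3
  · apply W2_desc Q W hW
    rw [← H28G.mp_act, H28G.yc_mp, H28G.yc_mp, hi, hi, ← map_pow, ← map_sub] at k4
    exact k4

theorem frob_act {K L : Type} [Field K] [NumberField K] [Field L] [NumberField L] [DecidableEq L]
    [Algebra F K] [Algebra K L] [Algebra F L] [IsScalarTower F K L] {β : O} (hp : Prime β)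
    (hβ : Prim β) (Q : Pl L) (hQ : algebraMap O (𝓞 L) β ∈ Q.asIdeal) {b : O}
    (hb : algebraMap O (𝓞 L) b ∉ Q.asIdeal) (σ : L ≃ₐ[K] L)
    (hσ : ∀ x : L, Q.valuation L x ≤ 1 → Q.valuation L (σ x - x ^ H55B.Nm β) < 1) {T : P27 L}
    (hT : T ∈ Tor b L) : sp σ T = act β T := by
  by_cases h0 : T = 0
  · rw [h0, map_zero, map_zero]
  have hx : Q.valuation L (xc T) ≤ 1 := H28G.tor_int Q hb hT h0
  have hy : Q.valuation L (yc T) ≤ 1 := H28G.int_y (Q.valuation L) hx
  obtain ⟨k1, k2, k3⟩ := kron_nf hp hβ Q hQ h0 hx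
  have h3 : (3 : 𝓞 L) ∉ Q.asIdeal := by
    intro h3
    obtain ⟨c, hc⟩ := hβ
    have h4 : algebraMap O (𝓞 L) (β - 1) ∈ Q.asIdeal := by
      rw [hc, map_mul, map_ofNat]
      exact Q.asIdeal.mul_mem_right _ h3
    have h5 : (1 : 𝓞 L) ∈ Q.asIdeal := by
      have h6 := sub_mem hQ h4
      rw [map_sub, map_one] at h6
      simpa using h6
    exact Q.isPrime.ne_top ((Ideal.eq_top_iff_one _).2 h5)
  have hTa : act β T ∈ Tor b L := by
    rw [H28G.mem_Tor, ← H28G.act_mul, mul_comm, H28G.act_mul, H28G.mem_Tor.1 hT]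
    exact map_zero _
  refine H28G.fix_of_cong Q h3 hb ((H28G.sp_mem σ b T).2 hT) hTa (H28G.sp_ne σ h0) k1 ?_ ?_
  · rw [H28G.xc_sp]
    have e : σ (xc T) - xc (act β T) = (σ (xc T) - xc T ^ H55B.Nm β) -
      (xc (act β T) - xc T ^ H55B.Nm β) := by ring
    rw [e]
    exact (Q.valuation L).map_sub_lt (hσ _ hx) k2
  · rw [H28G.yc_sp]
    have e : σ (yc T) - yc (act β T) = (σ (yc T) - yc T ^ H55B.Nm β) -
      (yc (act β T) - yc T ^ H55B.Nm β) := by ring
    rw [e]
    exact (Q.valuation L).map_sub_lt (hσ _ hy) k3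

end H28R
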