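import Mathlib
import Pool.Agent.Lib.H28G.K6
import Pool.Agent.Lib.H28R.A4
import Pool.Agent.Lib.H28R.W1
import Pool.Agent.Lib.H28R.W2
import Pool.Agent.Lib.H55B.H1

open NumberField IsDedekindDomain

namespace H28R

open H55B (F O om Prim gen)
open H55P H55R
open H28G (P27 xc yc act Tor sp ak TFld Full)

/-! Chunk W3 (M): not all points killed by π are rational over C = K(ζ). Suppose Full π C; T in Tor π C, T <> 0 (H28G.exists_tor). l a prime, l = 2 mod 3, p | l - 1 (exists_prime_p with n = 1). β = -l: prime in O (l = 2 mod 3 is inert: H55B.prime_types, or Nm l = l^2 and no element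
of norm l; there should be a lemma for inert primes in H55B/H55C), Prim, Nm β = l^2. W a prime of C above v = (l) (under_exists), v.asIdeal = span {β}, absNorm v = l^2. H28G.frob: σ in the group of C/F with σ x = x^(l^2) mod W for W-integral x. σ ζ = ζ: σ ζ - ζ^(l^2) has valuation < 1,
ζ^(l^2) = ζ (p | l^2 - 1), σ ζ is a power of ζ, and different p-th roots of unity are not congruent modulo W (their difference divides p; p not in W as l <> p: compare H28G/K6.lean not_cyc). So σ is in FixZ, a group of order p^k (Cyc.card, Cyc.pow), σ^(p^k) = 1. frob_act: sp σ T = act β T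
(π not in W: Nm π divides p^2). So T = sp (σ^(p^k)) T = act (β^(p^k)) T (sp_mul, sp_one, sp_act), π | (-l)^(p^k) - 1 (H28G.act_eq_zero), and l = 1 mod p: (-l)^(p^k) = -1 mod p (p^k odd), so π | 2 and π | p: contradiction (p odd: coprime integers). -/

theorem W3_Nm_nat (l : ℕ) : H55B.Nm (l : O) = l ^ 2 := by
  have h := H55B.Nm_repr (l : ℤ) 0
  have h1 : ((l : ℤ) : O) + ((0 : ℤ) : O) * om = (l : O) := by push_cast; ring
  rw [h1] at h
  have h2 : ((H55B.Nm (l : O) : ℕ) : ℤ) = ((l ^ 2 : ℕ) : ℤ) := by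
    rw [h]
    push_cast
    ring
  exact_mod_cast h2

theorem W3_inert {l : ℕ} (hl : l.Prime) (h3 : l % 3 = 2) : Prime (l : O) := by
  have hl3 : l ≠ 3 := by
    rintro rfl
    norm_num at h3
  have hl0 : (l : O) ≠ 0 := by
    intro h
    have h1 := W3_Nm_nat l
    rw [h, H55B.Nm_eq_zero.2 rfl] at h1
    have := hl.pos
    have h2 : 0 < l ^ 2 := by positivity
    omega
  have hne : Ideal.span {(l : O)} ≠ ⊤ := by
    rw [Ne, Ideal.span_singleton_eq_top, ← H55B.Nm_eq_one, W3_Nm_nat]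
    intro h
    have h1 : l = 1 := by
      have := Nat.pow_eq_one.1 h
      omega
    exact hl.one_lt.ne' h1
  obtain ⟨M, hM, hle⟩ := Ideal.exists_le_maximal _ hne
  have hmem : (l : O) ∈ M := hle (Ideal.mem_span_singleton_self _)
  let v : HeightOneSpectrum O := ⟨M, hM.isPrime, by
    rintro rfl
    exact hl0 ((Submodule.mem_bot O).1 hmem)⟩
  have hv3 : (3 : O) ∉ v.asIdeal := by
    intro h
    have h1 := (H55B.H1_int_mem (v := v) hl hmem 3).1 (by exact_mod_cast h)
    have h2 : l ∣ 3 := by exact_mod_cast h1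
    exact hl3 ((Nat.prime_dvd_prime_iff_eq hl Nat.prime_three).1 h2)
  rcases H55B.prime_types v hv3 with ⟨l', hl', hl'3, hN⟩ | ⟨q, hq, hq3, hvq⟩
  · exfalso
    have h1 : ((l' : ℕ) : O) ∈ v.asIdeal := by
      rw [← hN]
      exact Ideal.absNorm_mem v.asIdeal
    have h2 := (H55B.H1_int_mem (v := v) hl hmem (l' : ℤ)).1 (by exact_mod_cast h1)
    have h3' : l ∣ l' := by exact_mod_cast h2
    have h4 : l = l' := (Nat.prime_dvd_prime_iff_eq hl hl').1 h3'
    obtain ⟨π, hπ⟩ := (IsPrincipalIdealRing.principal v.asIdeal).principal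
    have hπ' : v.asIdeal = Ideal.span {π} := hπ
    have hNm : H55B.Nm π = l := by
      rw [h4, ← hN, hπ']
      rfl
    obtain ⟨a, b, rfl⟩ := H55B.exists_repr π
    have h5 := H55B.Nm_repr a b
    rw [hNm] at h5
    have h6 : ((l : ℤ)) % 3 = 2 := by exact_mod_cast h3
    rw [h5] at h6
    have ha : a % 3 = 0 ∨ a % 3 = 1 ∨ a % 3 = 2 := by omega
    have hb : b % 3 = 0 ∨ b % 3 = 1 ∨ b % 3 = 2 := by omega
    rcases ha with ha | ha | ha <;> rcases hb with hb | hb | hb <;>
      simp [pow_two, Int.sub_emod, Int.add_emod, Int.mul_emod, ha, hb] at h6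
  · have h1 : ((q : ℕ) : O) ∈ v.asIdeal := by
      rw [hvq]
      exact Ideal.mem_span_singleton_self _
    have h2 := (H55B.H1_int_mem (v := v) hq h1 (l : ℤ)).1 (by exact_mod_cast hmem)
    have h3' : q ∣ l := by exact_mod_cast h2
    have h4 : q = l := (Nat.prime_dvd_prime_iff_eq hq hl).1 h3'
    rw [h4] at hvq
    have h5 := v.isPrime
    rw [hvq] at h5
    exact (Ideal.span_singleton_prime hl0).1 h5

theorem W3_iter {C : Type} [Field C] [NumberField C] [DecidableEq C] [Algebra F C]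
    {σ : C ≃ₐ[F] C} {T : P27 C} {β : O} (h : sp σ T = act β T) (n : ℕ) :
    sp (σ ^ n) T = act (β ^ n) T := by
  induction n with
  | zero => rw [pow_zero, pow_zero, H28G.sp_one, H28G.act_one]
  | succ n ih =>
    rw [pow_succ', H28G.sp_mul, ih, H28G.sp_act, h, ← H28G.act_mul, pow_succ]

theorem not_full {p : ℕ} (hp : p.Prime) (h5 : 5 ≤ p) {K C : Type} [Field K] [NumberField K]
    [Field C] [NumberField C] [DecidableEq C] [Algebra F K] [Algebra F C] [Algebra K C]
    [IsScalarTower F K C] {ζ : C} (h : Cyc p K C ζ) {π : O} (hπ : Prime π) (hd : π ∣ (p : O)) :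
    ¬ Full π C := by
  intro hF
  have hgal := h.gal
  obtain ⟨T, hT, hT0⟩ := H28G.exists_tor hπ hF
  obtain ⟨l, hl, hlp, h3, hpl⟩ := exists_prime_p hp h5 1 p
  rw [pow_one] at hpl
  have hin := W3_inert hl h3
  have hl0 : (l : O) ≠ 0 := hin.ne_zero
  let v : Pl F := ⟨Ideal.span {(l : O)}, (Ideal.span_singleton_prime hl0).2 hin, by
    rw [Ne, Ideal.span_singleton_eq_bot]
    exact hl0⟩
  have hN : Ideal.absNorm v.asIdeal = l ^ 2 := W3_Nm_nat l
  obtain ⟨W, hW⟩ := under_exists (K := F) (L := C) v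
  have hWp := W.isPrime
  obtain ⟨σ, hσ⟩ := H28G.K6_frob (K := F) W
  have hfr := H28G.K6_frob_val W v hW σ hσ
  have hunder : ∀ c : O, algebraMap O (𝓞 C) c ∈ W.asIdeal ↔ (l : O) ∣ c := by
    intro c
    have e : W.asIdeal.under O = Ideal.span {(l : O)} := congrArg HeightOneSpectrum.asIdeal hW
    rw [← Ideal.mem_span_singleton, ← e]
    rfl
  have hlW : ((l : ℕ) : 𝓞 C) ∈ W.asIdeal := by
    have := (hunder (l : O)).2 dvd_rfl
    rwa [map_natCast] at this
  have hpW : ((p : ℕ) : 𝓞 C) ∉ W.asIdeal := by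
    intro hpm
    have hc : IsCoprime (l : ℤ) (p : ℤ) := by
      rw [Nat.isCoprime_iff_coprime]
      exact (Nat.coprime_primes hl hp).2 (by omega)
    obtain ⟨x, y, hxy⟩ := hc
    apply hWp.ne_top
    rw [Ideal.eq_top_iff_one]
    have e : (1 : 𝓞 C) = (x : 𝓞 C) * (l : 𝓞 C) + (y : 𝓞 C) * (p : 𝓞 C) := by
      have := congrArg (fun z : ℤ => (z : 𝓞 C)) hxy
      push_cast at this
      exact this.symm
    rw [e]
    exact add_mem (W.asIdeal.mul_mem_left _ hlW) (W.asIdeal.mul_mem_left _ hpm)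
  have hπW : algebraMap O (𝓞 C) π ∉ W.asIdeal := by
    intro hm
    apply hpW
    obtain ⟨c, hc⟩ := hd
    have e : ((p : ℕ) : 𝓞 C) = algebraMap O (𝓞 C) π * algebraMap O (𝓞 C) c := by
      rw [← map_mul, ← hc, map_natCast]
    rw [e]
    exact W.asIdeal.mul_mem_right _ hm
  have hβ : Prime (-(l : O)) := hin.neg
  have hβP : Prim (-(l : O)) := by
    have h1 : 3 ∣ l + 1 := by omega
    obtain ⟨m, hm⟩ := h1
    refine ⟨-(m : O), ?_⟩
    have h2 : ((l + 1 : ℕ) : O) = ((3 * m : ℕ) : O) := by rw [hm]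
    push_cast at h2
    linear_combination -h2
  have hβN : H55B.Nm (-(l : O)) = l ^ 2 := by
    unfold H55B.Nm
    rw [Ideal.span_singleton_neg]
    exact W3_Nm_nat l
  have hact : sp σ T = act (-(l : O)) T := by
    refine frob_act hβ hβP W ?_ hπW σ ?_ hT
    · rw [hunder]
      exact (dvd_neg).2 dvd_rfl
    · intro x hx
      rw [hβN, ← hN]
      exact hfr x hx
  have hζi : IsIntegral ℤ ζ := h.prim.isIntegral hp.pos
  let z : 𝓞 C := ⟨ζ, hζi⟩
  have hz : z ^ p = 1 := by
    apply RingOfIntegers.ext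
    show ζ ^ p = 1
    exact h.prim.pow_eq_one
  have h11 := AlgHom.IsArithFrobAt.apply_of_pow_eq_one hσ hz hpW
  rw [H28G.K6_card W v hW, hN] at h11
  have h12 : σ ζ = ζ := by
    have h13 := congrArg (fun x : 𝓞 C => (x : C)) h11
    have h14 : σ ζ = ζ ^ (l ^ 2) := h13
    rw [h14]
    obtain ⟨m, hm⟩ := hpl
    have hl1 : l = p * m + 1 := by
      have := hl.pos
      omega
    have hl2 : l ^ 2 = p * (m * (p * m + 2)) + 1 := by
      rw [hl1]
      ring
    rw [hl2, pow_succ, pow_mul, h.prim.pow_eq_one, one_pow, one_mul]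
  obtain ⟨k, hk⟩ := h.pow
  have hcard := h.card
  have hσn : σ ^ (p ^ k) = 1 := by
    have hfin : Finite (FixZ F ζ) := Finite.of_injective (fun s : FixZ F ζ => (s : C ≃ₐ[F] C))
      Subtype.val_injective
    have h1 : (⟨σ, h12⟩ : FixZ F ζ) ^ (p ^ k) = 1 := by
      rw [← hk, ← hcard]
      exact pow_card_eq_one'
    have h2 := congrArg (fun s : FixZ F ζ => (s : C ≃ₐ[F] C)) h1
    exact h2
  have h15 := W3_iter hact (p ^ k)
  rw [hσn, H28G.sp_one] at h15
  have h16 : act ((-(l : O)) ^ (p ^ k) - 1) T = 0 := by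
    rw [H28G.act_sub, ← h15, H28G.act_one, sub_self]
  have h17 : π ∣ (-(l : O)) ^ (p ^ k) - 1 := (H28G.act_eq_zero hπ hT hT0 _).1 h16
  have hodd : Odd (p ^ k) := (hp.odd_of_ne_two (by omega)).pow
  have h18 : π ∣ (-(l : O)) ^ (p ^ k) + 1 := by
    have h19 : (-(l : O)) - (-1) ∣ (-(l : O)) ^ (p ^ k) - (-1) ^ (p ^ k) := sub_dvd_pow_sub_pow _ _ _
    rw [hodd.neg_one_pow, sub_neg_eq_add, sub_neg_eq_add] at h19
    refine dvd_trans ?_ h19
    refine dvd_trans hd ?_
    obtain ⟨m, hm⟩ := hpl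
    refine ⟨-(m : O), ?_⟩
    have hl1 : l = p * m + 1 := by
      have := hl.pos
      omega
    have h2 : (l : O) = ((p * m + 1 : ℕ) : O) := by rw [← hl1]
    push_cast at h2
    linear_combination -h2
  have h20 : π ∣ 2 := by
    have h21 := dvd_sub h18 h17
    have e : ((-(l : O)) ^ (p ^ k) + 1) - ((-(l : O)) ^ (p ^ k) - 1) = 2 := by ring
    rwa [e] at h21
  obtain ⟨j, hj⟩ := hp.odd_of_ne_two (by omega)
  have h22 : π ∣ 1 := by
    have h23 := dvd_sub hd (h20.mul_right (j : O))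
    have e : (p : O) - 2 * (j : O) = 1 := by
      have h2 : (p : O) = ((2 * j + 1 : ℕ) : O) := by rw [← hj]
      push_cast at h2
      linear_combination h2
    rwa [e] at h23
  exact hπ.not_isUnit (isUnit_of_dvd_one h22)

/-- The field of the π-torsion over C is different from C. -/
theorem rank_ne {p : ℕ} (hp : p.Prime) (h5 : 5 ≤ p) {K C : Type} [Field K] [NumberField K]
    [Field C] [NumberField C] [DecidableEq C] [Algebra F K] [Algebra F C] [Algebra K C]
    [IsScalarTower F K C] {ζ : C} (h : Cyc p K C ζ) {π : O} (hπ : Prime π) (hd : π ∣ (p : O))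
    (D : Type) [Field D] [NumberField D] [DecidableEq D] [Algebra C D] [Algebra F D]
    [IsScalarTower F C D] (hD : TFld C D π) : Module.finrank C D ≠ 1 := by
  intro h1
  apply not_full hp h5 h hπ hd
  let i : C →ₐ[F] D := IsScalarTower.toAlgHom F C D
  have hinj : Function.Injective i := i.toRingHom.injective
  have hsurj : Function.Surjective i := by
    intro y
    obtain ⟨v, hv⟩ := finrank_eq_one_iff'.1 h1
    obtain ⟨hv0, hv1⟩ := hv
    obtain ⟨c, hc⟩ := hv1 y
    obtain ⟨c1, hc1⟩ := hv1 1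
    have hc10 : c1 ≠ 0 := by
      rintro rfl
      rw [zero_smul] at hc1
      exact zero_ne_one hc1
    refine ⟨c / c1, ?_⟩
    show algebraMap C D (c / c1) = y
    have e : v = c1⁻¹ • (1 : D) := by
      rw [← hc1, smul_smul, inv_mul_cancel₀ hc10, one_smul]
    rw [← hc, e, smul_smul, Algebra.smul_def, mul_one, div_eq_mul_inv]
  let E : C ≃ₐ[F] D := AlgEquiv.ofBijective i ⟨hinj, hsurj⟩
  have hfull := hD.full
  unfold Full at hfull ⊢
  rw [← hfull]
  let φ : Tor π C → Tor π D := fun S =>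
    ⟨H28G.mp (E : C →ₐ[F] D) S.1, (H28G.mp_mem_Tor (E : C →ₐ[F] D) π S.1).2 S.2⟩
  refine Nat.card_congr (Equiv.ofBijective φ ⟨?_, ?_⟩)
  · intro a b hab
    exact Subtype.ext (H28G.mp_inj _ (congrArg Subtype.val hab))
  · rintro ⟨R, hR⟩
    refine ⟨⟨H28G.mp (E.symm : D →ₐ[F] C) R, (H28G.mp_mem_Tor _ π R).2 hR⟩, ?_⟩
    apply Subtype.ext
    show H28G.mp (E : C →ₐ[F] D) (H28G.mp (E.symm : D →ₐ[F] C) R) = R
    by_cases hR0 : R = 0
    · rw [hR0, map_zero, map_zero]
    · refine H28G.pt_ext (H28G.mp_ne _ (H28G.mp_ne _ hR0)) hR0 ?_ ?_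
      · rw [H28G.xc_mp, H28G.xc_mp]
        exact E.apply_symm_apply _
      · rw [H28G.yc_mp, H28G.yc_mp]
        exact E.apply_symm_apply _

end H28R
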