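import Mathlib
import Pool.Agent.Lib.H55R.X10
import Pool.Agent.Lib.H99B.D1

open NumberField IsDedekindDomain

namespace H28R

open H55R

/-! Chunk W4 (M): a nontrivial Galois extension D/C has infinitely many primes of C of degree one over the rationals which do not split completely. Suppose all primes outside the finite set S, the set of the primes with Spl C D and the set of the primes with absNorm not prime are exhausted (they
cover all primes). PS of the whole set is at least log (1/(s-1)) - C' (density_split for C/C, where every prime splits completely), PS of the split primes is log(1/(s-1))/[D:C] + O(1) (density_split), PS of the third set is bounded (H99B.deg_bound), PS S is bounded (finite). With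
X10_union, X10_mono, X10_fin, X10_lim as in H99B/D5.lean (select): (1 - 1/[D:C]) log(1/(s-1)) bounded, so [D:C] = 1. -/

theorem exists_nonsplit (C D : Type) [Field C] [NumberField C] [Field D] [NumberField D]
    [Algebra C D] [IsGalois C D] (h : Module.finrank C D ≠ 1) (S : Set (Pl C)) (hS : S.Finite) :
    ∃ w : Pl C, w ∉ S ∧ (Ideal.absNorm w.asIdeal).Prime ∧ ¬ Spl C D w := by
  by_contra hcon
  push Not at hcon
  obtain ⟨C₀, hC₀⟩ := density_A C C ⊤ inferInstance
  obtain ⟨C₁, hC₁⟩ := density_split C D
  obtain ⟨C₂, hC₂⟩ := H99B.deg_bound C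
  have hU : {v : Pl C | SplA (⊤ : Subgroup Gal(C/C)) v} ⊆
      {v : Pl C | Spl C D v} ∪ ({v : Pl C | ¬ (Ideal.absNorm v.asIdeal).Prime} ∪ S) := by
    intro v _
    by_cases h1 : v ∈ S
    · exact Or.inr (Or.inr h1)
    by_cases h2 : (Ideal.absNorm v.asIdeal).Prime
    · exact Or.inl (hcon v h1 h2)
    · exact Or.inr (Or.inl h2)
  have hidx : ((⊤ : Subgroup Gal(C/C)).index : ℝ) = 1 := by
    rw [Subgroup.index_top, Nat.cast_one]
  have key : ∀ s ∈ Set.Ioc (1 : ℝ) 2, 1 * Real.log (1 / (s - 1)) ≤
      (1 / Module.finrank C D : ℝ) * Real.log (1 / (s - 1)) +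
        (C₁ + C₂ + hS.toFinset.card + C₀) := by
    intro s hs
    have h1 := X10_mono hU s hs.1
    have h2 := X10_union {v : Pl C | Spl C D v}
      ({v : Pl C | ¬ (Ideal.absNorm v.asIdeal).Prime} ∪ S) s hs.1
    have h3 := X10_union {v : Pl C | ¬ (Ideal.absNorm v.asIdeal).Prime} S s hs.1
    have n2 := X10_nonneg ({v : Pl C | Spl C D v} ∩
      ({v : Pl C | ¬ (Ideal.absNorm v.asIdeal).Prime} ∪ S)) s
    have n3 := X10_nonneg ({v : Pl C | ¬ (Ideal.absNorm v.asIdeal).Prime} ∩ S) s
    have h5 := X10_fin hS s hs.1
    have h6 := hC₀ s hs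
    rw [hidx, abs_le] at h6
    have h7 := (abs_le.1 (hC₁ s hs)).2
    have h8 := hC₂ s hs
    linarith [h6.1]
  have h1 := X10_lim key
  have h2 : 2 ≤ Module.finrank C D := by
    have : 0 < Module.finrank C D := Module.finrank_pos
    omega
  have h3 : (2 : ℝ) ≤ Module.finrank C D := by exact_mod_cast h2
  rw [le_div_iff₀ (by linarith)] at h1
  linarith

end H28R
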