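import Mathlib
import Pool.Agent.Lib.H28R.A9
import Pool.Agent.Lib.H28R.W3
import Pool.Agent.Lib.H28R.W4
import Pool.Agent.Lib.H55R.X12

open NumberField IsDedekindDomain

namespace H28R

open H55B (F O om Prim gen)
open H55P H55R
open H28G (P27 xc yc act Tor sp ak TFld Full)

/-! Chunk W5 (M): infinitely many nice primes of C. π from exists_pi, D from H28G.exists_TFld C π, rank_ne. Apply exists_nonsplit to S together with the finite sets: primes containing 3, primes containing p, primes w with es F C (w.under) <> 1 (ram_fin; above_finite), primes of norm <= B (Ideal.finite_setOf_absNorm_le).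
w has prime norm q. v = w.under (𝓞 F): absNorm w = absNorm v ^ inertiaDeg, so inertiaDeg O = 1 and absNorm v = q (Cyc.gal: H55R.D5_norm, fs, es and Ideal.ramificationIdxIn_eq_ramificationIdx, inertiaDegIn_eq_inertiaDeg). ramificationIdx = es = 1. p | q - 1: ζ is a primitive p-th root of unity modulo w (p not in w), the units of the residue field
have order q - 1 (H99B.exists_cyc-type argument; or the q-th power argument: Frobenius for the prime w of C over C is trivial: ζ^q = ζ mod w (H28G.pow_norm), so ζ^(q-1) = 1 by separability and p | q - 1). Good: suppose v is not good. bad_dvd: π | gen v - 1. β = gen v is prime, primary, Nm β = q. Let W be a prime of D above w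
and τ in the group of D/C from H28G.frob (K = C, N = D): τ x = x^q mod W. frob_act (K = C, L = D, b = π; π not in W because p not in w): sp τ T = act β T = T for T in Tor π D (π | β - 1), so τ = 1 (TFld.gen). So x^q = x mod W for all W-integral x: the residue field of W has q elements, fs C D w = 1
(absNorm W = absNorm w ^ fs: D5_norm; a field in which all elements satisfy x^q = x has at most q elements) and es C D w = 1 (H28G.unram). So Spl C D w: contradiction. -/

theorem W5_fin_mem {C : Type} [Field C] [NumberField C] (x : 𝓞 C) (hx : x ≠ 0) :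
    {w : Pl C | x ∈ w.asIdeal}.Finite := by
  have hI : Ideal.span {x} ≠ ⊥ := by
    rw [Ne, Ideal.span_singleton_eq_bot]
    exact hx
  refine (Ideal.finite_factors hI).subset ?_
  intro w hw
  show w.asIdeal ∣ Ideal.span {x}
  rw [Ideal.dvd_span_singleton]
  exact hw

theorem W5_fin_norm {C : Type} [Field C] [NumberField C] (B : ℕ) :
    {w : Pl C | Ideal.absNorm w.asIdeal ≤ B}.Finite := by
  have h1 := Ideal.finite_setOfPred_absNorm_le (S := 𝓞 C) B
  refine Set.Finite.of_finite_image (f := HeightOneSpectrum.asIdeal) (h1.subset ?_) ?_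
  · rintro _ ⟨w, hw, rfl⟩
    exact hw
  · intro W _ W' _ h
    exact HeightOneSpectrum.ext h

theorem W5_fin_ram {C : Type} [Field C] [NumberField C] [Algebra F C] [IsGalois F C] :
    {w : Pl C | es F C (w.under (𝓞 F)) ≠ 1}.Finite := by
  have h1 := ram_fin F C
  exact h1.preimage' (f := fun w : Pl C => w.under (𝓞 F)) fun b _ => above_finite b

theorem W5_dvd {p : ℕ} (hp : p.Prime) {C : Type} [Field C] [NumberField C] {ζ : C}
    (hζ : IsPrimitiveRoot ζ p) (w : Pl C) (hpw : (p : 𝓞 C) ∉ w.asIdeal) :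
    p ∣ Ideal.absNorm w.asIdeal - 1 := by
  have hwp := w.isPrime
  obtain ⟨σ, hσ⟩ := H28G.K6_frob (K := C) (N := C) w
  have hζi : IsIntegral ℤ ζ := hζ.isIntegral hp.pos
  let z : 𝓞 C := ⟨ζ, hζi⟩
  have hz : z ^ p = 1 := by
    apply RingOfIntegers.ext
    show ζ ^ p = 1
    exact hζ.pow_eq_one
  have h11 := AlgHom.IsArithFrobAt.apply_of_pow_eq_one hσ hz hpw
  have hu : w.under (𝓞 C) = w := by
    apply HeightOneSpectrum.ext
    exact Ideal.comap_id _
  rw [H28G.K6_card w w hu] at h11
  have h13 := congrArg (fun x : 𝓞 C => (x : C)) h11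
  have h14 : σ ζ = ζ ^ Ideal.absNorm w.asIdeal := h13
  have h15 : σ ζ = ζ := σ.commutes ζ
  rw [h15] at h14
  apply hζ.dvd_of_pow_eq_one
  have hN : Ideal.absNorm w.asIdeal ≠ 0 := by
    rw [Ne, Ideal.absNorm_eq_zero_iff]
    exact w.ne_bot
  have h16 : ζ ^ (Ideal.absNorm w.asIdeal - 1) * ζ = ζ := by
    rw [← pow_succ, Nat.sub_add_cancel (by omega)]
    exact h14.symm
  have hζ0 : ζ ≠ 0 := hζ.ne_zero hp.ne_zero
  exact mul_right_cancel₀ hζ0 (by rw [h16, one_mul])

/-- A finite field in which all elements satisfy y^q = y has at most q elements. -/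
theorem W5_card (k : Type) [Field k] [Finite k] (q : ℕ) (hq : 1 < q) (h : ∀ y : k, y ^ q = y) :
    Nat.card k ≤ q := by
  classical
  have := Fintype.ofFinite k
  let P : Polynomial k := Polynomial.X ^ q - Polynomial.X
  have hP : P ≠ 0 := FiniteField.X_pow_card_sub_X_ne_zero k hq
  have hd : P.natDegree = q := FiniteField.X_pow_card_sub_X_natDegree_eq k hq
  have h1 : (Finset.univ : Finset k) ⊆ P.roots.toFinset := by
    intro y _
    rw [Multiset.mem_toFinset, Polynomial.mem_roots hP]
    show P.eval y = 0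
    simp only [P, Polynomial.eval_sub, Polynomial.eval_pow, Polynomial.eval_X, h y, sub_self]
  rw [Nat.card_eq_fintype_card, ← Finset.card_univ]
  calc (Finset.univ : Finset k).card ≤ P.roots.toFinset.card := Finset.card_le_card h1
    _ ≤ Multiset.card P.roots := Multiset.toFinset_card_le _
    _ ≤ P.natDegree := Polynomial.card_roots' P
    _ = q := hd

theorem exists_nice {p : ℕ} (hp : p.Prime) (h5 : 5 ≤ p) {K C : Type} [Field K] [NumberField K]
    [Field C] [NumberField C] [Algebra F K] [Algebra F C] [Algebra K C] [IsScalarTower F K C]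
    {ζ : C} (h : Cyc p K C ζ) (B : ℕ) (S : Set (Pl C)) (hS : S.Finite) :
    ∃ w : Pl C, w ∉ S ∧ Nice p C B w := by
  classical
  have hgal := h.gal
  obtain ⟨π, hπ, hπP, hπd⟩ := exists_pi hp h5
  obtain ⟨D, _, _, _, _, _, _, hD⟩ := H28G.exists_TFld C π hπ.ne_zero
  have hgalD := hD.gal
  have hrk := rank_ne hp h5 h hπ hπd D hD
  have h3C : (3 : 𝓞 C) ≠ 0 := by
    have : ((3 : ℕ) : 𝓞 C) ≠ 0 := Nat.cast_ne_zero.2 (by norm_num)
    exact_mod_cast this
  have hpC : ((p : ℕ) : 𝓞 C) ≠ 0 := Nat.cast_ne_zero.2 hp.ne_zero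
  obtain ⟨w, hwS, hwN, hwns⟩ := exists_nonsplit C D hrk
    (S ∪ ({w : Pl C | (3 : 𝓞 C) ∈ w.asIdeal} ∪ ({w : Pl C | (p : 𝓞 C) ∈ w.asIdeal} ∪
      ({w : Pl C | es F C (w.under (𝓞 F)) ≠ 1} ∪ {w : Pl C | Ideal.absNorm w.asIdeal ≤ B}))))
    (hS.union ((W5_fin_mem _ h3C).union ((W5_fin_mem _ hpC).union
      (W5_fin_ram.union (W5_fin_norm B)))))
  simp only [Set.mem_union, not_or] at hwS
  obtain ⟨hw1, hw3, hwp, hwe, hwB⟩ := hwS
  have hw3' : (3 : 𝓞 C) ∉ w.asIdeal := hw3
  have hwp' : (p : 𝓞 C) ∉ w.asIdeal := hwp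
  have hwe' : es F C (w.under (𝓞 F)) = 1 := not_not.1 hwe
  have hwB' : B < Ideal.absNorm w.asIdeal := not_le.1 hwB
  refine ⟨w, hw1, ?_⟩
  have hwpr := w.isPrime
  let v : Pl F := w.under (𝓞 F)
  have hvpr := v.isPrime
  have hlies : w.asIdeal.LiesOver v.asIdeal := ⟨rfl⟩
  have hnorm := D5_norm v w rfl
  have hfs : fs F C v = 1 := by
    have hpos := fs_pos (L := C) v
    by_contra hne
    have h2 : 2 ≤ fs F C v := by omega
    rw [hnorm] at hwN
    exact Nat.Prime.not_prime_pow h2 hwN
  rw [hfs, pow_one] at hnorm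
  have hgood : GoodP p v := by
    by_contra hng
    have hv3 : (3 : O) ∉ v.asIdeal := by
      intro hm
      apply hw3'
      have h1 : algebraMap O (𝓞 C) 3 ∈ w.asIdeal := hm
      rwa [map_ofNat] at h1
    have hvp : (p : O) ∉ v.asIdeal := by
      intro hm
      apply hwp'
      have h1 : algebraMap O (𝓞 C) (p : O) ∈ w.asIdeal := hm
      rwa [map_natCast] at h1
    have hdv : p ∣ Ideal.absNorm v.asIdeal - 1 := by
      rw [← hnorm]
      exact W5_dvd hp h.prim w hwp'
    have hbd := bad_dvd hp v hv3 hvp hdv hng hπ hπd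
    obtain ⟨hg1, hg2⟩ := H55B.gen_spec v hv3
    have hg0 : gen v ≠ 0 := by
      intro h0
      apply v.ne_bot
      rw [hg1, h0]
      exact Ideal.span_singleton_eq_bot.2 rfl
    have hgp : Prime (gen v) := by
      have := v.isPrime
      rw [hg1] at this
      exact (Ideal.span_singleton_prime hg0).1 this
    have hgN : H55B.Nm (gen v) = Ideal.absNorm w.asIdeal := by
      rw [hnorm]
      unfold H55B.Nm
      rw [← hg1]
    have hgmem : gen v ∈ v.asIdeal := by
      rw [hg1]
      exact Ideal.mem_span_singleton_self _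
    have hπw : algebraMap O (𝓞 C) π ∉ w.asIdeal := by
      intro hm
      apply hwp'
      obtain ⟨c, hc⟩ := hπd
      have e : ((p : ℕ) : 𝓞 C) = algebraMap O (𝓞 C) π * algebraMap O (𝓞 C) c := by
        rw [← map_mul, ← hc, map_natCast]
      rw [e]
      exact w.asIdeal.mul_mem_right _ hm
    obtain ⟨W, hW⟩ := under_exists (K := C) (L := D) w
    have hWp := W.isPrime
    have hunder : ∀ c : O, algebraMap O (𝓞 D) c ∈ W.asIdeal ↔ algebraMap O (𝓞 C) c ∈ w.asIdeal := by
      intro c
      have e : W.asIdeal.under (𝓞 C) = w.asIdeal := congrArg HeightOneSpectrum.asIdeal hW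
      have e2 : algebraMap O (𝓞 D) c = algebraMap (𝓞 C) (𝓞 D) (algebraMap O (𝓞 C) c) := by
        apply RingOfIntegers.ext
        show algebraMap F D (c : F) = algebraMap C D (algebraMap F C (c : F))
        exact IsScalarTower.algebraMap_apply F C D _
      rw [e2, ← e]
      rfl
    obtain ⟨τ, hτ⟩ := H28G.K6_frob (K := C) W
    have hfr := H28G.K6_frob_val W w hW τ hτ
    have hτ1 : τ = 1 := by
      apply hD.gen
      intro R hR
      have h1 : sp τ R = act (gen v) R := by
        refine frob_act hgp hg2 W ?_ ?_ τ ?_ hR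
        · rw [hunder]
          exact hgmem
        · rw [hunder]
          exact hπw
        · intro x hx
          rw [hgN]
          exact hfr x hx
      obtain ⟨c, hc⟩ := hbd
      have h2 : act (gen v - 1) R = 0 := by
        rw [hc, mul_comm, H28G.act_mul, (H28G.mem_Tor).1 hR, map_zero]
      rw [H28G.act_sub, H28G.act_one, sub_eq_zero] at h2
      rw [h1, h2]
    have hfs2 : fs C D w = 1 := by
      have hWm := W.isMaximal
      let _ : Field (𝓞 D ⧸ W.asIdeal) := Ideal.Quotient.field W.asIdeal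
      have hfin : Finite (𝓞 D ⧸ W.asIdeal) := Ideal.finiteQuotientOfFreeOfNeBot W.asIdeal W.ne_bot
      have hq1 : 1 < Ideal.absNorm w.asIdeal := hwN.one_lt
      have hcard := W5_card (𝓞 D ⧸ W.asIdeal) (Ideal.absNorm w.asIdeal) hq1 (by
        intro y
        obtain ⟨x, rfl⟩ := Ideal.Quotient.mk_surjective y
        rw [← map_pow, eq_comm, Ideal.Quotient.eq]
        have h1 := hfr (x : D) (HeightOneSpectrum.valuation_le_one W x)
        rw [hτ1] at h1
        exact (HeightOneSpectrum.valuation_lt_one_iff_mem (K := D) W _).1 h1)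
      have hN2 := D5_norm w W hW
      have hN3 : Nat.card (𝓞 D ⧸ W.asIdeal) = Ideal.absNorm W.asIdeal := by
        rw [Ideal.absNorm_apply, Submodule.cardQuot_apply]
      rw [hN3, hN2] at hcard
      have hpos := fs_pos (L := D) w
      by_contra hne
      have h2 : 1 < fs C D w := by omega
      have h3' : Ideal.absNorm w.asIdeal ^ 1 < Ideal.absNorm w.asIdeal ^ fs C D w :=
        Nat.pow_lt_pow_right hq1 h2
      rw [pow_one] at h3'
      omega
    have hes2 : es C D w = 1 := H28G.unram hD w hw3' hπw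
    exact hwns ⟨hes2, hfs2⟩
  refine ⟨?_, ?_, ?_, hwB'⟩
  · rw [← Ideal.inertiaDegIn_eq_inertiaDeg v.asIdeal w.asIdeal Gal(C/F)]
    exact hfs
  · rw [← Ideal.ramificationIdxIn_eq_ramificationIdx v.asIdeal w.asIdeal Gal(C/F)]
    exact hwe'
  · intro v' hv'
    have e : v' = v := HeightOneSpectrum.ext hv'
    rw [e]
    exact hgood

end H28R
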