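import Mathlib
import Pool.Agent.Lib.H28R.A1
import Pool.Agent.Lib.H28R.A4
import Pool.Agent.Lib.H55C.Y17

open NumberField IsDedekindDomain

namespace H28R

open H55B (F O om Prim gen)
open H55P H55R

/-! Chunk A5 (S/M): a finite abelian p-group is a quotient of the units modulo m, m a product of good primes. Port of H35T/Y3.lean (exists_quot), with exists_prime_p (exponent k + 1) in place of exists_good_prime, H55C.Y17_surj; GoodL p l by good_two: p divides l - 1, so p does not divide l + 1 (p >= 5), l <> p. -/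

theorem exists_quotP {p : ℕ} (hp : p.Prime) (h5 : 5 ≤ p) (A : Type) [CommGroup A] [Finite A]
    (k : ℕ) (hA : Nat.card A = p ^ k) (N : ℕ) :
    ∃ m : ℕ, 1 < m ∧ ¬ 3 ∣ m ∧
      (∀ l : ℕ, l.Prime → l ∣ m → N < l ∧ l % 3 = 2 ∧ GoodL p l) ∧
      ∃ Φ : (ZMod m)ˣ →* A, Function.Surjective Φ := by
  classical
  have := Fintype.ofFinite A
  choose g hg using fun N' : ℕ => exists_prime_p hp h5 (k + 1) N'
  let s : ℕ → ℕ := fun n => Nat.rec (g (N + 3)) (fun _ r => g r) n
  have hs0 : s 0 = g (N + 3) := rfl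
  have hs1 : ∀ n, s (n + 1) = g (s n) := fun n => rfl
  have hgN : ∀ N', N' < g N' := fun N' => (hg N').2.1
  have hmono : StrictMono s := strictMono_nat_of_lt_succ (fun n => by rw [hs1]; exact hgN _)
  have hsN : ∀ n, N + 3 < s n := by
    intro n
    have h1 : s 0 ≤ s n := hmono.monotone (Nat.zero_le n)
    have h2 := hgN (N + 3)
    rw [← hs0] at h2
    omega
  have hsg : ∀ n, ∃ N', s n = g N' := by
    intro n
    cases n with
    | zero => exact ⟨_, hs0⟩
    | succ n => exact ⟨_, hs1 n⟩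
  let e := Fintype.equivFin A
  let l : A → ℕ := fun a => s (e a)
  have hl : Function.Injective l := by
    intro a b hab
    exact e.injective (Fin.ext (hmono.injective hab))
  have hprop : ∀ a, (l a).Prime ∧ p ^ (k + 1) ∣ l a - 1 ∧ N + 3 < l a ∧ l a % 3 = 2 := by
    intro a
    obtain ⟨N', hN'⟩ := hsg (e a)
    have h1 := hg N'
    have h2 : l a = g N' := hN'
    refine ⟨?_, ?_, hsN _, ?_⟩
    · rw [h2]; exact h1.1
    · rw [h2]; exact h1.2.2.2
    · rw [h2]; exact h1.2.2.1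
  have hcard : ∀ a, Nat.card A ∣ l a - 1 := by
    intro a
    rw [hA]
    exact (pow_dvd_pow p (Nat.le_succ k)).trans (hprop a).2.1
  obtain ⟨Φ, hΦ⟩ := H55C.Y17_surj A l hl (fun a => (hprop a).1) hcard
  have hdiv : ∀ q : ℕ, q.Prime → q ∣ ∏ a, l a → ∃ a, q = l a := by
    intro q hq hqd
    obtain ⟨a, -, ha⟩ := (Nat.Prime.prime hq).exists_mem_finset_dvd hqd
    exact ⟨a, (Nat.prime_dvd_prime_iff_eq hq (hprop a).1).1 ha⟩
  refine ⟨∏ a, l a, ?_, ?_, ?_, Φ, hΦ⟩
  · have h1 : l 1 ∣ ∏ a, l a := Finset.dvd_prod_of_mem l (Finset.mem_univ 1)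
    have h2 : 0 < ∏ a, l a := Finset.prod_pos fun a _ => (hprop a).1.pos
    exact lt_of_lt_of_le (hprop 1).1.one_lt (Nat.le_of_dvd h2 h1)
  · intro h3
    obtain ⟨a, ha⟩ := hdiv 3 Nat.prime_three h3
    have := (hprop a).2.2.1
    omega
  · intro q hq hqd
    obtain ⟨a, rfl⟩ := hdiv q hq hqd
    obtain ⟨h1, h2, h3, h4⟩ := hprop a
    have hpd : p ∣ l a - 1 := (dvd_pow_self p (Nat.succ_ne_zero k)).trans h2
    refine ⟨by omega, h4, good_two hp h1 h4 ?_ ?_⟩
    · intro h
      rw [h] at hpd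
      have h6 := Nat.le_of_dvd (by omega) hpd
      omega
    · intro h
      have h6 : p ∣ (l a + 1) - (l a - 1) := Nat.dvd_sub h hpd
      have h7 : (l a + 1) - (l a - 1) = 2 := by omega
      rw [h7] at h6
      have h8 := Nat.le_of_dvd (by norm_num) h6
      omega

end H28R
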