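import Mathlib
import Pool.Agent.Lib.H28R.A5

open NumberField IsDedekindDomain

namespace H28R

open H55B (F O om Prim gen)
open H55P H55R

/-! Chunk A8 (M): abelian extensions of the rationals. m from exists_quotP, N = CyclotomicField m ℚ, its group is (ZMod m)ˣ (IsCyclotomicExtension.Rat.galEquivZMod or autEquivPow with Polynomial.cyclotomic.irreducible_rat), K₀ the fixed field of the kernel of Φ, a Galois extension of the rationals with group A. Totally real: K₀/ℚ is Galois of odd degree, so a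
complex conjugation (an element of order at most 2 of the group: for an embedding i, conj ∘ i = i ∘ g: ComplexEmbedding.exists_comp_symm_eq_of_comp_eq, see H13N/X3.lean) is trivial; NumberField.IsTotallyReal (isReal of every place). RatP: the ramification indices over ℤ: w contains l with GoodL p l false, so l does not divide m and w does not contain m;
the inertia group of a prime of N above w is trivial (as in mu_unr, with ℤ in place of O: H55D.X3_card) or IsCyclotomicExtension.Rat ramification lemmas of Mathlib; multiplicativity in towers (Ideal.ramificationIdx_tower). Then of_ratP. -/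

/-- Galois extensions of the rationals of odd degree are totally real. -/
theorem A8_real (K₀ : Type) [Field K₀] [NumberField K₀] [IsGalois ℚ K₀]
    (h : Odd (Module.finrank ℚ K₀)) : IsTotallyReal K₀ := by
  have hu := IsUnramifiedAtInfinitePlaces_of_odd_finrank h
  refine ⟨fun v => ?_⟩
  rcases InfinitePlace.isUnramified_iff.1 (hu.isUnramified v) with h1 | h1
  · exact h1
  · exfalso
    exact InfinitePlace.not_isReal_iff_isComplex.2 h1 (IsTotallyReal.isReal _)

/-- Subfields of the m-th cyclotomic field are unramified outside m. -/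
theorem A8_unr (m : ℕ) [NeZero m] (N : Type) [Field N] [NumberField N]
    [IsCyclotomicExtension {m} ℚ N] (K₀ : Type) [Field K₀] [NumberField K₀] [Algebra K₀ N]
    (w : HeightOneSpectrum (𝓞 K₀)) (l : ℕ) (hl : l.Prime) (hlw : (l : 𝓞 K₀) ∈ w.asIdeal)
    (hlm : ¬ l ∣ m) : w.asIdeal.ramificationIdx ℤ = 1 := by
  obtain ⟨Q, hQm, hQl⟩ := Ideal.exists_maximal_ideal_liesOver_of_isIntegral (S := 𝓞 N) w.asIdeal
  have hunder : w.asIdeal = Q.under (𝓞 K₀) := hQl.over
  have hp := hQm.isPrime
  have hlQ : (l : 𝓞 N) ∈ Q := by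
    rw [hunder, Ideal.mem_under, map_natCast] at hlw
    exact hlw
  have hF : Fact l.Prime := ⟨hl⟩
  have hunZ : Q.under ℤ = Ideal.span {(l : ℤ)} := by
    have hmax : (Ideal.span {(l : ℤ)}).IsMaximal := by
      have h1 : (Ideal.span {(l : ℤ)}).IsPrime := by
        rw [Ideal.span_singleton_prime (by exact_mod_cast hl.ne_zero)]
        exact Nat.prime_iff_prime_int.1 hl
      exact h1.isMaximal (by
        rw [Ne, Ideal.span_singleton_eq_bot]
        exact_mod_cast hl.ne_zero)
    refine (hmax.eq_of_le (Ideal.IsPrime.under ℤ Q).ne_top ?_).symm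
    rw [Ideal.span_singleton_le_iff_mem, Ideal.mem_under]
    simpa using hlQ
  have hlo : Q.LiesOver (Ideal.span {(l : ℤ)}) := ⟨hunZ.symm⟩
  have h1 : Q.ramificationIdx ℤ = 1 :=
    IsCyclotomicExtension.Rat.ramificationIdx_eq_of_not_dvd (m := m) l N Q hlm
  rw [Ideal.ramificationIdx_tower (R := ℤ) (S := 𝓞 K₀) w.asIdeal Q] at h1
  exact Nat.eq_one_of_mul_eq_one_right h1

/-- The fixed field of a quotient of the group of a cyclotomic field. -/
theorem A8_aux {p : ℕ} (hp : p.Prime) (h5 : 5 ≤ p) (A : Type) [CommGroup A] [Finite A]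
    (k : ℕ) (hA : Nat.card A = p ^ k) (m : ℕ) [NeZero m]
    (hml : ∀ l : ℕ, l.Prime → l ∣ m → GoodL p l)
    (Φ : (ZMod m)ˣ →* A) (hΦ : Function.Surjective Φ)
    (N : Type) [Field N] [NumberField N] [IsCyclotomicExtension {m} ℚ N] [hgalN : IsGalois ℚ N] :
    ∃ (K₀ : Type) (_ : Field K₀) (_ : NumberField K₀), IsTotallyReal K₀ ∧ RatP p K₀ ∧
      Nonempty ((K₀ ≃ₐ[ℚ] K₀) ≃* A) := by
  let ψ : Gal(N/ℚ) →* A :=
    Φ.comp (IsCyclotomicExtension.Rat.galEquivZMod m N).toMonoidHom
  have hψ : Function.Surjective ψ :=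
    hΦ.comp (IsCyclotomicExtension.Rat.galEquivZMod m N).surjective
  have hnor : ψ.ker.Normal := ψ.normal_ker
  have hgal : IsGalois ℚ (IntermediateField.fixedField ψ.ker) :=
    IsGalois.of_fixedField_normal_subgroup ψ.ker
  have e : Gal((IntermediateField.fixedField ψ.ker)/ℚ) ≃* A :=
    (IsGalois.normalAutEquivQuotient ψ.ker).symm.trans (QuotientGroup.quotientKerEquivOfSurjective ψ hψ)
  have hdeg : Module.finrank ℚ (IntermediateField.fixedField ψ.ker) = p ^ k := by
    rw [← IsGalois.card_aut_eq_finrank, Nat.card_congr e.toEquiv, hA]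
  refine ⟨IntermediateField.fixedField ψ.ker, inferInstance, inferInstance, ?_, ⟨hgal, ⟨k, hdeg⟩, ?_⟩,
    ⟨e⟩⟩
  · refine A8_real _ ?_
    rw [hdeg]
    exact (hp.odd_of_ne_two (by omega)).pow
  · intro w l hl hlw hg
    exact A8_unr m N _ w l hl hlw fun h => hg (hml l hl h)

theorem exists_abelianQ {p : ℕ} (hp : p.Prime) (h5 : 5 ≤ p) (A : Type) [CommGroup A] [Finite A]
    (k : ℕ) (hA : Nat.card A = p ^ k) :
    ∃ (K₀ : Type) (_ : Field K₀) (_ : NumberField K₀), IsTotallyReal K₀ ∧ RatP p K₀ ∧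
      Nonempty ((K₀ ≃ₐ[ℚ] K₀) ≃* A) := by
  obtain ⟨m, hm1, hm3, hml, Φ, hΦ⟩ := exists_quotP hp h5 A k hA 0
  have hm0 : NeZero m := ⟨by omega⟩
  have hcyc : IsCyclotomicExtension {m} ℚ (CyclotomicField m ℚ) :=
    CyclotomicField.isCyclotomicExtension m ℚ
  have hgalN : IsGalois ℚ (CyclotomicField m ℚ) := IsCyclotomicExtension.isGalois {m} ℚ _
  exact A8_aux hp h5 A k hA m (fun l hl h => (hml l hl h).2.2) Φ hΦ (CyclotomicField m ℚ)

end H28R
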