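import Mathlib
import Pool.Agent.Lib.H55P.Sel
import Pool.Agent.Lib.H55R.HC6

open NumberField IsDedekindDomain

namespace H28R

open H55P H55R

/-! Chunk W11 (M): the field K' fixed by D. K' = IntermediateField.fixedField D (an IntermediateField F₀ N), a number field (NumberField.of_module_finite or the instance for intermediate fields), Algebra K K' by codRestrict of algebraMap K N (hDK), towers. IsGalois F₀ K' and the isomorphism of its group with the quotient: D is normal
(IsGalois.normalAutEquivQuotient, or IsGalois.of_fixedField_normal_subgroup). Ramification: for a prime W' of K' let W be a prime of N above W' (under_exists). e = ramificationIdx over 𝓞 F₀: multiplicative in towers (Ideal.ramificationIdx_tower), so e(W') divides e(W); e(W') divides [K':F₀] (K'/F₀ Galois: H55R.HC6_dvd for es, es = ramificationIdx by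
Ideal.ramificationIdxIn_eq_ramificationIdx). ram_one: if [K':F₀] = p^n and e(W) divides m, m prime to p, then e(W') = 1. -/

theorem exists_fix (F₀ K N : Type) [Field F₀] [NumberField F₀] [Field K] [NumberField K] [Field N]
    [NumberField N] [Algebra F₀ K] [Algebra K N] [Algebra F₀ N] [IsScalarTower F₀ K N]
    [IsGalois F₀ N] (D : Subgroup (N ≃ₐ[F₀] N)) (hD : D.Normal)
    (hDK : ∀ d ∈ D, ∀ x : K, d (algebraMap K N x) = algebraMap K N x) :
    ∃ (K' : Type) (_ : Field K') (_ : NumberField K') (_ : Algebra F₀ K') (_ : Algebra K K')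
      (_ : IsScalarTower F₀ K K') (_ : Algebra K' N) (_ : IsScalarTower F₀ K' N)
      (_ : IsScalarTower K K' N), IsGalois F₀ K' ∧
      Nonempty ((K' ≃ₐ[F₀] K') ≃* ((N ≃ₐ[F₀] N) ⧸ D)) := by
  have hfd : FiniteDimensional F₀ N := FiniteDimensional.right ℚ F₀ N
  let E : IntermediateField F₀ N := IntermediateField.fixedField D
  have hmem : ∀ x : K, algebraMap K N x ∈ E := by
    intro x
    rw [IntermediateField.mem_fixedField_iff]
    intro d hd
    exact hDK d hd x
  let f : K →+* E := (algebraMap K N).codRestrict E.toSubring hmem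
  let algE : Algebra K E := f.toAlgebra
  have t1 : IsScalarTower K E N := IsScalarTower.of_algebraMap_eq (fun x => rfl)
  have t2 : IsScalarTower F₀ K E := IsScalarTower.of_algebraMap_eq (fun x => by
    apply Subtype.ext
    show algebraMap F₀ N x = algebraMap K N (algebraMap F₀ K x)
    exact IsScalarTower.algebraMap_apply F₀ K N x)
  have hnf : NumberField E := NumberField.of_module_finite F₀ E
  have hg : IsGalois F₀ E := IsGalois.of_fixedField_normal_subgroup D
  exact ⟨E, inferInstance, hnf, inferInstance, algE, t2, inferInstance, inferInstance, t1, hg,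
    ⟨(IsGalois.normalAutEquivQuotient D).symm⟩⟩

theorem ram_one {F₀ K' N : Type} [Field F₀] [NumberField F₀] [Field K'] [NumberField K'] [Field N]
    [NumberField N] [Algebra F₀ K'] [Algebra K' N] [Algebra F₀ N] [IsScalarTower F₀ K' N]
    [IsGalois F₀ K'] {p : ℕ} (hp : p.Prime) (hk : ∃ n : ℕ, Module.finrank F₀ K' = p ^ n) {m : ℕ}
    (hm : m.Coprime p) (W' : Pl K') (W : Pl N) (hW : W.under (𝓞 K') = W')
    (he : W.asIdeal.ramificationIdx (𝓞 F₀) ∣ m) : W'.asIdeal.ramificationIdx (𝓞 F₀) = 1 := by
  obtain ⟨n, hn⟩ := hk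
  have hl : W.asIdeal.LiesOver W'.asIdeal := (BF2_mem W' W hW).2
  have h1 := Ideal.ramificationIdx_tower (R := 𝓞 F₀) W'.asIdeal W.asIdeal
  have h2 : W'.asIdeal.ramificationIdx (𝓞 F₀) ∣ m := (Dvd.intro _ h1.symm).trans he
  have hv : W'.under (𝓞 F₀) = W'.under (𝓞 F₀) := rfl
  have hl' : W'.asIdeal.LiesOver (W'.under (𝓞 F₀)).asIdeal := (BF2_mem _ W' hv).2
  have hWp := W'.isPrime
  have h3 := Ideal.ramificationIdxIn_eq_ramificationIdx (W'.under (𝓞 F₀)).asIdeal W'.asIdeal Gal(K'/F₀)
  have h4 : es F₀ K' (W'.under (𝓞 F₀)) = W'.asIdeal.ramificationIdx (𝓞 F₀) := h3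
  have h5 := (HC6_dvd (L := K') (W'.under (𝓞 F₀))).1
  rw [h4, hn] at h5
  have h6 : Nat.Coprime m (p ^ n) := Nat.Coprime.pow_right n hm
  exact Nat.eq_one_of_dvd_coprimes h6 h2 h5

end H28R
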