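import Mathlib

namespace H28R

/-! Chunk W10 (M), pure group theory. V <= H normal in the finite group A, V a p-group, [H:V] prime to p, V central in H; S a p-subgroup of A with [A:S] = [H:V]. By Schur-Zassenhaus (Subgroup.exists_right_complement'_of_coprime for V as a subgroup of H) there is D0 <= H with D0 V = H, D0 meets V trivially; as V is central, H = V x D0 and
D0 = {h in H : the order of h is prime to p} = {h in H : h^m = 1}, m = [H:V] (h = v d: h^m = v^m d^m = v^m, and v^m = 1 iff v = 1 as V is a p-group and m is prime to p). So D = {h in H | h^m = 1} is a subgroup, normal in A (H is normal), of order m. A -> A/D restricted to S is injective (S meets D trivially: orders p-power and prime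
to p) and |S| = |A|/m = |A/D|: an isomorphism S = A/D. -/

theorem hall {A : Type} [Group A] [Finite A] {p : ℕ} (hp : p.Prime) (V H S : Subgroup A)
    (hVn : V.Normal) (hHn : H.Normal) (hVH : V ≤ H) (hV : ∃ n : ℕ, Nat.card V = p ^ n)
    (hm : (V.relIndex H).Coprime p) (hc : ∀ v ∈ V, ∀ u ∈ H, v * u = u * v)
    (hS : ∃ n : ℕ, Nat.card S = p ^ n) (hSi : S.index = V.relIndex H) :
    ∃ (D : Subgroup A) (_ : D.Normal), D ≤ H ∧ Nonempty ((A ⧸ D) ≃* S) := by
  obtain ⟨n, hn⟩ := hV
  obtain ⟨k, hk⟩ := hS
  set m := V.relIndex H with hmdef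
  -- V as a subgroup of H
  have hNn : (V.subgroupOf H).Normal := hVn.subgroupOf H
  have hcardN : Nat.card (V.subgroupOf H) = p ^ n := by
    rw [← hn]
    exact Nat.card_congr (Subgroup.subgroupOfEquivOfLe hVH).toEquiv
  have hindN : (V.subgroupOf H).index = m := rfl
  obtain ⟨D0, hD0⟩ := Subgroup.exists_right_complement'_of_coprime (N := V.subgroupOf H) (by
    rw [hcardN, hindN]; exact (hm.pow_right n).symm)
  have hcardD0 : Nat.card D0 = m := by
    rw [← hindN]; exact hD0.symm.index_eq_card.symm
  -- every element of H is v * d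
  have hdec : ∀ h ∈ H, ∃ v ∈ V, ∃ d ∈ D0.map H.subtype, h = v * d := by
    intro h hh
    obtain ⟨⟨a, b⟩, hab⟩ := hD0.2 ⟨h, hh⟩
    refine ⟨(a : H), Subgroup.mem_subgroupOf.mp a.2, (b : H), ⟨(b : H), b.2, rfl⟩, ?_⟩
    have := congrArg (Subtype.val) hab
    simpa using this.symm
  have hdpow : ∀ d ∈ D0.map H.subtype, d ^ m = 1 := by
    rintro d ⟨d', hd', rfl⟩
    have h1 : (⟨d', hd'⟩ : D0) ^ m = 1 := by
      rw [← hcardD0]; exact pow_card_eq_one'
    have h2 := congrArg (fun x : D0 => ((x : H) : A)) h1
    simpa using h2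
  have hvpow : ∀ v ∈ V, v ^ m = 1 → v = 1 := by
    intro v hv h1
    have h2 : v ^ (p ^ n) = 1 := by
      have : (⟨v, hv⟩ : V) ^ (p ^ n) = 1 := by
        rw [← hn]; exact pow_card_eq_one'
      simpa using congrArg (fun x : V => (x : A)) this
    have h3 : orderOf v ∣ m := orderOf_dvd_of_pow_eq_one h1
    have h4 : orderOf v ∣ p ^ n := orderOf_dvd_of_pow_eq_one h2
    have h5 : orderOf v = 1 := Nat.eq_one_of_dvd_coprimes (hm.pow_right n) h3 h4
    exact orderOf_eq_one_iff.mp h5
  have hDH : D0.map H.subtype ≤ H := by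
    rintro d ⟨d', _, rfl⟩
    exact d'.2
  have hiff : ∀ h ∈ H, h ^ m = 1 → h ∈ D0.map H.subtype := by
    intro h hh h1
    obtain ⟨v, hv, d, hd, rfl⟩ := hdec h hh
    have hcomm : Commute v d := hc v hv d (hDH hd)
    rw [hcomm.mul_pow, hdpow d hd, mul_one] at h1
    rw [hvpow v hv h1, one_mul]
    exact hd
  have hDn : (D0.map H.subtype).Normal := by
    constructor
    intro d hd g
    apply hiff _ (hHn.conj_mem d (hDH hd) g)
    rw [conj_pow, hdpow d hd]
    simp
  have hcardD : Nat.card (D0.map H.subtype) = m := by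
    rw [← hcardD0]
    exact (Nat.card_congr (D0.equivMapOfInjective H.subtype H.subtype_injective).toEquiv).symm
  refine ⟨D0.map H.subtype, hDn, hDH, ?_⟩
  have hmpos : 0 < m := by
    rw [← hcardD0]; exact Nat.card_pos
  -- the map S -> A/D
  let f : S →* A ⧸ (D0.map H.subtype) := (QuotientGroup.mk' _).comp S.subtype
  have hf : Function.Injective f := by
    rw [injective_iff_map_eq_one]
    intro s hs
    have h1 : (s : A) ∈ D0.map H.subtype := by
      have : QuotientGroup.mk' (D0.map H.subtype) (s : A) = 1 := hs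
      rwa [QuotientGroup.mk'_apply, QuotientGroup.eq_one_iff] at this
    have h2 : (s : A) ^ m = 1 := hdpow _ h1
    have h3 : s ^ m = 1 := by
      apply Subtype.ext
      simpa using h2
    have h4 : s ^ (p ^ k) = 1 := by
      rw [← hk]; exact pow_card_eq_one'
    have h5 : orderOf s = 1 := Nat.eq_one_of_dvd_coprimes (hm.pow_right k)
      (orderOf_dvd_of_pow_eq_one h3) (orderOf_dvd_of_pow_eq_one h4)
    exact orderOf_eq_one_iff.mp h5
  have hcards : Nat.card S = Nat.card (A ⧸ (D0.map H.subtype)) := by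
    have h1 : Nat.card S * m = Nat.card A := by
      rw [← hSi]; exact S.card_mul_index
    have h2 : Nat.card (A ⧸ (D0.map H.subtype)) * m = Nat.card A := by
      rw [← hcardD]
      exact (Subgroup.card_eq_card_quotient_mul_card_subgroup _).symm
    exact Nat.eq_of_mul_eq_mul_right hmpos (h1.trans h2.symm)
  have hbij : Function.Bijective f := by
    rw [Nat.bijective_iff_injective_and_card]
    exact ⟨hf, hcards⟩
  exact ⟨(MulEquiv.ofBijective f hbij).symm⟩

end H28R
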