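import Mathlib

namespace H28R

/-! Chunk W19 (S/M), pure group theory: ports of H19T/W8.lean (kk3) and of w9_centre in H19T/W9.lean, and functoriality of the regular wreath product in the top group. -/

/-- Kaloujnine-Krasner for a kernel of order p (the proof of H19T.kk3, H19T/W8.lean, with p in place of 3). -/
theorem kkP {p : ℕ} (hp : p.Prime) (H G : Type) [Group H] [Finite H] [Group G] [Finite G]
    (φ : H →* G) (hk : Nat.card φ.ker = p) :
    ∃ ψ : H →* Multiplicative (ZMod p) ≀ᵣ G, Function.Injective ψ := by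
  classical
  let c : G → G := fun x => Quotient.out (Quotient.mk (QuotientGroup.rightRel φ.range) x)
  have hc1 : ∀ x, x * (c x)⁻¹ ∈ φ.range := by
    intro x
    have h : (QuotientGroup.rightRel φ.range) (c x) x := Quotient.mk_out x
    rwa [QuotientGroup.rightRel_apply] at h
  have hc2 : ∀ (h : H) (x : G), c (φ h * x) = c x := by
    intro h x
    have e : Quotient.mk (QuotientGroup.rightRel φ.range) (φ h * x) =
        Quotient.mk (QuotientGroup.rightRel φ.range) x := by
      apply Quotient.sound
      change (QuotientGroup.rightRel φ.range) (φ h * x) x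
      rw [QuotientGroup.rightRel_apply]
      refine ⟨h⁻¹, ?_⟩
      rw [map_inv]; group
    change Quotient.out _ = Quotient.out _
    rw [e]
  choose s hs using hc1
  have hfm : ∀ (h : H) (x : G), (s x)⁻¹ * h * s ((φ h)⁻¹ * x) ∈ φ.ker := by
    intro h x
    rw [MonoidHom.mem_ker, map_mul, map_mul, map_inv, hs, hs]
    have e : c ((φ h)⁻¹ * x) = c x := by
      rw [← map_inv]; exact hc2 h⁻¹ x
    rw [e]; group
  let ψ0 : H →* φ.ker ≀ᵣ G :=
    { toFun := fun h => ⟨fun x => ⟨(s x)⁻¹ * h * s ((φ h)⁻¹ * x), hfm h x⟩, φ h⟩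
      map_one' := by
        ext x
        · simp
        · simp
      map_mul' := by
        intro h k
        ext x
        · simp only [RegularWreathProduct.mul_left, Pi.mul_apply, Subgroup.coe_mul, map_mul]
          have e : (φ h * φ k)⁻¹ * x = (φ k)⁻¹ * ((φ h)⁻¹ * x) := by group
          rw [e]
          group
        · simp }
  have hψ0 : Function.Injective ψ0 := by
    rw [injective_iff_map_eq_one]
    intro h hh
    have h1 : φ h = 1 := congrArg RegularWreathProduct.right hh
    have h2 : (s 1)⁻¹ * h * s ((φ h)⁻¹ * 1) = 1 :=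
      congrArg Subtype.val (congrFun (congrArg RegularWreathProduct.left hh) 1)
    rw [h1, inv_one, one_mul] at h2
    have h3 : h = s 1 * ((s 1)⁻¹ * h * s 1) * (s 1)⁻¹ := by group
    rw [h3, h2]; group
  have hC : Nat.card (Multiplicative (ZMod p)) = p := by
    rw [Nat.card_eq_of_bijective Multiplicative.toAdd Multiplicative.toAdd.bijective, Nat.card_zmod]
  have hpF : Fact (Nat.Prime p) := ⟨hp⟩
  let e : φ.ker ≃* Multiplicative (ZMod p) := mulEquivOfPrimeCardEq hk hC
  refine ⟨(RegularWreathProduct.congr e (MulEquiv.refl G)).toMonoidHom.comp ψ0, ?_⟩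
  exact (RegularWreathProduct.congr e (MulEquiv.refl G)).injective.comp hψ0

/-- A central subgroup of order p (H19T.w9_centre, H19T/W9.lean). -/
theorem centreP {p : ℕ} (hp : p.Prime) (H : Type) [Group H] [Finite H] (k : ℕ)
    (hH : Nat.card H = p ^ (k + 1)) :
    ∃ Z : Subgroup H, Z.Normal ∧ Nat.card Z = p ∧ Nat.card (H ⧸ Z) = p ^ k := by
  haveI : Fact (Nat.Prime p) := ⟨hp⟩
  have hpG : IsPGroup p H := IsPGroup.of_card hH
  haveI : Nontrivial H := by
    apply Finite.one_lt_card_iff_nontrivial.1
    rw [hH]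
    exact Nat.one_lt_pow (Nat.succ_ne_zero k) hp.one_lt
  haveI := hpG.center_nontrivial
  have hc : IsPGroup p (Subgroup.center H) := hpG.to_subgroup _
  obtain ⟨j, hj⟩ := IsPGroup.iff_card.1 hc
  have hj0 : j ≠ 0 := by
    rintro rfl
    have h1 : 1 < Nat.card (Subgroup.center H) := Finite.one_lt_card_iff_nontrivial.2 inferInstance
    rw [hj, pow_zero] at h1
    exact lt_irrefl _ h1
  obtain ⟨z, hz⟩ := exists_prime_orderOf_dvd_card' (G := Subgroup.center H) p
    (by rw [hj]; exact dvd_pow_self p hj0)
  have hz2 : orderOf (z : H) = p := by rw [Subgroup.orderOf_coe, hz]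
  have hle : Subgroup.zpowers (z : H) ≤ Subgroup.center H := by
    rw [Subgroup.zpowers_le]
    exact z.2
  have hcard : Nat.card (Subgroup.zpowers (z : H)) = p := by rw [Nat.card_zpowers, hz2]
  refine ⟨Subgroup.zpowers (z : H), ⟨fun n hn g => ?_⟩, hcard, ?_⟩
  · have h1 := Subgroup.mem_center_iff.1 (hle hn) g
    rw [h1, mul_inv_cancel_right]
    exact hn
  · have h1 := Subgroup.card_eq_card_quotient_mul_card_subgroup (Subgroup.zpowers (z : H))
    rw [hH, hcard, pow_succ] at h1
    exact (Nat.eq_of_mul_eq_mul_right hp.pos h1).symm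

/-- The regular wreath product respects isomorphisms of the top group. -/
theorem wr_congr {D G G' : Type} [Group D] [Group G] [Group G'] (e : G ≃* G') :
    Nonempty ((D ≀ᵣ G) ≃* (D ≀ᵣ G')) :=
  ⟨RegularWreathProduct.congr (MulEquiv.refl D) e⟩

end H28R
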