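import Mathlib
import Pool.Agent.Lib.H28R.Defs

open NumberField IsDedekindDomain

namespace H28R

open H55P H55R

/-! Chunk W20 (M), Kummer theory: the degree of N/C (N/C is Galois since N/F₀ is). The group of N/C embeds in FixZ F₀ ζ -> ZMod p: τ (r g) = ζ^(e τ g) r g (IsPrimitiveRoot.eq_pow_of_pow_eq_one, r g <> 0, τ fixes C; injective by WrP.gen); its image is a ZMod p-subspace; if it is not everything there is a nonzero linear form a vanishing on it
(Submodule.exists_le_ker_of_lt_top or exists_dual_map_eq_bot_of_lt_top; the linear form is x -> sum over g of a g * x g), the product of the (r g)^((a g).val) is fixed by the group of N/C, so it is an element z of C (IsGalois.mem_bot_iff_fixed) with z^p = product of (g γ)^((a g).val): contradiction to hn. So the degree is p^(card). Compare H19T/W5.lean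
(wr_card3). -/

section

variable {p : ℕ} {F₀ C N : Type} [Field F₀] [Field C] [Field N] [CharZero F₀]
    [Algebra F₀ C] [Algebra F₀ N] [Algebra C N] [IsScalarTower F₀ C N] {ζ γ : C}
    {r : FixZ F₀ ζ → N}

theorem w20_prim (N : Type) [Field N] [Algebra C N] (hζ : IsPrimitiveRoot ζ p) :
    IsPrimitiveRoot (algebraMap C N ζ) p :=
  hζ.map_of_injective (algebraMap C N).injective

/-- The power of ζ with exponent in ZMod p. -/
noncomputable def w20_zh (N : Type) [Field N] [Algebra C N] [NeZero p] (hζ : IsPrimitiveRoot ζ p) :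
    Multiplicative (ZMod p) →* N where
  toFun ε := (algebraMap C N ζ) ^ (Multiplicative.toAdd ε).val
  map_one' := by simp
  map_mul' a b := by
    rw [toAdd_mul, ZMod.val_add, ← pow_add]
    exact (pow_eq_pow_mod _ (w20_prim N hζ).pow_eq_one).symm

theorem w20_zh_apply (N : Type) [Field N] [Algebra C N] [NeZero p] (hζ : IsPrimitiveRoot ζ p)
    (a : ZMod p) : w20_zh N hζ (Multiplicative.ofAdd a) = (algebraMap C N ζ) ^ a.val := rfl

theorem w20_zh_inj (N : Type) [Field N] [Algebra C N] [NeZero p] (hζ : IsPrimitiveRoot ζ p)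
    {a b : Multiplicative (ZMod p)} (h : w20_zh N hζ a = w20_zh N hζ b) : a = b := by
  have h1 := (w20_prim N hζ).pow_inj (ZMod.val_lt _) (ZMod.val_lt _) h
  exact Multiplicative.toAdd.injective (ZMod.val_injective p h1)

theorem w20_fix [NeZero p] (hζ : IsPrimitiveRoot ζ p) (s : N ≃ₐ[C] N)
    (ε : Multiplicative (ZMod p)) : s (w20_zh N hζ ε) = w20_zh N hζ ε := by
  show s ((algebraMap C N ζ) ^ (Multiplicative.toAdd ε).val) = _
  rw [map_pow, AlgEquiv.commutes]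
  rfl

theorem w20_ne (hp : p ≠ 0) (hγ : γ ≠ 0) (h : WrP p F₀ C N ζ γ r) (g : FixZ F₀ ζ) : r g ≠ 0 := by
  intro h0
  have h1 := h.pow g
  rw [h0, zero_pow hp] at h1
  have h2 : (g : C ≃ₐ[F₀] C) γ = 0 := by
    apply (algebraMap C N).injective
    rw [map_zero, ← h1]
  apply hγ
  apply (g : C ≃ₐ[F₀] C).injective
  rw [h2, map_zero]

theorem w20_ex [NeZero p] (hζ : IsPrimitiveRoot ζ p) (hγ : γ ≠ 0) (h : WrP p F₀ C N ζ γ r)
    (s : N ≃ₐ[C] N) (g : FixZ F₀ ζ) :
    ∃ ε : Multiplicative (ZMod p), s (r g) = w20_zh N hζ ε * r g := by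
  have hne := w20_ne (NeZero.ne p) hγ h g
  have h1 : (s (r g) / r g) ^ p = 1 := by
    rw [div_pow, ← map_pow, h.pow, AlgEquiv.commutes]
    apply div_self
    rw [← h.pow]
    exact pow_ne_zero _ hne
  obtain ⟨i, hi, he⟩ := (w20_prim N hζ).eq_pow_of_pow_eq_one h1
  refine ⟨Multiplicative.ofAdd (i : ZMod p), ?_⟩
  rw [w20_zh_apply, ZMod.val_natCast_of_lt hi, he, div_mul_cancel₀ _ hne]

/-- The exponents. -/
noncomputable def w20_sg [NeZero p] (hζ : IsPrimitiveRoot ζ p) (hγ : γ ≠ 0)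
    (h : WrP p F₀ C N ζ γ r) (s : N ≃ₐ[C] N) (g : FixZ F₀ ζ) :
    ZMod p := Multiplicative.toAdd (Classical.choose (w20_ex hζ hγ h s g))

theorem w20_sg_spec [NeZero p] (hζ : IsPrimitiveRoot ζ p) (hγ : γ ≠ 0)
    (h : WrP p F₀ C N ζ γ r) (s : N ≃ₐ[C] N) (g : FixZ F₀ ζ) :
    s (r g) = w20_zh N hζ (Multiplicative.ofAdd (w20_sg hζ hγ h s g)) * r g :=
  Classical.choose_spec (w20_ex hζ hγ h s g)

theorem w20_sg_eq [NeZero p] (hζ : IsPrimitiveRoot ζ p) (hγ : γ ≠ 0)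
    (h : WrP p F₀ C N ζ γ r) (s : N ≃ₐ[C] N) (g : FixZ F₀ ζ) (a : ZMod p)
    (ha : s (r g) = w20_zh N hζ (Multiplicative.ofAdd a) * r g) : w20_sg hζ hγ h s g = a := by
  rw [w20_sg_spec hζ hγ h s g] at ha
  have h1 := w20_zh_inj N hζ (mul_right_cancel₀ (w20_ne (NeZero.ne p) hγ h g) ha)
  exact Multiplicative.ofAdd.injective h1

theorem w20_one [NeZero p] (hζ : IsPrimitiveRoot ζ p) (hγ : γ ≠ 0)
    (h : WrP p F₀ C N ζ γ r) (g : FixZ F₀ ζ) :
    w20_sg hζ hγ h (1 : N ≃ₐ[C] N) g = 0 := by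
  apply w20_sg_eq
  rw [ofAdd_zero, map_one, one_mul]
  rfl

theorem w20_mul [NeZero p] (hζ : IsPrimitiveRoot ζ p) (hγ : γ ≠ 0)
    (h : WrP p F₀ C N ζ γ r) (s t : N ≃ₐ[C] N) (g : FixZ F₀ ζ) :
    w20_sg hζ hγ h (s * t) g = w20_sg hζ hγ h s g + w20_sg hζ hγ h t g := by
  apply w20_sg_eq
  have e1 : (s * t) (r g) = s (t (r g)) := rfl
  rw [e1, w20_sg_spec hζ hγ h t g, map_mul, w20_fix, w20_sg_spec hζ hγ h s g, ofAdd_add, map_mul]
  ring

theorem w20_inv [NeZero p] (hζ : IsPrimitiveRoot ζ p) (hγ : γ ≠ 0)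
    (h : WrP p F₀ C N ζ γ r) (s : N ≃ₐ[C] N) (g : FixZ F₀ ζ) :
    w20_sg hζ hγ h s⁻¹ g = - w20_sg hζ hγ h s g := by
  have h1 := w20_mul hζ hγ h s⁻¹ s g
  rw [inv_mul_cancel, w20_one] at h1
  exact eq_neg_of_add_eq_zero_left h1.symm

/-- The exponent vectors. -/
noncomputable def w20_W [NeZero p] (hζ : IsPrimitiveRoot ζ p) (hγ : γ ≠ 0)
    (h : WrP p F₀ C N ζ γ r) : AddSubgroup (FixZ F₀ ζ → ZMod p) where
  carrier := Set.range fun s : N ≃ₐ[C] N => w20_sg hζ hγ h s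
  zero_mem' := ⟨1, funext fun g => w20_one hζ hγ h g⟩
  add_mem' := by
    rintro _ _ ⟨s, rfl⟩ ⟨t, rfl⟩
    exact ⟨s * t, funext fun g => w20_mul hζ hγ h s t g⟩
  neg_mem' := by
    rintro _ ⟨s, rfl⟩
    exact ⟨s⁻¹, funext fun g => w20_inv hζ hγ h s g⟩

theorem w20_top (hp : p.Prime) [NeZero p] [IsGalois F₀ C] [FiniteDimensional F₀ N]
    (hζ : IsPrimitiveRoot ζ p) (hγ : γ ≠ 0)
    (h : WrP p F₀ C N ζ γ r) [Fintype (FixZ F₀ ζ)]
    (hn : ∀ a : FixZ F₀ ζ → ZMod p, a ≠ 0 →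
      ¬ ∃ z : C, z ^ p = ∏ g : FixZ F₀ ζ, ((g : C ≃ₐ[F₀] C) γ) ^ (a g).val)
    (v : FixZ F₀ ζ → ZMod p) : v ∈ w20_W hζ hγ h := by
  classical
  haveI : Fact p.Prime := ⟨hp⟩
  have hfinK : FiniteDimensional C N := Module.Finite.of_restrictScalars_finite F₀ C N
  have hgal : IsGalois F₀ N := h.gal
  have hgal' : IsGalois C N := IsGalois.tower_top_of_isGalois F₀ C N
  set W : Submodule (ZMod p) (FixZ F₀ ζ → ZMod p) :=
    AddSubgroup.toZModSubmodule p (w20_W hζ hγ h) with hW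
  have hmem : ∀ x, x ∈ W ↔ x ∈ w20_W hζ hγ h := fun x =>
    AddSubgroup.mem_toZModSubmodule (n := p) (x := x) (S := w20_W hζ hγ h)
  rw [← hmem]
  by_contra hne'
  have hne : W ≠ ⊤ := by
    intro h1
    apply hne'
    rw [h1]
    trivial
  obtain ⟨f, hf0, hf⟩ := W.exists_le_ker_of_lt_top (lt_top_iff_ne_top.2 hne)
  set a : FixZ F₀ ζ → ZMod p := fun g => f (Pi.single g 1) with ha
  have hval : ∀ v : FixZ F₀ ζ → ZMod p, f v = ∑ g, a g * v g := by
    intro v
    have h1 : v = ∑ g, v g • (Pi.single g (1 : ZMod p) : FixZ F₀ ζ → ZMod p) := by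
      ext x
      simp [Finset.sum_apply, Pi.single_apply]
    conv_lhs => rw [h1]
    rw [map_sum]
    refine Finset.sum_congr rfl fun g _ => ?_
    rw [map_smul, smul_eq_mul, mul_comm]
  have hane : a ≠ 0 := by
    intro h0
    apply hf0
    ext v
    have h1 : f (Pi.single v 1) = a v := rfl
    have h2 : a v = 0 := congrFun h0 v
    simp [h1, h2]
  have hfix : ∀ s : N ≃ₐ[C] N, s (∏ g, r g ^ (a g).val) = ∏ g, r g ^ (a g).val := by
    intro s
    have h1 : f (w20_sg hζ hγ h s) = 0 := hf ((hmem _).2 ⟨s, rfl⟩)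
    rw [hval] at h1
    have h2 : ∏ g, w20_zh N hζ (Multiplicative.ofAdd (w20_sg hζ hγ h s g)) ^ (a g).val = 1 := by
      have h3 : ∏ g, w20_zh N hζ (Multiplicative.ofAdd (w20_sg hζ hγ h s g)) ^ (a g).val =
          w20_zh N hζ (∏ g, Multiplicative.ofAdd (w20_sg hζ hγ h s g) ^ (a g).val) := by
        rw [map_prod]
        refine Finset.prod_congr rfl fun g _ => ?_
        rw [map_pow]
      have h4 : ∏ g, Multiplicative.ofAdd (w20_sg hζ hγ h s g) ^ (a g).val =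
          Multiplicative.ofAdd (∑ g, a g * w20_sg hζ hγ h s g) := by
        rw [ofAdd_sum]
        refine Finset.prod_congr rfl fun g _ => ?_
        rw [← ofAdd_nsmul]
        congr 1
        rw [nsmul_eq_mul, ZMod.natCast_zmod_val]
      rw [h3, h4, h1, ofAdd_zero, map_one]
    rw [map_prod]
    have h5 : ∀ g, s (r g ^ (a g).val) =
        w20_zh N hζ (Multiplicative.ofAdd (w20_sg hζ hγ h s g)) ^ (a g).val *
          r g ^ (a g).val := by
      intro g
      rw [map_pow, w20_sg_spec hζ hγ h s g, mul_pow]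
    rw [Finset.prod_congr rfl fun g _ => h5 g, Finset.prod_mul_distrib, h2, one_mul]
  obtain ⟨x, hx⟩ := (IsGalois.mem_bot_iff_fixed (F := C) (E := N) _).2 hfix
  apply hn a hane
  refine ⟨x, ?_⟩
  apply (algebraMap C N).injective
  rw [map_prod, map_pow]
  have hx' : algebraMap C N x = ∏ g, r g ^ (a g).val := hx
  rw [hx', ← Finset.prod_pow]
  refine Finset.prod_congr rfl fun g _ => ?_
  rw [map_pow, ← h.pow, ← pow_mul, ← pow_mul, mul_comm]

end

theorem wr_deg {p : ℕ} (hp : p.Prime) {F₀ C N : Type} [Field F₀] [Field C] [Field N] [CharZero F₀]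
    [Algebra F₀ C] [Algebra F₀ N] [Algebra C N] [IsScalarTower F₀ C N] [IsGalois F₀ C]
    [FiniteDimensional F₀ N] {ζ γ : C} (hζ : IsPrimitiveRoot ζ p) (hγ : γ ≠ 0)
    {r : FixZ F₀ ζ → N} (h : WrP p F₀ C N ζ γ r) [Fintype (FixZ F₀ ζ)]
    (hn : ∀ a : FixZ F₀ ζ → ZMod p, a ≠ 0 →
      ¬ ∃ z : C, z ^ p = ∏ g : FixZ F₀ ζ, ((g : C ≃ₐ[F₀] C) γ) ^ (a g).val) :
    Module.finrank C N = p ^ Nat.card (FixZ F₀ ζ) := by
  haveI : NeZero p := ⟨hp.ne_zero⟩
  have hfinK : FiniteDimensional C N := Module.Finite.of_restrictScalars_finite F₀ C N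
  have hgal : IsGalois F₀ N := h.gal
  have hgal' : IsGalois C N := IsGalois.tower_top_of_isGalois F₀ C N
  have hbij : Function.Bijective fun s : N ≃ₐ[C] N => w20_sg hζ hγ h s := by
    constructor
    · intro s t hst
      have h1 : ∀ g, s (r g) = t (r g) := by
        intro g
        have h2 : w20_sg hζ hγ h s g = w20_sg hζ hγ h t g := congrFun hst g
        rw [w20_sg_spec hζ hγ h s g, w20_sg_spec hζ hγ h t g, h2]
      have h3 : (s : N →ₐ[C] N) = t := by
        refine AlgHom.ext_of_adjoin_eq_top h.gen ?_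
        rintro _ ⟨g, rfl⟩
        exact h1 g
      exact AlgEquiv.coe_toAlgHom_injective h3
    · intro v
      exact w20_top hp hζ hγ h hn v
  rw [← IsGalois.card_aut_eq_finrank C N, Nat.card_congr (Equiv.ofBijective _ hbij), Nat.card_fun,
    Nat.card_zmod]

end H28R
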