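import Mathlib
import Pool.Agent.Lib.H28R.Defs

open NumberField IsDedekindDomain

namespace H28R

open H55P H55R

/-! Chunk W9 (M), pure Galois theory: the wreath product. See H19T/W4.lean (wr_embed3) and H19T/W5.lean (w5_W, w5_top, wr_card3, wr_iso3) for the case p = 3, F₀ = F, all of the group of C/F₀ instead of FixZ. Embedding: s in FixZ F₀ (algebraMap C N ζ) restricts to C as an element ρ s of FixZ F₀ ζ (restrictNormalHom C;
AlgEquiv.restrictNormal_commutes). s (r ((ρ s)⁻¹ g))^p = (r g)^p, so s (r ((ρ s)⁻¹ g)) = ζ^(e) r g with e in ZMod p (IsPrimitiveRoot.eq_pow_of_pow_eq_one, r g <> 0); s -> (e, ρ s) is an injective homomorphism to the regular wreath product (s fixes ζ). Degree: the group of N/C embeds in FixZ F₀ ζ -> ZMod p; its image is a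
ZMod p-subspace; if it is not everything there is a nonzero linear form a vanishing on it, the product of the (r g)^(a g).val is fixed by the group of N/C, so it is an element z of C with z^p = product of (g γ)^(a g).val: contradiction to hn. So the degree is p^(card). Isomorphism: the group of N/F₀ has order [N:C] [C:F₀];
FixZ F₀ (ζ in N) is the preimage of FixZ F₀ ζ under the surjection to the group of C/F₀, so its order is [N:C] * card (FixZ F₀ ζ) = the order of the wreath product (RegularWreathProduct.card). -/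

/-- The root of unity attached to an element of the cyclic group. -/
def w9_z {p : ℕ} {N : Type} [Field N] (ζ : N) (ε : CP p) : N := ζ ^ (Multiplicative.toAdd ε).val

theorem w9_one {p : ℕ} {N : Type} [Field N] (ζ : N) : w9_z (p := p) ζ 1 = 1 := by
  unfold w9_z
  rw [toAdd_one, ZMod.val_zero, pow_zero]

theorem w9_mul {p : ℕ} [NeZero p] {N : Type} [Field N] {ζ : N} (hζ : ζ ^ p = 1) (a b : CP p) :
    w9_z ζ (a * b) = w9_z ζ a * w9_z ζ b := by
  have h : ∀ n : ℕ, ζ ^ (n % p) = ζ ^ n := by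
    intro n
    conv_rhs => rw [← Nat.div_add_mod n p, pow_add, pow_mul, hζ, one_pow, one_mul]
  unfold w9_z
  rw [← pow_add, toAdd_mul, ZMod.val_add, h]

theorem w9_inj {p : ℕ} [NeZero p] {N : Type} [Field N] {ζ : N} (hζ : IsPrimitiveRoot ζ p) {a b : CP p}
    (h : w9_z ζ a = w9_z ζ b) : a = b := by
  have h1 := hζ.pow_inj (ZMod.val_lt (Multiplicative.toAdd a)) (ZMod.val_lt (Multiplicative.toAdd b)) h
  exact Multiplicative.toAdd.injective (ZMod.val_injective p h1)

theorem w9_of {p : ℕ} [NeZero p] {N : Type} [Field N] {ζ : N} (hζ : IsPrimitiveRoot ζ p) {x y : N}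
    (hy : y ≠ 0) (h : x ^ p = y ^ p) : ∃ ε : CP p, x = w9_z ζ ε * y := by
  have h2 : (x / y) ^ p = 1 := by
    rw [div_pow, h]
    exact div_self (pow_ne_zero _ hy)
  obtain ⟨i, hi, hi2⟩ := hζ.eq_pow_of_pow_eq_one h2
  refine ⟨Multiplicative.ofAdd (i : ZMod p), ?_⟩
  unfold w9_z
  rw [toAdd_ofAdd, ZMod.val_natCast_of_lt hi, hi2, div_mul_cancel₀ _ hy]

theorem w9_map {p : ℕ} {F₀ N : Type} [Field F₀] [Field N] [Algebra F₀ N] {ζ : N} (s : FixZ F₀ ζ)
    (ε : CP p) : (s : N ≃ₐ[F₀] N) (w9_z ζ ε) = w9_z ζ ε := by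
  unfold w9_z
  rw [map_pow, mem_FixZ.1 s.2]

theorem wr_embed {p : ℕ} (hp : p.Prime) {F₀ C N : Type} [Field F₀] [Field C] [Field N] [CharZero F₀]
    [Algebra F₀ C] [Algebra F₀ N] [Algebra C N] [IsScalarTower F₀ C N] [IsGalois F₀ C]
    [FiniteDimensional F₀ N] {ζ γ : C} (hζ : IsPrimitiveRoot ζ p) (hγ : γ ≠ 0)
    {r : FixZ F₀ ζ → N} (h : WrP p F₀ C N ζ γ r) :
    ∃ φ : FixZ F₀ (algebraMap C N ζ) →* CP p ≀ᵣ (FixZ F₀ ζ), Function.Injective φ := by
  classical
  have hp0 : NeZero p := ⟨hp.ne_zero⟩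
  have hζN : IsPrimitiveRoot (algebraMap C N ζ) p := hζ.map_of_injective (algebraMap C N).injective
  have hres : ∀ (s : N ≃ₐ[F₀] N) (x : C), algebraMap C N (AlgEquiv.restrictNormalHom C s x) =
      s (algebraMap C N x) := fun s x => AlgEquiv.restrictNormal_commutes s C x
  let ρ : FixZ F₀ (algebraMap C N ζ) →* FixZ F₀ ζ :=
    MonoidHom.codRestrict ((AlgEquiv.restrictNormalHom (F := F₀) (K₁ := N) C).comp
      (FixZ F₀ (algebraMap C N ζ)).subtype) (FixZ F₀ ζ) (by
        intro s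
        rw [mem_FixZ]
        apply (algebraMap C N).injective
        show algebraMap C N (AlgEquiv.restrictNormalHom C (s : N ≃ₐ[F₀] N) ζ) = _
        rw [hres]
        exact mem_FixZ.1 s.2)
  have hρ : ∀ (s : FixZ F₀ (algebraMap C N ζ)) (x : C),
      algebraMap C N ((ρ s : C ≃ₐ[F₀] C) x) = (s : N ≃ₐ[F₀] N) (algebraMap C N x) :=
    fun s x => hres s x
  have hr0 : ∀ g, r g ≠ 0 := by
    intro g h0
    have h1 := h.pow g
    rw [h0, zero_pow hp.ne_zero] at h1
    have h2 : (g : C ≃ₐ[F₀] C) γ = 0 := (map_eq_zero_iff _ (algebraMap C N).injective).1 h1.symm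
    exact hγ ((map_eq_zero_iff _ (g : C ≃ₐ[F₀] C).injective).1 h2)
  have hex : ∀ (s : FixZ F₀ (algebraMap C N ζ)) (x : FixZ F₀ ζ), ∃ e : CP p,
      (s : N ≃ₐ[F₀] N) (r ((ρ s)⁻¹ * x)) = w9_z (algebraMap C N ζ) e * r x := by
    intro s x
    have h1 : ((s : N ≃ₐ[F₀] N) (r ((ρ s)⁻¹ * x))) ^ p = (r x) ^ p := by
      rw [← map_pow, h.pow, ← hρ, h.pow]
      congr 1
      rw [← AlgEquiv.mul_apply]
      have e1 : (ρ s : C ≃ₐ[F₀] C) * (((ρ s)⁻¹ * x : FixZ F₀ ζ) : C ≃ₐ[F₀] C) = x := by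
        rw [← Subgroup.coe_mul, mul_inv_cancel_left]
      rw [e1]
    exact w9_of hζN (hr0 x) h1
  choose eps heps using hex
  let ψ : FixZ F₀ (algebraMap C N ζ) →* CP p ≀ᵣ (FixZ F₀ ζ) :=
    { toFun := fun s => ⟨eps s, ρ s⟩
      map_one' := by
        have h1 : eps 1 = 1 := by
          funext x
          apply w9_inj hζN
          have h2 := heps 1 x
          rw [map_one, inv_one, one_mul] at h2
          have h3 : ((1 : FixZ F₀ (algebraMap C N ζ)) : N ≃ₐ[F₀] N) (r x) = r x := rfl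
          rw [h3] at h2
          have h4 : w9_z (algebraMap C N ζ) (eps 1 x) = 1 := by
            have h5 : 1 * r x = w9_z (algebraMap C N ζ) (eps 1 x) * r x := by rw [one_mul]; exact h2
            exact (mul_right_cancel₀ (hr0 x) h5).symm
          rw [h4, Pi.one_apply, w9_one]
        refine RegularWreathProduct.ext ?_ ?_
        · exact h1
        · exact map_one ρ
      map_mul' := by
        intro s t
        refine RegularWreathProduct.ext ?_ ?_
        · funext x
          change eps (s * t) x = eps s x * eps t ((ρ s)⁻¹ * x)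
          apply w9_inj hζN
          have h1 := heps (s * t) x
          have h2 := heps s x
          have h3 := heps t ((ρ s)⁻¹ * x)
          have h4 : (ρ (s * t))⁻¹ * x = (ρ t)⁻¹ * ((ρ s)⁻¹ * x) := by
            rw [map_mul]; group
          rw [h4] at h1
          have h5 : ((s * t : FixZ F₀ (algebraMap C N ζ)) : N ≃ₐ[F₀] N)
              (r ((ρ t)⁻¹ * ((ρ s)⁻¹ * x))) =
              (s : N ≃ₐ[F₀] N) ((t : N ≃ₐ[F₀] N) (r ((ρ t)⁻¹ * ((ρ s)⁻¹ * x)))) := rfl
          rw [h5, h3, map_mul, w9_map, h2] at h1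
          have h6 : w9_z (algebraMap C N ζ) (eps s x) *
              w9_z (algebraMap C N ζ) (eps t ((ρ s)⁻¹ * x)) * r x =
              w9_z (algebraMap C N ζ) (eps (s * t) x) * r x := by rw [← h1]; ring
          rw [w9_mul hζN.pow_eq_one]
          exact (mul_right_cancel₀ (hr0 x) h6).symm
        · exact map_mul ρ s t }
  refine ⟨ψ, ?_⟩
  rw [injective_iff_map_eq_one]
  intro s hs
  have h1 : ρ s = 1 := congrArg RegularWreathProduct.right hs
  have h2 : ∀ x, eps s x = 1 := fun x => congrFun (congrArg RegularWreathProduct.left hs) x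
  have h3 : ∀ x, (s : N ≃ₐ[F₀] N) (r x) = r x := by
    intro x
    have h4 := heps s x
    rwa [h1, inv_one, one_mul, h2, w9_one, one_mul] at h4
  have h5 : ∀ k : C, (s : N ≃ₐ[F₀] N) (algebraMap C N k) = algebraMap C N k := by
    intro k
    rw [← hρ, h1]; rfl
  let s' : N →ₐ[C] N := { ((s : N ≃ₐ[F₀] N) : N →+* N) with commutes' := h5 }
  have h6 : s' = AlgHom.id C N := by
    apply AlgHom.ext_of_adjoin_eq_top h.gen
    rintro _ ⟨x, rfl⟩
    exact h3 x
  apply Subtype.ext
  ext x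
  exact congrArg (fun f : N →ₐ[C] N => f x) h6

theorem wr_iso {p : ℕ} (hp : p.Prime) {F₀ C N : Type} [Field F₀] [Field C] [Field N] [CharZero F₀]
    [Algebra F₀ C] [Algebra F₀ N] [Algebra C N] [IsScalarTower F₀ C N] [IsGalois F₀ C]
    [FiniteDimensional F₀ N] {ζ γ : C} (hζ : IsPrimitiveRoot ζ p) (hγ : γ ≠ 0)
    {r : FixZ F₀ ζ → N} (h : WrP p F₀ C N ζ γ r)
    (hd : Module.finrank C N = p ^ Nat.card (FixZ F₀ ζ)) :
    Nat.card (FixZ F₀ (algebraMap C N ζ)) = p ^ Nat.card (FixZ F₀ ζ) * Nat.card (FixZ F₀ ζ) ∧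
    Nonempty (FixZ F₀ (algebraMap C N ζ) ≃* CP p ≀ᵣ (FixZ F₀ ζ)) := by
  classical
  have hp0 : NeZero p := ⟨hp.ne_zero⟩
  have hgal : IsGalois F₀ N := h.gal
  have hfC : FiniteDimensional F₀ C := FiniteDimensional.left F₀ C N
  have hfCN : FiniteDimensional C N := FiniteDimensional.right F₀ C N
  have hsur := AlgEquiv.restrictNormalHom_surjective (F := F₀) (K₁ := C) N
  have hres : ∀ (s : N ≃ₐ[F₀] N) (x : C), algebraMap C N (AlgEquiv.restrictNormalHom C s x) =
      s (algebraMap C N x) := fun s x => AlgEquiv.restrictNormal_commutes s C x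
  have hcomap : (FixZ F₀ ζ).comap (AlgEquiv.restrictNormalHom (F := F₀) (K₁ := N) C) =
      FixZ F₀ (algebraMap C N ζ) := by
    ext s
    rw [Subgroup.mem_comap, mem_FixZ, mem_FixZ, ← hres]
    exact ((algebraMap C N).injective.eq_iff).symm
  have hidx : (FixZ F₀ (algebraMap C N ζ)).index = (FixZ F₀ ζ).index := by
    rw [← hcomap]
    exact Subgroup.index_comap_of_surjective _ hsur
  have hfg : Finite (C ≃ₐ[F₀] C) := inferInstance
  have hi0 : (FixZ F₀ ζ).index ≠ 0 := Subgroup.index_ne_zero_of_finite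
  have hc1 := Subgroup.card_mul_index (FixZ F₀ (algebraMap C N ζ))
  have hc2 := Subgroup.card_mul_index (FixZ F₀ ζ)
  rw [hidx, IsGalois.card_aut_eq_finrank F₀ N, ← Module.finrank_mul_finrank F₀ C N, hd,
    ← IsGalois.card_aut_eq_finrank F₀ C, ← hc2] at hc1
  have hcard : Nat.card (FixZ F₀ (algebraMap C N ζ)) =
      p ^ Nat.card (FixZ F₀ ζ) * Nat.card (FixZ F₀ ζ) := by
    apply Nat.eq_of_mul_eq_mul_right (Nat.pos_of_ne_zero hi0)
    rw [hc1]
    ring
  refine ⟨hcard, ?_⟩
  obtain ⟨φ, hφ⟩ := wr_embed hp hζ hγ h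
  have hfin : Finite (CP p ≀ᵣ (FixZ F₀ ζ)) := inferInstance
  have hle : Nat.card (CP p ≀ᵣ (FixZ F₀ ζ)) ≤ Nat.card (FixZ F₀ (algebraMap C N ζ)) := by
    rw [RegularWreathProduct.card, hcard]
    have h2 : Nat.card (CP p) = p := by
      rw [Nat.card_congr (Multiplicative.toAdd), Nat.card_zmod]
    rw [h2]
  exact ⟨MulEquiv.ofBijective φ (hφ.bijective_of_nat_card_le hle)⟩

end H28R
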