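import Mathlib
import Pool.Agent.Lib.H28R.Defs
import Pool.Agent.Lib.H13E.X1
import Pool.Agent.Lib.H13N.G2

open NumberField IsDedekindDomain

namespace H28R

open H55B (F O om Prim gen)
open H55P H55R

/-! Chunk A2 (M): fields generated over F by m-th roots of unity. mu_gal: H13E.gen_galois (Gen: the first case). mu_unr: H13N.g2_card: the ramification index is the order of the inertia group {g : g y - y in W for all y in 𝓞 N}. Let g be in the inertia group and s in S, s^m = 1: s is integral (an element of 𝓞 N), g s = z s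
with z^m = 1, g s - s = (z - 1) s in W, s is a unit, so z - 1 in W. If z <> 1, then z is a root of 1 + x + ... + x^(m-1) (Finset.geom_sum / geom_sum_eq: (z - 1) * sum = z^m - 1 = 0), and modulo W this sum is m (z = 1 modulo W), so m in W: contradiction. So g s = s for s in S, g = 1 (Algebra.adjoin F S = ⊤, AlgHom.ext_of_adjoin_eq_top). -/

theorem mu_gal {N : Type} [Field N] [NumberField N] [Algebra F N] {m : ℕ} (hm : m ≠ 0) {S : Set N}
    (hS : ∀ s ∈ S, s ^ m = 1) (hgen : Algebra.adjoin F S = ⊤) :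
    IsGalois F N ∧ ∀ g h : N ≃ₐ[F] N, g * h = h * g :=
  H13E.gen_galois m (Nat.pos_of_ne_zero hm) S (fun s hs => Or.inl (hS s hs)) hgen

theorem A2_one {R : Type} [CommRing R] [IsDomain R] (W : Ideal R) {m : ℕ}
    (hW : (m : R) ∉ W) {z : R} (hz : z ^ m = 1) (h1 : z - 1 ∈ W) : z = 1 := by
  by_contra hne
  apply hW
  have h2 : (∑ i ∈ Finset.range m, z ^ i) * (z - 1) = 0 := by
    rw [geom_sum_mul, hz, sub_self]
  have h3 : ∑ i ∈ Finset.range m, z ^ i = 0 := (mul_eq_zero.1 h2).resolve_right (sub_ne_zero.2 hne)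
  have h4 : (m : R) = -∑ i ∈ Finset.range m, (z ^ i - 1) := by
    rw [Finset.sum_sub_distrib, h3]
    simp
  rw [h4]
  refine W.neg_mem (W.sum_mem fun i _ => ?_)
  obtain ⟨c, hc⟩ := sub_one_dvd_pow_sub_one z i
  rw [hc]
  exact W.mul_mem_right _ h1

theorem mu_unr {N : Type} [Field N] [NumberField N] [Algebra F N] {m : ℕ} (hm : m ≠ 0) {S : Set N}
    (hS : ∀ s ∈ S, s ^ m = 1) (hgen : Algebra.adjoin F S = ⊤) (W : HeightOneSpectrum (𝓞 N))
    (hW : (m : 𝓞 N) ∉ W.asIdeal) : W.asIdeal.ramificationIdx O = 1 := by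
  obtain ⟨hG, -⟩ := mu_gal hm hS hgen
  rw [← H13N.g2_card N hG W, Subgroup.card_eq_one, Subgroup.eq_bot_iff_forall]
  intro g hg
  have hg' : ∀ y : 𝓞 N, g • y - y ∈ W.asIdeal := hg
  have hfix : ∀ s ∈ S, g s = s := by
    intro s hs
    have hint : IsIntegral ℤ s := IsIntegral.of_pow (Nat.pos_of_ne_zero hm) (by
      rw [hS s hs]
      exact isIntegral_one)
    let y : 𝓞 N := ⟨s, hint⟩
    have hy : y ^ m = 1 := by
      apply RingOfIntegers.coe_injective
      rw [map_pow, map_one]
      exact hS s hs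
    have hgy : (g • y) ^ m = 1 := by
      rw [← smul_pow', hy]
      exact smul_one g
    obtain ⟨k, rfl⟩ : ∃ k, m = k + 1 := ⟨m - 1, by omega⟩
    have hyk : y * y ^ k = 1 := by rw [← pow_succ']; exact hy
    have h1 : (g • y) * y ^ k = 1 := by
      refine A2_one W.asIdeal hW ?_ ?_
      · rw [mul_pow, hgy, one_mul, ← pow_mul, mul_comm, pow_mul, hy, one_pow]
      · have h2 : (g • y) * y ^ k - 1 = (g • y - y) * y ^ k := by
          rw [sub_mul, hyk]
        rw [h2]
        exact W.asIdeal.mul_mem_right _ (hg' y)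
    have h3 : g • y = y := by
      calc g • y = (g • y) * (y * y ^ k) := by rw [hyk, mul_one]
        _ = ((g • y) * y ^ k) * y := by ring
        _ = y := by rw [h1, one_mul]
    have h4 := congrArg (algebraMap (𝓞 N) N) h3
    exact h4
  have h5 : (g : N →ₐ[F] N) = AlgHom.id F N := AlgHom.ext_of_adjoin_eq_top hgen fun s hs => hfix s hs
  ext x
  exact DFunLike.congr_fun h5 x

end H28R
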