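import Mathlib
import Pool.Agent.Lib.H28R.A3
import Pool.Agent.Lib.H28R.A5
import Pool.Agent.Lib.H55C.Y15
import Pool.Agent.Lib.H55C.Y18

open NumberField IsDedekindDomain

namespace H28R

open H55B (F O om Prim gen)
open H55P H55R

/-! Chunk A6 (S/M): every finite abelian p-group is the Galois group of such an extension, with ramified primes of large norm. Port of H35T/Y3.lean (exists_abelian): m from exists_quotP (N = B), N = CyclotomicField m F, H55C.cyclo_gal, H55C.exists_sub; ExplicitP p K with S = {zeta} (IsCyclotomicExtension: adjoin_primitive_root or the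
adjoin_roots condition: take for S the set of all m-th roots of unity), the degree is card A = p^k; exp_ext. If w is ramified, then m is in w (exp_ram), and mem_factor gives a prime l | m in w, B < l <= absNorm w. -/

theorem exists_abelianP {p : ℕ} (hp : p.Prime) (h5 : 5 ≤ p) (A : Type) [CommGroup A] [Finite A]
    (k : ℕ) (hA : Nat.card A = p ^ k) (B : ℕ) :
    ∃ (K : Type) (_ : Field K) (_ : NumberField K) (_ : Algebra F K), PB p K B ∧
      Nonempty ((K ≃ₐ[F] K) ≃* A) := by
  obtain ⟨m, h1, h3, hl, Φ, hΦ⟩ := exists_quotP hp h5 A k hA B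
  have hm : 0 < m := by omega
  have : NeZero m := ⟨hm.ne'⟩
  have hN : NumberField (CyclotomicField m F) := IsCyclotomicExtension.numberField {m} F _
  have hgal : IsGalois F (CyclotomicField m F) := IsCyclotomicExtension.isGalois {m} F _
  obtain ⟨E⟩ := H55C.cyclo_gal m hm h3 (CyclotomicField m F)
  obtain ⟨K, i1, i2, i3, i4, i5, hK, ⟨eA⟩⟩ := H55C.exists_sub (CyclotomicField m F) A
    (Φ.comp E.toMonoidHom) (hΦ.comp E.surjective)
  obtain ⟨S, hS⟩ : ∃ S : Set (CyclotomicField m F), S = {b | ∃ n ∈ ({m} : Set ℕ), n ≠ 0 ∧ b ^ n = 1} := ⟨_, rfl⟩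
  have hSm : ∀ s ∈ S, s ^ m = 1 := by
    intro s hs
    rw [hS] at hs
    obtain ⟨n, hn, -, hsn⟩ := hs
    rw [Set.mem_singleton_iff] at hn
    rwa [hn] at hsn
  have hgen : Algebra.adjoin F S = ⊤ := by
    rw [hS, eq_top_iff]
    intro x _
    exact IsCyclotomicExtension.adjoin_roots x
  have hcard : Module.finrank F K = p ^ k := by
    have hfd : FiniteDimensional F K := by
      have : IsScalarTower ℚ F K := IsScalarTower.of_algebraMap_eq' (Subsingleton.elim _ _)
      exact Module.Finite.of_restrictScalars_finite ℚ F K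
    rw [← hA, ← Nat.card_congr eA.toEquiv]
    exact (IsGalois.card_aut_eq_finrank F K).symm
  have hE : ExplicitP p K :=
    ⟨CyclotomicField m F, inferInstance, hN, inferInstance, i4, i5, m, S, hm.ne', fun l h h' => (hl l h h').2.2,
      hSm, hgen⟩
  refine ⟨K, i1, i2, i3, ⟨exp_ext hE ⟨k, hcard⟩, ?_⟩, ⟨eA⟩⟩
  intro w hw
  have hmw : (m : 𝓞 K) ∈ w.asIdeal := by
    by_contra hmw
    exact hw (exp_ram hm.ne' hSm hgen w hmw)
  obtain ⟨l, h6, h7, -, h8⟩ := mem_factor w hm.ne' hmw
  exact lt_of_lt_of_le (hl l h6 h7).1 h8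

end H28R
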