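import Mathlib
import Pool.Agent.Lib.H28R.W1
import Pool.Agent.Lib.H55R.BF2

open NumberField IsDedekindDomain
open scoped Pointwise

namespace H28R

open H55B (F O om Prim gen)
open H55P H55R

/-! Helper file for the chunks W7 and W21: the stabiliser of a nice prime is trivial. -/

theorem wst_one {C : Type} [Field C] [NumberField C] [Algebra F C] [IsGalois F C] (w : Pl C)
    (hd : w.asIdeal.inertiaDeg O = 1) (hu : w.asIdeal.ramificationIdx O = 1)
    (σ : Gal(C/F)) (h : smulP σ w = w) : σ = 1 := by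
  have hv : w.under (𝓞 F) = w.under (𝓞 F) := rfl
  have h1 := card_stab w (w.under (𝓞 F)) hv
  have hp := (w.under (𝓞 F)).isPrime
  have hw := w.isPrime
  have hl : w.asIdeal.LiesOver (w.under (𝓞 F)).asIdeal := (BF2_mem (w.under (𝓞 F)) w hv).2
  have e1 : es F C (w.under (𝓞 F)) = 1 := by
    unfold es
    rw [Ideal.ramificationIdxIn_eq_ramificationIdx (w.under (𝓞 F)).asIdeal w.asIdeal Gal(C/F)]
    exact hu
  have e2 : fs F C (w.under (𝓞 F)) = 1 := by
    unfold fs
    rw [Ideal.inertiaDegIn_eq_inertiaDeg (w.under (𝓞 F)).asIdeal w.asIdeal Gal(C/F)]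
    exact hd
  rw [e1, e2, mul_one] at h1
  have h2 := (Nat.card_eq_one_iff_unique.1 h1).1
  have h3 := h2.elim (⟨σ, h⟩ : {σ : Gal(C/F) // smulP σ w = w}) ⟨1, smulP_one w⟩
  exact congrArg Subtype.val h3

theorem wst_res {K C : Type} [Field K] [NumberField K] [Field C] [NumberField C]
    [Algebra F K] [Algebra F C] [Algebra K C] [IsScalarTower F K C] (δ : C ≃ₐ[K] C) (w : Pl C) :
    smulP (δ.restrictScalars F : Gal(C/F)) w = smulP (δ : Gal(C/K)) w := by
  apply HeightOneSpectrum.ext
  show (δ.restrictScalars F : Gal(C/F)) • w.asIdeal = (δ : Gal(C/K)) • w.asIdeal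
  rw [Ideal.pointwise_smul_def, Ideal.pointwise_smul_def]
  congr 1

/-- Two conjugates of w agree only if the automorphisms agree. -/
theorem wst_eq {C : Type} [Field C] [NumberField C] [Algebra F C] [IsGalois F C] (w : Pl C)
    (hd : w.asIdeal.inertiaDeg O = 1) (hu : w.asIdeal.ramificationIdx O = 1)
    (σ τ : Gal(C/F)) (h : smulP σ w = smulP τ w) : σ = τ := by
  have h1 : smulP (τ⁻¹ * σ) w = w := by
    rw [smulP_mul, h, ← smulP_mul, inv_mul_cancel, smulP_one]
  have h2 := wst_one w hd hu _ h1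
  rw [inv_mul_eq_one] at h2
  exact h2.symm

theorem wst_prod {C : Type} [Field C] [NumberField C] (P : Pl C) {ι : Type} (s : Finset ι)
    (f : ι → Cˣ) (n : ι → ℕ) : ord P (∏ i ∈ s, f i ^ n i) = ∑ i ∈ s, (n i : ℤ) * ord P (f i) := by
  classical
  induction s using Finset.induction_on with
  | empty => simp [ord_one]
  | insert i s hi ih =>
    rw [Finset.prod_insert hi, Finset.sum_insert hi, ord_mul, ih]
    congr 1
    have h := ord_zpow P (f i) (n i : ℤ)
    rw [zpow_natCast] at h
    exact h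

end H28R
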