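import Mathlib
import Pool.Agent.Lib.H28R.W1
import Pool.Agent.Lib.H55R.BF2
import Pool.Agent.Lib.H28R.WSt

open NumberField IsDedekindDomain

namespace H28R

open H55B (F O om Prim gen)
open H55P H55R

/-! Chunk W7 (M): the eigenvector. For δ in Δ = group of C/K there is a unique a(δ) in {1,..,p-1} with ζ = (δ ζ)^a(δ) (δ ζ = ζ^n, n prime to p; a(δ) the inverse of n modulo p). γ = product over δ of (δ α)^(a δ) (units). pp: a = product of (δ a0)^(a δ), a0 in 𝓞 C with p^2 | a0 - 1; δ a0 = 1 mod p^2 (δ acts on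
𝓞 C and fixes p). eig: δ' γ = product of (δ' δ α)^(a δ) = product over δ of (δ α)^(a(δ'⁻¹ δ)), and a(δ'⁻¹ δ) = n' a(δ) mod p if δ' ζ = ζ^n' (check: ((δ'⁻¹ δ) ζ)^(n' a δ) = δ'⁻¹ ((δ ζ)^(n' a δ)) = δ'⁻¹ (ζ^n') = ζ); so δ' γ = γ^n' times a p-th power (exponents differ by multiples of p: zpow). For every natural
number n with δ' ζ = ζ^n. Orders: ord P (δ α) = ord (δ⁻¹ P) α (H55R.ord_smul). If P is not one of the δ w, δ w': all the orders are divisible by p. At w: the stabiliser of w in the group of C/F is trivial (card_stab: inertia degree and ramification index 1: fs = es = 1), so δ⁻¹ w = w only for δ = 1, and δ⁻¹ w <> w' because w' lies over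
another prime of F (under_smulP): ord w γ = a(1) ord w α = ord w α = 1 mod p. -/

theorem w7_cong {R : Type} [CommRing R] (q : R) {ι : Type} (s : Finset ι) (f : ι → R) (n : ι → ℕ)
    (h : ∀ i ∈ s, q ∣ f i - 1) : q ∣ ∏ i ∈ s, f i ^ n i - 1 := by
  have hm : ∀ x y : R, q ∣ x - 1 → q ∣ y - 1 → q ∣ x * y - 1 := by
    intro x y hx hy
    have e : x * y - 1 = x * (y - 1) + (x - 1) := by ring
    rw [e]
    exact dvd_add (dvd_mul_of_dvd_right hy x) hx
  refine Finset.prod_induction _ (fun x => q ∣ x - 1) hm (by simp) ?_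
  intro i hi
  induction n i with
  | zero => simp
  | succ m ih =>
    rw [pow_succ]
    exact hm _ _ ih (h i hi)

theorem w7_mod {C : Type} [Field C] {ζ : C} {p : ℕ} (h : IsPrimitiveRoot ζ p) (hp : 0 < p)
    {i j : ℕ} (e : ζ ^ i = ζ ^ j) : i ≡ j [MOD p] := by
  have e1 : ∀ m : ℕ, ζ ^ m = ζ ^ (m % p) := by
    intro m
    conv_lhs => rw [← Nat.div_add_mod m p, pow_add, pow_mul, h.pow_eq_one, one_pow, one_mul]
  rw [e1 i, e1 j] at e
  exact h.pow_inj (Nat.mod_lt _ hp) (Nat.mod_lt _ hp) e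

theorem exists_gam {p : ℕ} (hp : p.Prime) {K C : Type} [Field K] [NumberField K]
    [Field C] [NumberField C] [Algebra F K] [Algebra F C] [Algebra K C] [IsScalarTower F K C]
    {ζ : C} (h : Cyc p K C ζ) {B : ℕ} {α : Cˣ} {w w' : Pl C} (hα : Alp p C B α w w') :
    ∃ γ : Cˣ, Gam p K C ζ B γ w w' := by
  classical
  have hGal := h.gal
  have hpf : Fact p.Prime := ⟨hp⟩
  have hroot : ∀ δ : C ≃ₐ[K] C, ∃ i : ℕ, δ⁻¹ ζ = ζ ^ i := by
    intro δ
    have h1 : (δ⁻¹ ζ) ^ p = 1 := by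
      rw [← map_pow, h.prim.pow_eq_one, map_one]
    obtain ⟨i, -, hi⟩ := h.prim.eq_pow_of_pow_eq_one h1
    exact ⟨i, hi.symm⟩
  choose a ha using hroot
  set G : (C ≃ₐ[K] C) → Cˣ := fun δ => Units.map ((δ : C ≃ₐ[K] C) : C →* C) α with hG
  have hGv : ∀ δ, ((G δ : Cˣ) : C) = δ (α : C) := fun δ => rfl
  set γ : Cˣ := ∏ δ : C ≃ₐ[K] C, G δ ^ a δ with hγ
  -- orders
  have e3 : ∀ (P : Pl C) (δ : C ≃ₐ[K] C), ord P (G δ) = ord (smulP (δ⁻¹ : Gal(C/K)) P) α := by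
    intro P δ
    rw [← ord_smul (δ : Gal(C/K)) (smulP (δ⁻¹ : Gal(C/K)) P) α, ← smulP_mul, mul_inv_cancel,
      smulP_one]
  have e4 : ∀ P : Pl C, ord P γ =
      ∑ δ : C ≃ₐ[K] C, (a δ : ℤ) * ord (smulP (δ⁻¹ : Gal(C/K)) P) α := by
    intro P
    rw [hγ, wst_prod]
    exact Finset.sum_congr rfl fun δ _ => by rw [e3]
  have e5 : ∀ (σ : Gal(C/K)) (P Q : Pl C), smulP (σ⁻¹) P = Q → P = smulP σ Q := by
    intro σ P Q hPQ
    rw [← hPQ, ← smulP_mul, mul_inv_cancel, smulP_one]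
  refine ⟨γ, ?_, ?_, ?_, ?_, hα.ne, hα.nice, hα.nice'⟩
  · obtain ⟨a0, ha0, ha1⟩ := hα.pp
    refine ⟨∏ δ : C ≃ₐ[K] C, ((δ : Gal(C/K)) • a0 : 𝓞 C) ^ a δ, ?_, ?_⟩
    · rw [hγ, Units.coe_prod]
      have e6 : ((∏ δ : C ≃ₐ[K] C, ((δ : Gal(C/K)) • a0 : 𝓞 C) ^ a δ : 𝓞 C) : C) =
          ∏ δ : C ≃ₐ[K] C, (((δ : Gal(C/K)) • a0 : 𝓞 C) : C) ^ a δ := by
        show algebraMap (𝓞 C) C (∏ δ : C ≃ₐ[K] C, ((δ : Gal(C/K)) • a0 : 𝓞 C) ^ a δ) = _
        rw [map_prod]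
        exact Finset.prod_congr rfl fun δ _ => map_pow _ _ _
      rw [e6]
      refine Finset.prod_congr rfl fun δ _ => ?_
      rw [Units.val_pow_eq_pow_val, hGv, BF1_coe, ha0]
    · apply w7_cong
      intro δ _
      obtain ⟨b, hb⟩ := ha1
      refine ⟨(δ : Gal(C/K)) • b, ?_⟩
      have e7 : (δ : Gal(C/K)) • a0 - 1 = (δ : Gal(C/K)) • (a0 - 1) := by
        rw [smul_sub, smul_one]
      rw [e7, hb, smul_mul', smul_pow']
      congr 2
      apply RingOfIntegers.ext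
      rw [BF1_coe]
      exact map_natCast _ _
  · intro hdiv
    rw [e4, ← Finset.add_sum_erase _ _ (Finset.mem_univ (1 : C ≃ₐ[K] C))] at hdiv
    have h1 : (p : ℤ) ∣ ∑ δ ∈ Finset.univ.erase (1 : C ≃ₐ[K] C),
        (a δ : ℤ) * ord (smulP (δ⁻¹ : Gal(C/K)) w) α := by
      refine Finset.dvd_sum fun δ hδ => dvd_mul_of_dvd_right (hα.oth _ ?_ ?_) _
      · intro h2
        rw [← wst_res (δ⁻¹) w] at h2
        have h3 := wst_one w hα.nice.deg hα.nice.unr _ h2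
        have h4 : δ⁻¹ = 1 := by
          ext x
          exact congrArg (fun s : C ≃ₐ[F] C => s x) h3
        exact Finset.ne_of_mem_erase hδ (inv_eq_one.1 h4)
      · intro h2
        rw [← wst_res (δ⁻¹) w] at h2
        have h3 := congrArg (fun W : Pl C => W.under (𝓞 F)) h2
        simp only [under_smulP] at h3
        exact hα.ne (congrArg HeightOneSpectrum.asIdeal h3)
    have h2 := (dvd_add_left h1).1 hdiv
    rw [inv_one, smulP_one] at h2
    have h3 : ζ ^ a 1 = ζ ^ 1 := by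
      rw [← ha 1, inv_one, pow_one]
      rfl
    have h4 : ((a 1 : ℕ) : ℤ) ≡ ((1 : ℕ) : ℤ) [ZMOD p] := by
      rw [Int.natCast_modEq_iff]
      exact w7_mod h.prim hp.pos h3
    rcases Int.Prime.dvd_mul' hp h2 with h5 | h5
    · have h6 := (Int.modEq_iff_dvd.1 h4.symm)
      have h7 : (p : ℤ) ∣ 1 := by
        have h8 := dvd_sub h5 h6
        simpa using h8
      exact hp.one_lt.ne' (by exact_mod_cast Int.eq_one_of_dvd_one (by positivity) h7)
    · have h7 : (p : ℤ) ∣ 1 := by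
        have h8 := dvd_sub h5 hα.at1
        simpa using h8
      exact hp.one_lt.ne' (by exact_mod_cast Int.eq_one_of_dvd_one (by positivity) h7)
  · intro P hP
    rw [e4]
    refine Finset.dvd_sum fun δ _ => dvd_mul_of_dvd_right (hα.oth _ ?_ ?_) _
    · intro h2
      exact (hP δ).1 (e5 δ P w h2)
    · intro h2
      exact (hP δ).2 (e5 δ P w' h2)
  · intro δ' n hn
    have h1 : ∀ δ : C ≃ₐ[K] C, ∃ k : ℤ, (a (δ'⁻¹ * δ) : ℤ) = n * a δ + p * k := by
      intro δ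
      have h2 : ζ ^ a (δ'⁻¹ * δ) = ζ ^ (n * a δ) := by
        rw [← ha, mul_inv_rev, inv_inv]
        show δ⁻¹ (δ' ζ) = _
        rw [hn, map_pow, ha, ← pow_mul, mul_comm]
      have h3 : (((n * a δ : ℕ)) : ℤ) ≡ ((a (δ'⁻¹ * δ) : ℕ) : ℤ) [ZMOD p] := by
        rw [Int.natCast_modEq_iff]
        exact (w7_mod h.prim hp.pos h2).symm
      obtain ⟨k, hk⟩ := Int.modEq_iff_dvd.1 h3
      refine ⟨k, ?_⟩
      push_cast at hk
      linarith
    choose k hk using h1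
    refine ⟨∏ δ : C ≃ₐ[K] C, G δ ^ k δ, ?_⟩
    have h2 : Units.map ((δ' : C ≃ₐ[K] C) : C →* C) γ =
        ∏ δ : C ≃ₐ[K] C, G δ ^ (a (δ'⁻¹ * δ)) := by
      rw [hγ, map_prod]
      refine Fintype.prod_equiv (Equiv.mulLeft δ') _ _ fun δ => ?_
      rw [map_pow]
      have e8 : Equiv.mulLeft δ' δ = δ' * δ := rfl
      rw [e8, inv_mul_cancel_left]
      congr 1
    have h3 : Units.map ((δ' : C ≃ₐ[K] C) : C →* C) γ =
        γ ^ n * (∏ δ : C ≃ₐ[K] C, G δ ^ k δ) ^ p := by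
      rw [h2, hγ, ← Finset.prod_pow, ← Finset.prod_pow, ← Finset.prod_mul_distrib]
      refine Finset.prod_congr rfl fun δ _ => ?_
      rw [← zpow_natCast (G δ) (a (δ'⁻¹ * δ)), hk, zpow_add, zpow_mul', zpow_mul']
      simp only [zpow_natCast]
    have h4 := congrArg (fun u : Cˣ => (u : C)) h3
    simp only [Units.val_mul, Units.val_pow_eq_pow_val] at h4
    exact h4

end H28R
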