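import Mathlib
import Pool.Agent.Lib.H28R.W7
import Pool.Agent.Lib.H28R.W11
import Pool.Agent.Lib.H28R.W12
import Pool.Agent.Lib.H55R.BF1
import Pool.Agent.Lib.H55R.BF2
import Pool.Agent.Lib.H55R.HC6
import Pool.Agent.Lib.H55R.D5

open NumberField IsDedekindDomain

namespace H28R

open H55B (F O om Prim gen)
open H55P H55R

/-! Chunk W13 (M): ramification of K'/F. norm_le: absNorm of w' under is at most absNorm of w' (the residue field of w'.under embeds in that of w'). ram_PB: let W' be a prime of K' with ramificationIdx O <> 1, W a prime of N above W' (under_exists), P = W.under (𝓞 C), Q = W.under (𝓞 K), v = W.under O (= 𝓞 F). First case: v is not w.under, nor w'.under. For g in FixZ, ord P (g γ) = ord (g⁻¹ P) γ (H55R.ord_smul),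
g⁻¹ P lies over v (under_smulP), so it is not conjugate to w, w' and Gam.oth: p divides it. Gam.pp for g γ: apply g to a. unr_N with R = range r: the ramification index of W over 𝓞 C is 1. So the index of W over 𝓞 F is the product of the index of P over 𝓞 K (which divides [C:K], so p - 1: C/K is Galois (IsGalois.tower_top_of_isGalois), H55R.HC6_dvd for es and
Ideal.ramificationIdxIn_eq_ramificationIdx) and of the index of Q over 𝓞 F (Ideal.ramificationIdx_tower). If the last one is 1, ram_one with m = p - 1 gives ramificationIdx W' = 1: contradiction. So Q is ramified over F; by ExtP p K, v is good, and B < absNorm Q <= absNorm W' (norm_le, Q = W'.under). Second case: v = w.under or w'.under: v is good and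
B < absNorm w = absNorm v (Nice.deg: inertia degree 1: absNorm w = absNorm v ^ inertiaDeg, H55R.D5_norm or Ideal.absNorm_eq_pow_inertiaDeg), absNorm v <= absNorm W'. ExtP p K' (ramified primes lie over good primes) and the bound follow. -/

theorem norm_le {K L : Type} [Field K] [NumberField K] [Field L] [NumberField L] [Algebra K L]
    (W : Pl L) (w : Pl K) (h : W.under (𝓞 K) = w) :
    Ideal.absNorm w.asIdeal ≤ Ideal.absNorm W.asIdeal := by
  have h1 : w.asIdeal = W.asIdeal.comap (algebraMap (𝓞 K) (𝓞 L)) := by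
    rw [← h]
    rfl
  have hfin : Finite (𝓞 L ⧸ W.asIdeal) := Ideal.finiteQuotientOfFreeOfNeBot _ W.ne_bot
  have h2 := Ideal.quotientMap_injective' (f := algebraMap (𝓞 K) (𝓞 L)) (I := W.asIdeal)
    (H := h1.le) h1.ge
  have h3 := Nat.card_le_card_of_injective (α := 𝓞 K ⧸ w.asIdeal) (β := 𝓞 L ⧸ W.asIdeal) _ h2
  exact h3

/-- Ramification indices in towers. -/
theorem W13_tower {F₀ K L : Type} [Field F₀] [NumberField F₀] [Field K] [NumberField K] [Field L]
    [NumberField L] [Algebra F₀ K] [Algebra K L] [Algebra F₀ L] [IsScalarTower F₀ K L] (W : Pl L)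
    (w : Pl K) (h : W.under (𝓞 K) = w) :
    W.asIdeal.ramificationIdx (𝓞 F₀) =
      w.asIdeal.ramificationIdx (𝓞 F₀) * W.asIdeal.ramificationIdx (𝓞 K) := by
  have hl : W.asIdeal.LiesOver w.asIdeal := ⟨by rw [← h]; rfl⟩
  exact Ideal.ramificationIdx_tower (R := 𝓞 F₀) w.asIdeal W.asIdeal

theorem W13_dvd {K L : Type} [Field K] [NumberField K] [Field L] [NumberField L] [Algebra K L]
    [IsGalois K L] (W : Pl L) : W.asIdeal.ramificationIdx (𝓞 K) ∣ Module.finrank K L := by
  have h1 := (HC6_dvd (L := L) (W.under (𝓞 K))).1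
  have hp := (W.under (𝓞 K)).isPrime
  have hW := W.isPrime
  have hl : W.asIdeal.LiesOver (W.under (𝓞 K)).asIdeal := ⟨rfl⟩
  have h2 := Ideal.ramificationIdxIn_eq_ramificationIdx (W.under (𝓞 K)).asIdeal W.asIdeal Gal(L/K)
  rw [← h2]
  exact h1

theorem W13_norm {K L : Type} [Field K] [NumberField K] [Field L] [NumberField L] [Algebra K L]
    [IsGalois K L] (W : Pl L) (h : W.asIdeal.inertiaDeg (𝓞 K) = 1) :
    Ideal.absNorm W.asIdeal = Ideal.absNorm (W.under (𝓞 K)).asIdeal := by
  have h1 := D5_norm (L := L) (W.under (𝓞 K)) W rfl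
  have hp := (W.under (𝓞 K)).isPrime
  have hW := W.isPrime
  have hl : W.asIdeal.LiesOver (W.under (𝓞 K)).asIdeal := ⟨rfl⟩
  have h2 := Ideal.inertiaDegIn_eq_inertiaDeg (W.under (𝓞 K)).asIdeal W.asIdeal Gal(L/K)
  rw [h] at h2
  have h3 : fs K L (W.under (𝓞 K)) = 1 := h2
  rw [h3, pow_one] at h1
  exact h1

/-- A prime over a place which is not below w, w': the generators of N/C satisfy the hypothesis of unr_N. -/
theorem W13_one {p : ℕ} (hp : p.Prime) (h5 : 5 ≤ p) {K C N : Type} [Field K] [NumberField K]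
    [Field C] [NumberField C] [Field N] [NumberField N] [Algebra F K] [Algebra F C] [Algebra F N]
    [Algebra K C] [Algebra C N] [IsScalarTower F K C] [IsScalarTower F C N]
    {ζ : C} (hC : Cyc p K C ζ) {B : ℕ} {γ : Cˣ} {w w' : Pl C}
    (hγ : Gam p K C ζ B γ w w') {r : FixZ F ζ → N} (hr : WrP p F C N ζ γ r) (W : Pl N) (P : Pl C)
    (hP : W.under (𝓞 C) = P) (h1 : P.asIdeal.under O ≠ w.asIdeal.under O)
    (h2 : P.asIdeal.under O ≠ w'.asIdeal.under O) : W.asIdeal.ramificationIdx (𝓞 C) = 1 := by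
  have hG := hr.gal
  have hGC : IsGalois C N := IsGalois.tower_top_of_isGalois F C N
  refine unr_N hp (by omega) hC.prim (Set.range r) hr.gen W P hP ?_
  rintro _ ⟨g, rfl⟩
  refine ⟨Units.map (((g : C ≃ₐ[F] C) : C ≃ₐ[F] C) : C →* C) γ, hr.pow g, ?_, ?_⟩
  · obtain ⟨a, ha, hd⟩ := hγ.pp
    refine ⟨(g : C ≃ₐ[F] C) • a, ?_, ?_⟩
    · show (g : C ≃ₐ[F] C) (a : C) = (g : C ≃ₐ[F] C) (γ : C)
      rw [ha]
    · obtain ⟨b, hb⟩ := hd
      refine ⟨(g : C ≃ₐ[F] C) • b, ?_⟩
      have h3 : (g : C ≃ₐ[F] C) • (a - 1) = (g : C ≃ₐ[F] C) • ((p : 𝓞 C) ^ 2 * b) := by rw [hb]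
      rw [smul_sub, smul_one, smul_mul', smul_pow'] at h3
      rw [h3]
      congr 2
      apply RingOfIntegers.ext
      have h4 : (((p : 𝓞 C)) : C) = (p : C) := map_natCast (algebraMap (𝓞 C) C) p
      show (g : C ≃ₐ[F] C) ((p : 𝓞 C) : C) = ((p : 𝓞 C) : C)
      rw [h4, map_natCast]
  · let g' : C ≃ₐ[F] C := (g : C ≃ₐ[F] C)
    have h3 := ord_smul g' (smulP g'⁻¹ P) γ
    rw [← smulP_mul, mul_inv_cancel, smulP_one] at h3
    have h4 : ord P (Units.map ((g' : C ≃ₐ[F] C) : C →* C) γ) = ord (smulP g'⁻¹ P) γ := h3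
    show (p : ℤ) ∣ ord P (Units.map ((g' : C ≃ₐ[F] C) : C →* C) γ)
    rw [h4]
    apply hγ.oth
    have hu : (smulP g'⁻¹ P).asIdeal.under O = P.asIdeal.under O :=
      congrArg HeightOneSpectrum.asIdeal (under_smulP g'⁻¹ P)
    have hd : ∀ (δ : C ≃ₐ[K] C) (x : Pl C), (smulP δ x).asIdeal.under O = x.asIdeal.under O := by
      intro δ x
      have h5 := congrArg HeightOneSpectrum.asIdeal (under_smulP δ x)
      have h6 : (smulP δ x).asIdeal.under (𝓞 K) = x.asIdeal.under (𝓞 K) := h5
      have h7 : ∀ I : Ideal (𝓞 C), I.under O = (I.under (𝓞 K)).under O := fun I =>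
        (Ideal.under_under I).symm
      rw [h7, h6, ← h7]
    intro δ
    constructor
    · intro h
      apply h1
      rw [← hu, h, hd]
    · intro h
      apply h2
      rw [← hu, h, hd]

theorem ram_PB {p : ℕ} (hp : p.Prime) (h5 : 5 ≤ p) {K C N K' : Type} [Field K] [NumberField K]
    [Field C] [NumberField C] [Field N] [NumberField N] [Field K'] [NumberField K'] [Algebra F K]
    [Algebra F C] [Algebra F N] [Algebra F K'] [Algebra K C] [Algebra K N] [Algebra K K']
    [Algebra C N] [Algebra K' N] [IsScalarTower F K C] [IsScalarTower F C N] [IsScalarTower K C N]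
    [IsScalarTower F K N] [IsScalarTower F K K'] [IsScalarTower F K' N] [IsScalarTower K K' N]
    {ζ : C} (hC : Cyc p K C ζ) {B : ℕ} (hK : PB p K B) {γ : Cˣ} {w w' : Pl C}
    (hγ : Gam p K C ζ B γ w w') {r : FixZ F ζ → N} (hr : WrP p F C N ζ γ r) (hG : IsGalois F K')
    (hk : ∃ n : ℕ, Module.finrank F K' = p ^ n) : PB p K' B := by
  have hGN := hr.gal
  have hGC := hC.gal
  have key : ∀ W' : Pl K', W'.asIdeal.ramificationIdx O ≠ 1 →
      (∀ v : HeightOneSpectrum O, v.asIdeal = W'.asIdeal.under O → GoodP p v) ∧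
      B < Ideal.absNorm W'.asIdeal := by
    intro W' hW'
    obtain ⟨W, hW⟩ := under_exists (L := N) W'
    have hv1 : W.asIdeal.under O = W'.asIdeal.under O := by
      rw [← hW]
      exact (Ideal.under_under W.asIdeal).symm
    have hv2 : (W.under (𝓞 C)).asIdeal.under O = W'.asIdeal.under O := by
      rw [← hv1]
      exact Ideal.under_under W.asIdeal
    -- the primes below a nice prime
    have hnice : ∀ x : Pl C, Nice p C B x → (W.under (𝓞 C)).asIdeal.under O = x.asIdeal.under O →
        (∀ v : HeightOneSpectrum O, v.asIdeal = W'.asIdeal.under O → GoodP p v) ∧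
        B < Ideal.absNorm W'.asIdeal := by
      intro x hx hxx
      refine ⟨fun v hv => hx.good v (by rw [hv, ← hv2, hxx]), ?_⟩
      have h1 : Ideal.absNorm x.asIdeal = Ideal.absNorm (x.under (𝓞 F)).asIdeal :=
        W13_norm x hx.deg
      have h2 : (x.under (𝓞 F)) = W'.under (𝓞 F) := by
        apply HeightOneSpectrum.ext
        show x.asIdeal.under O = W'.asIdeal.under O
        rw [← hxx, hv2]
      have h3 := norm_le W' (W'.under (𝓞 F)) rfl
      rw [← h2, ← h1] at h3
      exact lt_of_lt_of_le hx.big h3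
    by_cases h1 : (W.under (𝓞 C)).asIdeal.under O = w.asIdeal.under O
    · exact hnice w hγ.nice h1
    by_cases h2 : (W.under (𝓞 C)).asIdeal.under O = w'.asIdeal.under O
    · exact hnice w' hγ.nice' h2
    have he := W13_one hp h5 hC hγ hr W _ rfl h1 h2
    have hQ : (W.under (𝓞 C)).under (𝓞 K) = W'.under (𝓞 K) := by
      apply HeightOneSpectrum.ext
      show (W.asIdeal.under (𝓞 C)).under (𝓞 K) = W'.asIdeal.under (𝓞 K)
      rw [Ideal.under_under, ← hW]
      exact (Ideal.under_under W.asIdeal).symm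
    have ht1 := W13_tower (F₀ := F) W (W.under (𝓞 C)) rfl
    have ht2 := W13_tower (F₀ := F) (W.under (𝓞 C)) (W'.under (𝓞 K)) hQ
    have hGKC : IsGalois K C := IsGalois.tower_top_of_isGalois F K C
    have hd1 := (W13_dvd (K := K) (W.under (𝓞 C))).trans hC.deg
    have hram : (W'.under (𝓞 K)).asIdeal.ramificationIdx O ≠ 1 := by
      intro h0
      apply hW'
      have hcop : (p - 1).Coprime p := by
        have := (Nat.coprime_self_add_right (m := p - 1) (n := 1)).2 (Nat.coprime_one_right _)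
        rwa [Nat.sub_add_cancel hp.one_le] at this
      refine ram_one (F₀ := F) hp hk hcop W' W hW ?_
      rw [ht1, he, mul_one, ht2]
      have h0' : (W'.under (𝓞 K)).asIdeal.ramificationIdx (𝓞 F) = 1 := h0
      rw [h0', one_mul]
      exact hd1
    refine ⟨fun v hv => ?_, ?_⟩
    · by_contra hg
      apply hram
      refine hK.1.2.2 (W'.under (𝓞 K)) v ?_ hg
      rw [hv]
      exact (Ideal.under_under W'.asIdeal).symm
    · exact lt_of_lt_of_le (hK.2 _ hram) (norm_le W' _ rfl)
  refine ⟨⟨hG, hk, fun W' v hv hg => ?_⟩, fun W' hW' => (key W' hW').2⟩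
  by_contra h
  exact hg ((key W' h).1 v hv)

end H28R
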