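import Mathlib
import Pool.Agent.Lib.H28R.W1
import Pool.Agent.Lib.H28R.W9
import Pool.Agent.Lib.H28R.W10
import Pool.Agent.Lib.H28R.W19
import Pool.Agent.Lib.H28R.W20

open NumberField IsDedekindDomain

namespace H28R

open H55B (F O om Prim gen)
open H55P H55R

/-! Chunk W14 (M): the subgroup D. A = N ≃ₐ[F] N (finite), V = the elements fixing C (IntermediateField.fixingSubgroup or a Subgroup defined as the kernel of restrictNormalHom C), H = the elements fixing K (kernel of restrictNormalHom K), S = FixZ F ζN, ζN = algebraMap C N ζ. V <= H, both normal. card V = [N:C] = p^card(FixZ F ζ) (wr_deg).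
card H = [N:K] = [N:C] [C:K], so V.relIndex H = [C:K], a divisor of p - 1, prime to p. V central in H: hc (an element of V is a C-automorphism, an element of H a K-automorphism). card S = p^card * card (FixZ F ζ) (wr_iso) = p^card * [K:F] (Cyc.card), a power of p (Cyc.pow). card A = [N:C] [C:F] = p^card [C:K] [K:F], so S.index = [C:K].
hall: D normal in A, D <= H, A/D isomorphic to S. wr_iso: S is isomorphic to CP p ≀ᵣ FixZ F ζ, and Cyc.iso with wr_congr: to CP p ≀ᵣ (K ≃ₐ[F] K). -/

/-- The kernel of the restriction: elements acting trivially on the subfield. -/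
theorem W14_mem {F₀ L N : Type} [Field F₀] [Field L] [Field N] [Algebra F₀ L] [Algebra F₀ N]
    [Algebra L N] [IsScalarTower F₀ L N] [Normal F₀ L] (σ : N ≃ₐ[F₀] N) :
    σ ∈ (AlgEquiv.restrictNormalHom (F := F₀) (K₁ := N) L).ker ↔
      ∀ x : L, σ (algebraMap L N x) = algebraMap L N x := by
  rw [MonoidHom.mem_ker]
  constructor
  · intro h x
    have h1 := AlgEquiv.restrictNormal_commutes σ L x
    have h2 : σ.restrictNormal L = 1 := h
    rw [h2] at h1
    exact h1.symm
  · intro h
    apply AlgEquiv.ext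
    intro x
    apply (algebraMap L N).injective
    have h1 := AlgEquiv.restrictNormal_commutes σ L x
    rw [h x] at h1
    exact h1

/-- The index of the kernel of the restriction. -/
theorem W14_index {F₀ L N : Type} [Field F₀] [Field L] [Field N] [Algebra F₀ L] [Algebra F₀ N]
    [Algebra L N] [IsScalarTower F₀ L N] [IsGalois F₀ L] [IsGalois F₀ N]
    [FiniteDimensional F₀ L] :
    (AlgEquiv.restrictNormalHom (F := F₀) (K₁ := N) L).ker.index = Module.finrank F₀ L := by
  have h2 : Nat.card (L ≃ₐ[F₀] L) = Module.finrank F₀ L := IsGalois.card_aut_eq_finrank F₀ L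
  have hsurj : Function.Surjective (AlgEquiv.restrictNormalHom (F := F₀) (K₁ := N) L) :=
    AlgEquiv.restrictNormalHom_surjective (F := F₀) (K₁ := L) N
  rw [Subgroup.index_ker, MonoidHom.range_eq_top.mpr hsurj, Subgroup.card_top, h2]

/-- The order of the kernel of the restriction. -/
theorem W14_card {F₀ L N : Type} [Field F₀] [Field L] [Field N] [Algebra F₀ L] [Algebra F₀ N]
    [Algebra L N] [IsScalarTower F₀ L N] [IsGalois F₀ L] [IsGalois F₀ N]
    [FiniteDimensional F₀ N] [FiniteDimensional F₀ L] :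
    Nat.card (AlgEquiv.restrictNormalHom (F := F₀) (K₁ := N) L).ker = Module.finrank L N := by
  have h1 : Nat.card (N ≃ₐ[F₀] N) = Module.finrank F₀ N := IsGalois.card_aut_eq_finrank F₀ N
  have h3 := W14_index (F₀ := F₀) (L := L) (N := N)
  have h4 := (AlgEquiv.restrictNormalHom (F := F₀) (K₁ := N) L).ker.card_mul_index
  rw [h3, h1, ← Module.finrank_mul_finrank F₀ L N, mul_comm] at h4
  exact Nat.eq_of_mul_eq_mul_left Module.finrank_pos h4

theorem group_D {p : ℕ} (hp : p.Prime) (h5 : 5 ≤ p) {K C N : Type} [Field K] [NumberField K]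
    [Field C] [NumberField C] [Field N] [NumberField N] [Algebra F K] [Algebra F C] [Algebra F N]
    [Algebra K C] [Algebra K N] [Algebra C N] [IsScalarTower F K C] [IsScalarTower F C N]
    [IsScalarTower K C N] [IsScalarTower F K N] {ζ : C} (hC : Cyc p K C ζ) {γ : C} (hγ : γ ≠ 0)
    {r : FixZ F ζ → N} (hr : WrP p F C N ζ γ r) [Fintype (FixZ F ζ)]
    (hn : ∀ a : FixZ F ζ → ZMod p, a ≠ 0 →
      ¬ ∃ z : C, z ^ p = ∏ g : FixZ F ζ, ((g : C ≃ₐ[F] C) γ) ^ (a g).val)
    (hc : ∀ (τ : N ≃ₐ[C] N) (u : N ≃ₐ[K] N) (x : N), τ (u x) = u (τ x)) :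
    ∃ (D : Subgroup (N ≃ₐ[F] N)) (_ : D.Normal),
      (∀ d ∈ D, ∀ x : K, d (algebraMap K N x) = algebraMap K N x) ∧
      Nonempty (((N ≃ₐ[F] N) ⧸ D) ≃* CP p ≀ᵣ (K ≃ₐ[F] K)) := by
  have htN : IsScalarTower ℚ F N := IsScalarTower.of_algebraMap_eq' (Subsingleton.elim _ _)
  have htC : IsScalarTower ℚ F C := IsScalarTower.of_algebraMap_eq' (Subsingleton.elim _ _)
  have htK : IsScalarTower ℚ F K := IsScalarTower.of_algebraMap_eq' (Subsingleton.elim _ _)
  have hfinN : FiniteDimensional F N := Module.Finite.of_restrictScalars_finite ℚ F N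
  have hfinC : FiniteDimensional F C := Module.Finite.of_restrictScalars_finite ℚ F C
  have hfinK : FiniteDimensional F K := Module.Finite.of_restrictScalars_finite ℚ F K
  have hgK : IsGalois F K := hC.galK
  have hgC : IsGalois F C := hC.gal
  have hgN : IsGalois F N := hr.gal
  have hdeg : Module.finrank C N = p ^ Nat.card (FixZ F ζ) := wr_deg hp hC.prim hγ hr hn
  obtain ⟨hcS, ⟨eS⟩⟩ := wr_iso hp hC.prim hγ hr hdeg
  have hcZ : Nat.card (FixZ F ζ) = Module.finrank F K := hC.card
  obtain ⟨eK, -⟩ := hC.iso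
  obtain ⟨eW⟩ := wr_congr (D := CP p) eK
  set V : Subgroup (N ≃ₐ[F] N) := (AlgEquiv.restrictNormalHom (F := F) (K₁ := N) C).ker with hVdef
  set H : Subgroup (N ≃ₐ[F] N) := (AlgEquiv.restrictNormalHom (F := F) (K₁ := N) K).ker with hHdef
  have hVn : V.Normal := MonoidHom.normal_ker _
  have hHn : H.Normal := MonoidHom.normal_ker _
  have hVH : V ≤ H := by
    intro σ hσ
    rw [hVdef, W14_mem] at hσ
    rw [hHdef, W14_mem]
    intro x
    rw [IsScalarTower.algebraMap_apply K C N x]
    exact hσ _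
  have hcV : Nat.card V = Module.finrank C N := W14_card
  have hrel : V.relIndex H = Module.finrank K C := by
    have h1 : V.relIndex H * H.index = V.index := Subgroup.relIndex_mul_index hVH
    have hiV : V.index = Module.finrank F C := W14_index
    have hiH : H.index = Module.finrank F K := W14_index
    rw [hiV, hiH, ← Module.finrank_mul_finrank F K C, mul_comm] at h1
    exact Nat.eq_of_mul_eq_mul_left Module.finrank_pos h1
  have hcopr : (V.relIndex H).Coprime p := by
    rw [hrel]
    apply Nat.Coprime.symm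
    rw [Nat.Prime.coprime_iff_not_dvd hp]
    intro hd
    have h1 : p ∣ p - 1 := hd.trans hC.deg
    have h2 := Nat.le_of_dvd (by omega) h1
    omega
  have hcomm : ∀ v ∈ V, ∀ u ∈ H, v * u = u * v := by
    intro v hv u hu
    rw [hVdef, W14_mem] at hv
    rw [hHdef, W14_mem] at hu
    let τ : N ≃ₐ[C] N := AlgEquiv.ofRingEquiv (f := (v : N ≃+* N)) hv
    let υ : N ≃ₐ[K] N := AlgEquiv.ofRingEquiv (f := (u : N ≃+* N)) hu
    apply AlgEquiv.ext
    intro x
    exact hc τ υ x
  have hcS' : Nat.card (FixZ F (algebraMap C N ζ)) =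
      Module.finrank C N * Module.finrank F K := by
    rw [hcS, hdeg, hcZ]
  have hSi : (FixZ F (algebraMap C N ζ)).index = V.relIndex H := by
    rw [hrel]
    have h1 := (FixZ F (algebraMap C N ζ)).card_mul_index
    rw [hcS', IsGalois.card_aut_eq_finrank F N, ← Module.finrank_mul_finrank F C N,
      ← Module.finrank_mul_finrank F K C] at h1
    have h2 : 0 < Module.finrank C N * Module.finrank F K :=
      Nat.mul_pos Module.finrank_pos Module.finrank_pos
    apply Nat.eq_of_mul_eq_mul_left h2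
    rw [h1]
    ring
  obtain ⟨k, hk⟩ := hC.pow
  obtain ⟨D, hD, hDH, ⟨e⟩⟩ := hall hp V H (FixZ F (algebraMap C N ζ)) hVn hHn hVH
    ⟨_, hcV.trans hdeg⟩ hcopr hcomm
    ⟨Nat.card (FixZ F ζ) + k, by rw [hcS', hdeg, hk, pow_add]⟩ hSi
  refine ⟨D, hD, ?_, ⟨(e.trans eS).trans eW⟩⟩
  intro d hd
  exact (W14_mem d).mp (hDH hd)

end H28R
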