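import Mathlib
import Pool.Agent.Lib.H28R.W1

open NumberField IsDedekindDomain

namespace H28R

open H55B (F O om Prim gen)
open H55P H55R

/-! Chunk W8 (M/L): the field N. Ω = AlgebraicClosure C, r0 g in Ω with r0 g ^ p = g γ (g in FixZ F ζ), N = IntermediateField.adjoin C (range r0) (compare H19T/W3.lean, exists_Wr3). N/F is Galois: an F-embedding σ of Ω restricts to an element s of the group of C/F (h.gal), s = g1 δ (h.dec) with
g1 in FixZ, δ in the group of C/K; δ ζ = ζ^n for some n; (δ γ) = γ^n z^p (heig). For g in FixZ: s (g γ) = g1 (δ (g γ)) = g1 (g (δ γ)) (h.comm) = ((g1 g) γ)^n ((g1 g) z)^p. So σ (r0 g)^p = (r0 (g1 g)^n * (g1 g) z)^p, σ (r0 g) = ζ^i r0 (g1 g)^n (g1 g) z in N (p-th roots of unity are the powers of ζ: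
IsPrimitiveRoot.eq_pow_of_pow_eq_one). WrP.gen: Algebra.adjoin = ⊤ for algebraic elements (IntermediateField.adjoin_toSubalgebra_of_isAlgebraic or as in H19T/W3). Centrality: τ in the group of N/C, u in the group of N/K; u restricts to C as s with s fixing K, so s = δ in the group of C/K; u (r g) = ζ^i r_g^n (g z) as above (g1 = 1), τ (r g) = ζ^e r g.
τ (u (r g)) = ζ^i (ζ^e r g)^n (g z) = ζ^(e n) u (r g) and u (τ (r g)) = u(ζ)^e u (r g) = ζ^(n e) u (r g). The elements fixed by both compositions: both are ring homomorphisms equal to u on C and equal on the generators r g (AlgHom.ext_of_adjoin_eq_top for the C-algebra structure twisted, or Algebra.adjoin_induction). -/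

theorem W8_root {L : Type} [Field L] {p : ℕ} (hp : 0 < p) {z : L} (hz : IsPrimitiveRoot z p)
    {x y : L} (hy : y ≠ 0) (h : x ^ p = y ^ p) : ∃ i : ℕ, x = z ^ i * y := by
  have : NeZero p := ⟨hp.ne'⟩
  have h1 : (x / y) ^ p = 1 := by
    rw [div_pow, h, div_self (pow_ne_zero _ hy)]
  obtain ⟨i, -, hi⟩ := hz.eq_pow_of_pow_eq_one h1
  refine ⟨i, ?_⟩
  rw [hi, div_mul_cancel₀ _ hy]

theorem W8_exp {p : ℕ} (hp : 0 < p) {K C : Type} [Field K]
    [Field C] [Algebra K C] {ζ : C} (hz : IsPrimitiveRoot ζ p) (δ : C ≃ₐ[K] C) :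
    ∃ n : ℕ, δ ζ = ζ ^ n := by
  have : NeZero p := ⟨hp.ne'⟩
  have h1 : (δ ζ) ^ p = 1 := by rw [← map_pow, hz.pow_eq_one, map_one]
  obtain ⟨i, -, hi⟩ := hz.eq_pow_of_pow_eq_one h1
  exact ⟨i, hi.symm⟩

/-- The action on the conjugate. -/
theorem W8_act {p : ℕ} {K C : Type} [Field K] [NumberField K]
    [Field C] [NumberField C] [Algebra F K] [Algebra F C] [Algebra K C] [IsScalarTower F K C]
    {ζ : C} (h : Cyc p K C ζ) (γ : C) (z : C) (δ : C ≃ₐ[K] C) (n : ℕ)
    (hz : δ γ = γ ^ n * z ^ p) (g1 g : FixZ F ζ) :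
    (g1 : C ≃ₐ[F] C) (δ ((g : C ≃ₐ[F] C) γ)) =
      (((g1 * g : FixZ F ζ) : C ≃ₐ[F] C) γ) ^ n * (((g1 * g : FixZ F ζ) : C ≃ₐ[F] C) z) ^ p := by
  rw [← h.comm g δ γ, hz]
  simp only [map_mul, map_pow]
  rfl

theorem W8_central {p : ℕ} (hp : 0 < p) {K C N : Type} [Field K] [NumberField K]
    [Field C] [NumberField C] [Field N] [Algebra F K] [Algebra F C] [Algebra K C]
    [IsScalarTower F K C] [Algebra F N] [Algebra C N] [Algebra K N] [IsScalarTower K C N]
    {ζ : C} (h : Cyc p K C ζ) (γ : Cˣ)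
    (heig : ∀ (δ : C ≃ₐ[K] C) (n : ℕ), δ ζ = ζ ^ n → ∃ z : Cˣ, δ (γ : C) = (γ : C) ^ n * (z : C) ^ p)
    {r : FixZ F ζ → N} (hr : WrP p F C N ζ γ r) (τ : N ≃ₐ[C] N) (u : N ≃ₐ[K] N) (x : N) :
    τ (u x) = u (τ x) := by
  have := h.gal
  have : IsGalois K C := IsGalois.tower_top_of_isGalois F K C
  have : Normal K C := inferInstance
  let δ : C ≃ₐ[K] C := u.restrictNormal C
  have hδ : ∀ c : C, u (algebraMap C N c) = algebraMap C N (δ c) := fun c =>
    (AlgEquiv.restrictNormal_commutes u C c).symm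
  obtain ⟨n, hn⟩ := W8_exp hp h.prim δ
  obtain ⟨z, hz⟩ := heig δ n hn
  have hzN : IsPrimitiveRoot (algebraMap C N ζ) p :=
    h.prim.map_of_injective (algebraMap C N).injective
  have hr0 : ∀ g, r g ≠ 0 := by
    intro g h0
    have h1 := hr.pow g
    rw [h0, zero_pow hp.ne'] at h1
    have h2 : (g : C ≃ₐ[F] C) (γ : C) = 0 :=
      (algebraMap C N).injective (by rw [map_zero]; exact h1.symm)
    have h3 : (γ : C) = 0 := (g : C ≃ₐ[F] C).injective (by rw [h2, map_zero])
    exact γ.ne_zero h3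
  have hu : ∀ g : FixZ F ζ, ∃ i : ℕ, u (r g) =
      (algebraMap C N ζ) ^ i * (r g ^ n * algebraMap C N ((g : C ≃ₐ[F] C) z)) := by
    intro g
    refine W8_root hp hzN ?_ ?_
    · refine mul_ne_zero (pow_ne_zero _ (hr0 g)) ?_
      rw [Ne, map_eq_zero_iff _ (algebraMap C N).injective,
        map_eq_zero_iff _ (g : C ≃ₐ[F] C).injective]
      exact z.ne_zero
    · rw [← map_pow, hr.pow, hδ, mul_pow, ← pow_mul, mul_comm n p, pow_mul, hr.pow]
      have h4 := W8_act h (γ : C) (z : C) δ n hz 1 g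
      rw [one_mul] at h4
      have h5 : ((1 : FixZ F ζ) : C ≃ₐ[F] C) (δ ((g : C ≃ₐ[F] C) (γ : C))) =
        δ ((g : C ≃ₐ[F] C) (γ : C)) := rfl
      rw [h5] at h4
      rw [h4, map_mul, map_pow, map_pow]
  have hτ : ∀ g : FixZ F ζ, ∃ e : ℕ, τ (r g) = (algebraMap C N ζ) ^ e * r g := by
    intro g
    refine W8_root hp hzN (hr0 g) ?_
    rw [← map_pow, hr.pow, AlgEquiv.commutes]
  have hx : x ∈ Algebra.adjoin C (Set.range r) := by rw [hr.gen]; trivial
  refine Algebra.adjoin_induction (p := fun x _ => τ (u x) = u (τ x)) ?_ ?_ ?_ ?_ hx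
  · rintro _ ⟨g, rfl⟩
    obtain ⟨i, hi⟩ := hu g
    obtain ⟨e, he⟩ := hτ g
    have h6 : u (algebraMap C N ζ) = (algebraMap C N ζ) ^ n := by
      rw [hδ, hn, map_pow]
    rw [he, map_mul, map_pow, h6, hi]
    simp only [map_mul, map_pow, AlgEquiv.commutes, he]
    ring
  · intro c
    rw [hδ, AlgEquiv.commutes, AlgEquiv.commutes, hδ]
  · intro a b _ _ ha hb
    simp only [map_add, ha, hb]
  · intro a b _ _ ha hb
    simp only [map_mul, ha, hb]

theorem exists_N {p : ℕ} (hp : p.Prime) {K C : Type} [Field K] [NumberField K]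
    [Field C] [NumberField C] [Algebra F K] [Algebra F C] [Algebra K C] [IsScalarTower F K C]
    {ζ : C} (h : Cyc p K C ζ) (γ : Cˣ)
    (heig : ∀ (δ : C ≃ₐ[K] C) (n : ℕ), δ ζ = ζ ^ n → ∃ z : Cˣ, δ (γ : C) = (γ : C) ^ n * (z : C) ^ p) :
    ∃ (N : Type) (_ : Field N) (_ : NumberField N) (_ : Algebra C N) (_ : Algebra K N)
      (_ : Algebra F N) (_ : IsScalarTower F C N) (_ : IsScalarTower K C N)
      (_ : IsScalarTower F K N) (r : FixZ F ζ → N), WrP p F C N ζ γ r ∧
      ∀ (τ : N ≃ₐ[C] N) (u : N ≃ₐ[K] N) (x : N), τ (u x) = u (τ x) := by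
  classical
  have := h.gal
  have hp0 : 0 < p := hp.pos
  have htow : IsScalarTower ℚ F C := IsScalarTower.of_algebraMap_eq' (Subsingleton.elim _ _)
  have hfinFC : FiniteDimensional F C := Module.Finite.of_restrictScalars_finite ℚ F C
  have hfinG : Finite (C ≃ₐ[F] C) := inferInstance
  have hfinS : Finite (FixZ F ζ) := inferInstance
  have hsq : ∀ g : FixZ F ζ, ∃ y : AlgebraicClosure C,
      y ^ p = algebraMap C (AlgebraicClosure C) ((g : C ≃ₐ[F] C) (γ : C)) := fun g =>
    IsAlgClosed.exists_pow_nat_eq _ hp0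
  choose r0 hr0 using hsq
  have hint : ∀ x ∈ Set.range r0, IsIntegral C x := by
    rintro _ ⟨g, rfl⟩
    exact (Algebra.IsAlgebraic.isAlgebraic (r0 g)).isIntegral
  let E : IntermediateField C (AlgebraicClosure C) := IntermediateField.adjoin C (Set.range r0)
  have hEfin : FiniteDimensional C E := IntermediateField.finiteDimensional_adjoin hint
  have hmem : ∀ g, r0 g ∈ E := fun g => IntermediateField.subset_adjoin C _ ⟨g, rfl⟩
  have hnf : NumberField E := NumberField.of_module_finite C E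
  have halg : Algebra.IsAlgebraic F (AlgebraicClosure C) :=
    Algebra.IsAlgebraic.trans F C (AlgebraicClosure C)
  have hac : IsAlgClosure F (AlgebraicClosure C) := ⟨inferInstance, halg⟩
  have hnorm : Normal F (AlgebraicClosure C) := IsAlgClosure.normal F _
  have hz0 : IsPrimitiveRoot (algebraMap C (AlgebraicClosure C) ζ) p :=
    h.prim.map_of_injective (algebraMap C (AlgebraicClosure C)).injective
  have hne : ∀ g, r0 g ≠ 0 := by
    intro g h0
    have h1 := hr0 g
    rw [h0, zero_pow hp0.ne'] at h1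
    have h2 : (g : C ≃ₐ[F] C) (γ : C) = 0 :=
      (algebraMap C (AlgebraicClosure C)).injective (by rw [map_zero]; exact h1.symm)
    have h3 : (γ : C) = 0 := (g : C ≃ₐ[F] C).injective (by rw [h2, map_zero])
    exact γ.ne_zero h3
  have hE0 : ∀ (σ : AlgebraicClosure C →ₐ[F] AlgebraicClosure C) (x : AlgebraicClosure C),
      x ∈ E → σ x ∈ E := by
    intro σ x hx
    refine IntermediateField.adjoin_induction C (p := fun x _ => σ x ∈ E) ?_ ?_ ?_ ?_ ?_ hx
    · rintro _ ⟨g, rfl⟩
      obtain ⟨g1, δ, hs⟩ := h.dec (σ.restrictNormal' C)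
      obtain ⟨n, hn⟩ := W8_exp hp0 h.prim δ
      obtain ⟨z, hz⟩ := heig δ n hn
      have h1 : σ (r0 g) ^ p = (r0 (g1 * g) ^ n * algebraMap C (AlgebraicClosure C)
          (((g1 * g : FixZ F ζ) : C ≃ₐ[F] C) (z : C))) ^ p := by
        rw [← map_pow, hr0, mul_pow, ← pow_mul, mul_comm n p, pow_mul, hr0]
        have h2 : σ (algebraMap C (AlgebraicClosure C) ((g : C ≃ₐ[F] C) (γ : C))) =
            algebraMap C (AlgebraicClosure C)
              ((σ.restrictNormal' C) ((g : C ≃ₐ[F] C) (γ : C))) :=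
          (AlgHom.restrictNormal_commutes σ C ((g : C ≃ₐ[F] C) (γ : C))).symm
        rw [h2, hs, W8_act h (γ : C) (z : C) δ n hz g1 g, map_mul, map_pow, map_pow]
      obtain ⟨i, hi⟩ := W8_root hp0 hz0 (by
        refine mul_ne_zero (pow_ne_zero _ (hne _)) ?_
        rw [Ne, map_eq_zero_iff _ (algebraMap C (AlgebraicClosure C)).injective,
          map_eq_zero_iff _ ((g1 * g : FixZ F ζ) : C ≃ₐ[F] C).injective]
        exact z.ne_zero) h1
      rw [hi]
      refine mul_mem (pow_mem (E.algebraMap_mem _) _) (mul_mem (pow_mem (hmem _) _)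
        (E.algebraMap_mem _))
    · intro x
      rw [← AlgHom.restrictNormal_commutes σ C x]
      exact E.algebraMap_mem _
    · intro x y _ _ h1 h2
      rw [map_add]
      exact add_mem h1 h2
    · intro x _ h1
      rw [map_inv₀]
      exact inv_mem h1
    · intro x y _ _ h1 h2
      rw [map_mul]
      exact mul_mem h1 h2
  have hE : Normal F (E.restrictScalars F) := by
    rw [IntermediateField.normal_iff_forall_map_le]
    intro σ
    rintro _ ⟨x, hx, rfl⟩
    exact hE0 σ x hx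
  have hE' : Normal F E := hE
  have hFKE : IsScalarTower F K E := by
    refine IsScalarTower.of_algebraMap_eq fun x => ?_
    apply Subtype.ext
    show algebraMap F (AlgebraicClosure C) x = algebraMap K (AlgebraicClosure C) (algebraMap F K x)
    rw [IsScalarTower.algebraMap_apply F C (AlgebraicClosure C),
      IsScalarTower.algebraMap_apply K C (AlgebraicClosure C),
      IsScalarTower.algebraMap_apply F K C]
  have hwr : WrP p F C E ζ γ (fun g => ⟨r0 g, hmem g⟩) := by
    refine ⟨?_, ?_, ?_⟩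
    · intro g
      apply Subtype.ext
      exact hr0 g
    · have h1 : (⊤ : Subalgebra C E) = Algebra.adjoin C
          (Set.range fun g => (⟨r0 g, hmem g⟩ : E)) := by
        apply Subalgebra.map_injective (f := E.val) E.val.injective
        rw [← Algebra.adjoin_image, ← Set.range_comp]
        have h2 : (E.val ∘ fun g => (⟨r0 g, hmem g⟩ : E)) = r0 := rfl
        rw [h2, ← IntermediateField.adjoin_toSubalgebra_of_isAlgebraic
          (fun x hx => (hint x hx).isAlgebraic)]
        ext x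
        constructor
        · rintro ⟨y, -, rfl⟩
          exact y.2
        · intro hx
          exact ⟨⟨x, hx⟩, Algebra.mem_top, rfl⟩
      exact h1.symm
    · exact { to_normal := hE' }
  exact ⟨E, inferInstance, hnf, inferInstance, inferInstance, inferInstance, inferInstance,
    inferInstance, hFKE, fun g => ⟨r0 g, hmem g⟩, hwr,
    fun τ u x => W8_central hp0 h γ heig hwr τ u x⟩

end H28R
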