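import Mathlib
import Pool.Agent.Lib.H28R.W5
import Pool.Agent.Lib.H28R.W6
import Pool.Agent.Lib.H28R.W8
import Pool.Agent.Lib.H28R.W21
import Pool.Agent.Lib.H28R.W13
import Pool.Agent.Lib.H28R.W14

open NumberField IsDedekindDomain

namespace H28R

open H55B (F O om Prim gen)
open H55P H55R

/-! W15: the wreath step (assembly). -/

/-- K' contains K, is of the same kind, and its group is the regular wreath product of the cyclic group of order p with the group of
K/F. -/
def WrOver (p : ℕ) (K : Type) [Field K] [NumberField K] [Algebra F K] (B : ℕ) : Prop :=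
  ∃ (K' : Type) (_ : Field K') (_ : NumberField K') (_ : Algebra F K') (_ : Algebra K K')
    (_ : IsScalarTower F K K'), PB p K' B ∧ Nonempty ((K' ≃ₐ[F] K') ≃* CP p ≀ᵣ (K ≃ₐ[F] K))

theorem exists_wreath {p : ℕ} (hp : p.Prime) (h5 : 5 ≤ p) (K : Type) [Field K] [NumberField K]
    [Algebra F K] (B : ℕ) (h : PB p K B) : WrOver p K B := by
  classical
  obtain ⟨C, _, _, _, _, _, ζ, hC⟩ := exists_cyc p hp h5 K h.1.1 h.1.2.1
  obtain ⟨α, w, w', hα⟩ := exists_alp hp C B (fun S hS => exists_nice hp h5 hC B S hS)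
  obtain ⟨γ, hγ⟩ := exists_gam hp hC hα
  obtain ⟨N, _, _, _, _, _, _, _, _, r, hr, hcen⟩ := exists_N hp hC γ hγ.eig
  have : Finite (FixZ F ζ) := inferInstance
  let _ : Fintype (FixZ F ζ) := Fintype.ofFinite _
  have hGN : IsGalois F N := hr.gal
  obtain ⟨D, hD, hDK, ⟨e⟩⟩ := group_D hp h5 hC γ.ne_zero hr (fun a ha => not_pow hp hC hγ a ha) hcen
  obtain ⟨K', _, _, _, _, _, _, _, _, hG', ⟨e'⟩⟩ := exists_fix F K N D hD hDK
  have hcard : ∃ n : ℕ, Module.finrank F K' = p ^ n := by
    obtain ⟨k, hk⟩ := h.1.2.1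
    have := h.1.1
    rw [← IsGalois.card_aut_eq_finrank, Nat.card_congr (e'.trans e).toEquiv,
      RegularWreathProduct.card, IsGalois.card_aut_eq_finrank, hk]
    refine ⟨p ^ k + k, ?_⟩
    have h1 : Nat.card (CP p) = p := by
      rw [Nat.card_eq_of_bijective Multiplicative.toAdd Multiplicative.toAdd.bijective, Nat.card_zmod]
    rw [h1, pow_add]
  exact ⟨K', inferInstance, inferInstance, inferInstance, inferInstance, inferInstance,
    ram_PB hp h5 hC h hγ hr hG' hcard, ⟨e'.trans e⟩⟩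

end H28R
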