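import Mathlib
import Pool.Agent.Lib.H28R.W15
import Pool.Agent.Lib.H55N.WR9

open NumberField IsDedekindDomain

namespace H28R

open H55B (F O om Prim gen)
open H55P H55R

/-! W16: every finite p-group embeds in the group of such an extension (assembly). -/

theorem pb_base (p B : ℕ) : PB p F B :=
  ⟨⟨inferInstance, ⟨0, by rw [Module.finrank_self, pow_zero]⟩, fun w v _ _ => H55N.unr_base w⟩,
    fun w hw => absurd (H55N.unr_base w) hw⟩

/-- H embeds in the group of an extension of the class, ramified only at primes of norm greater than B. -/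
def EmbP (p : ℕ) (H : Type) [Group H] (B : ℕ) : Prop :=
  ∃ (K : Type) (_ : Field K) (_ : NumberField K) (_ : Algebra F K), PB p K B ∧
    ∃ φ : H →* (K ≃ₐ[F] K), Function.Injective φ

theorem exists_embedP {p : ℕ} (hp : p.Prime) (h5 : 5 ≤ p) (k : ℕ) :
    ∀ (H : Type) [Group H] [Finite H], Nat.card H = p ^ k → ∀ B : ℕ, EmbP p H B := by
  induction k with
  | zero =>
    intro H _ _ hH B
    rw [pow_zero] at hH
    have : Subsingleton H := (Nat.card_eq_one_iff_unique.1 hH).1
    exact ⟨F, inferInstance, inferInstance, Algebra.id F, pb_base p B,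
      ⟨1, Function.injective_of_subsingleton _⟩⟩
  | succ k ih =>
    intro H _ _ hH B
    obtain ⟨Z, hZ, hZ2, hQ⟩ := centreP hp H k hH
    obtain ⟨K, _, _, _, hK, ⟨φ, hφ⟩⟩ := ih (H ⧸ Z) hQ B
    obtain ⟨K', _, _, _, _, _, hK', ⟨e⟩⟩ := exists_wreath hp h5 K B hK
    have : Finite (K ≃ₐ[F] K) := inferInstance
    have hker : (φ.comp (QuotientGroup.mk' Z)).ker = Z := by
      ext x
      rw [MonoidHom.mem_ker, MonoidHom.comp_apply, ← map_one φ, hφ.eq_iff]
      exact QuotientGroup.eq_one_iff x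
    obtain ⟨ψ, hψ⟩ := kkP hp H (K ≃ₐ[F] K) (φ.comp (QuotientGroup.mk' Z)) (by rw [hker]; exact hZ2)
    exact ⟨K', inferInstance, inferInstance, inferInstance, hK',
      ⟨e.symm.toMonoidHom.comp ψ, e.symm.injective.comp hψ⟩⟩

end H28R
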