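import Mathlib
import Pool.Agent.Lib.H28R.A9
import Pool.Agent.Lib.H13N.G3

open NumberField IsDedekindDomain

namespace H28R

open H55B (F O om Prim gen)
open H55P H55R

/-! Chunk W17 (S/M): the Galois closure over the rationals. Port of H13N/G1.lean (g1_pow), G2.lean (g2_unr), G3.lean (exists_galN) with p in place of 3 and ExtP in place of ThreeExt and UnrOut: H13N.g1_two, g1_restrict, g2_card, g2_hom, g2_hom2, g3_closure are general; good_conj (A1) replaces good_cj. -/

theorem W17_pow {p : ℕ} (hp : p.Prime) (L N : Type) [Field L] [NumberField L] [Algebra F L] [Field N]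
    [NumberField N] [Algebra F N] (hG : IsGalois F L) (k : ℕ) (hk : Module.finrank F L = p ^ k)
    (hN : IsGalois ℚ N) (hgen : ∀ g : N ≃ₐ[F] N, (∀ (τ : L →+* N) (x : L), g (τ x) = τ x) → g = 1) :
    ∃ m : ℕ, Module.finrank F N = p ^ m := by
  have hfp : Fact p.Prime := ⟨hp⟩
  have hNF : IsGalois F N := IsGalois.tower_top_of_isGalois ℚ F N
  have hpg : IsPGroup p (N ≃ₐ[F] N) := by
    intro a
    refine ⟨k, hgen _ ?_⟩
    intro τ x
    obtain ⟨α, hα⟩ := H13N.g1_restrict L N hG a τ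
    have h1 : ∀ (n : ℕ) (x : L), (a ^ n) (τ x) = τ ((α ^ n) x) := by
      intro n
      induction n with
      | zero => intro x; simp
      | succ n ih =>
        intro x
        rw [pow_succ, pow_succ]
        show (a ^ n) (a (τ x)) = τ ((α ^ n) (α x))
        rw [hα, ih]
    have h2 : α ^ p ^ k = 1 := by
      rw [← hk, ← IsGalois.card_aut_eq_finrank F L]
      exact pow_card_eq_one'
    rw [h1, h2]
    rfl
  obtain ⟨m, hm⟩ := (IsPGroup.iff_card (p := p)).1 hpg
  exact ⟨m, by rw [← IsGalois.card_aut_eq_finrank F N, hm]⟩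

theorem W17_unr {p : ℕ} (L N : Type) [Field L] [NumberField L] [Algebra F L] [Field N] [NumberField N]
    [Algebra F N] (hG : IsGalois F L)
    (hU : ∀ (W : HeightOneSpectrum (𝓞 L)) (v : HeightOneSpectrum O), v.asIdeal = W.asIdeal.under O →
      ¬ GoodP p v → W.asIdeal.ramificationIdx O = 1) (hN : IsGalois ℚ N)
    (hgen : ∀ g : N ≃ₐ[F] N, (∀ (τ : L →+* N) (x : L), g (τ x) = τ x) → g = 1)
    (P : HeightOneSpectrum (𝓞 N)) (v : HeightOneSpectrum O) (hv : v.asIdeal = P.asIdeal.under O)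
    (hng : ¬ GoodP p v) : P.asIdeal.ramificationIdx O = 1 := by
  have hNF : IsGalois F N := IsGalois.tower_top_of_isGalois ℚ F N
  rw [← H13N.g2_card N hNF P, Subgroup.card_eq_one, eq_bot_iff]
  intro g hg
  rw [Subgroup.mem_bot]
  apply hgen
  intro τ x
  obtain ⟨α, hα⟩ := H13N.g1_restrict L N hG g τ
  suffices h1 : α = 1 by
    rw [hα, h1]
    rfl
  let t : 𝓞 L →+* 𝓞 N := RingOfIntegers.mapRingHom τ
  have ht : ∀ y : 𝓞 L, algebraMap (𝓞 N) N (t y) = τ (algebraMap (𝓞 L) L y) := fun y => rfl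
  have hPp := P.isPrime
  have hne : P.asIdeal.comap t ≠ ⊥ := by
    intro h
    have hn : (Ideal.absNorm P.asIdeal : 𝓞 L) ∈ P.asIdeal.comap t := by
      rw [Ideal.mem_comap, map_natCast]
      exact Ideal.absNorm_mem _
    rw [h, Ideal.mem_bot, Nat.cast_eq_zero, Ideal.absNorm_eq_zero_iff] at hn
    exact P.ne_bot hn
  let P' : HeightOneSpectrum (𝓞 L) := ⟨P.asIdeal.comap t, inferInstance, hne⟩
  have hP' : ∀ y, y ∈ P'.asIdeal ↔ t y ∈ P.asIdeal := fun y => Iff.rfl
  have hv'ne : P'.asIdeal.under O ≠ ⊥ := Ideal.IsIntegral.comap_ne_bot _ P'.ne_bot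
  have hP'p := P'.isPrime
  let v' : HeightOneSpectrum O := ⟨P'.asIdeal.under O, inferInstance, hv'ne⟩
  have hv'm : ∀ y : O, y ∈ v'.asIdeal ↔ t (algebraMap O (𝓞 L) y) ∈ P.asIdeal := fun y => Iff.rfl
  have hvm : ∀ y : O, y ∈ v.asIdeal ↔ algebraMap O (𝓞 N) y ∈ P.asIdeal := by
    intro y
    rw [hv, Ideal.under_def, Ideal.mem_comap]
  have hng' : ¬ GoodP p v' := by
    rcases H13N.g1_two N (algebraMap F N) (τ.comp (algebraMap F L)) with h2 | h2
    · have h3 : (t.comp (algebraMap O (𝓞 L))) om = algebraMap O (𝓞 N) om := by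
        apply RingOfIntegers.ext
        exact h2
      have h4 := H13N.g2_hom _ _ h3
      have h5 : v' = v := by
        apply HeightOneSpectrum.ext
        ext y
        rw [hv'm, hvm, ← h4]
        rfl
      rw [h5]
      exact hng
    · have h3 : (t.comp (algebraMap O (𝓞 L))) om = algebraMap O (𝓞 N) om ^ 2 := by
        apply RingOfIntegers.ext
        exact h2
      have h4 := H13N.g2_hom2 _ _ h3
      have hc : ∀ x : O, H55B.cj x ∈ v'.asIdeal ↔ x ∈ v.asIdeal := by
        intro y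
        rw [hv'm, hvm]
        have h5 := h4 (H55B.cj y)
        rw [H55B.cj_cj] at h5
        rw [← h5]
        rfl
      intro hgd
      refine hng (good_conj v' v (fun x => ?_) hgd)
      rw [← hc (H55B.cj x), H55B.cj_cj]
  have h6 : P'.asIdeal.ramificationIdx O = 1 := hU P' v' rfl hng'
  rw [← H13N.g2_card L hG P', Subgroup.card_eq_one] at h6
  have h7 : α ∈ P'.asIdeal.inertia (L ≃ₐ[F] L) := by
    intro y
    show t (α • y - y) ∈ P.asIdeal
    have h8 : t (α • y - y) = g • t y - t y := by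
      rw [map_sub]
      congr 1
      apply RingOfIntegers.ext
      exact (hα (y : L)).symm
    rw [h8]
    exact hg (t y)
  rw [h6, Subgroup.mem_bot] at h7
  exact h7

theorem exists_galP {p : ℕ} (hp : p.Prime) (L : Type) [Field L] [NumberField L] [Algebra F L]
    (h : ExtP p L) :
    ∃ (N : Type) (_ : Field N) (_ : NumberField N) (_ : Algebra F N) (_ : Algebra L N)
      (_ : IsScalarTower F L N), IsGalois ℚ N ∧ ExtP p N := by
  obtain ⟨hG, ⟨k, hk⟩, hU⟩ := h
  obtain ⟨N, i1, i2, i3, hN, hg⟩ := H13N.g3_closure L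
  let i4 : Algebra F N := ((algebraMap L N).comp (algebraMap F L)).toAlgebra
  have i5 : IsScalarTower F L N := IsScalarTower.of_algebraMap_eq fun x => rfl
  have hgen : ∀ g : N ≃ₐ[F] N, (∀ (τ : L →+* N) (x : L), g (τ x) = τ x) → g = 1 := by
    intro g h
    have h1 := hg (g.restrictScalars ℚ) h
    ext x
    exact congrArg (fun σ : N ≃ₐ[ℚ] N => σ x) h1
  obtain ⟨m, hm⟩ := W17_pow hp L N hG k hk hN hgen
  exact ⟨N, i1, i2, i4, i3, i5, hN, IsGalois.tower_top_of_isGalois ℚ F N, ⟨m, hm⟩,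
    W17_unr L N hG hU hN hgen⟩

end H28R
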