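import Mathlib
import Pool.Agent.Lib.H28R.W16
import Pool.Agent.Lib.H28R.W17
import Pool.Agent.Lib.H13N.X3

open NumberField IsDedekindDomain

namespace H28R

open H55B (F O om Prim gen)
open H55P H55R

/-! W18: real fields with arbitrarily complicated Galois groups (assembly). -/

theorem exists_realP {p : ℕ} (hp : p.Prime) (h5 : 5 ≤ p) (H : Type) [Group H] [Finite H] (k : ℕ)
    (hH : Nat.card H = p ^ k) : RealFieldP p H := by
  obtain ⟨L, i1, i2, i3, hL, ⟨ψ, hψ⟩⟩ := exists_embedP hp h5 k H hH 0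
  obtain ⟨N, j1, j2, j3, j4, j5, hGQ, hN⟩ := exists_galP hp L hL.1
  obtain ⟨K₀, k1, k2, k3, hr, hQ⟩ := H13N.x3_real N hGQ
  have hGL := hL.1.1
  have hGF := hN.1
  refine ⟨K₀, k1, k2, hr, ⟨N, j1, j2, j3, k3, hN⟩, N, j1, j2, j3, k3, ⟨hQ.rank, hQ.noroot⟩, hN, ?_⟩
  let res : (N ≃ₐ[F] N) →* (L ≃ₐ[F] L) := AlgEquiv.restrictNormalHom L
  have hres : Function.Surjective res := AlgEquiv.restrictNormalHom_surjective N
  let e : H ≃* ψ.range := MonoidHom.ofInjective hψ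
  refine ⟨ψ.range.comap res, (e.symm : ψ.range →* H).comp (res.subgroupComap ψ.range), ?_⟩
  intro h
  obtain ⟨g, hg⟩ := hres (e h)
  refine ⟨⟨g, ?_⟩, ?_⟩
  · rw [Subgroup.mem_comap, hg]
    exact (e h).2
  · have h1 : res.subgroupComap ψ.range ⟨g, by rw [Subgroup.mem_comap, hg]; exact (e h).2⟩ = e h :=
      Subtype.ext hg
    show e.symm _ = h
    rw [h1]
    exact e.symm_apply_apply h

end H28R
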