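import Mathlib
import Pool.Agent.Lib.H28R.A6
import Pool.Agent.Lib.H28R.A8
import Pool.Agent.Lib.H28R.W18

open NumberField IsDedekindDomain

namespace H28R

open H55B (F O)
open H55P H55R

/-- The realisation part, p >= 5 prime. -/
theorem real {p : ℕ} (hp : p.Prime) (h5 : 5 ≤ p) :
    -- subfields of the fields generated by roots of unity of good order
    (∀ (K : Type) [Field K] [NumberField K] [Algebra F K], ExplicitP p K →
      (∃ k : ℕ, Module.finrank F K = p ^ k) → ExtP p K) ∧
    -- every finite abelian p-group is a Galois group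
    (∀ (A : Type) [CommGroup A] [Finite A] (k : ℕ), Nat.card A = p ^ k → ∀ B : ℕ,
      ∃ (K : Type) (_ : Field K) (_ : NumberField K) (_ : Algebra F K), PB p K B ∧
        Nonempty ((K ≃ₐ[F] K) ≃* A)) ∧
    -- regular wreath products
    (∀ (K : Type) [Field K] [NumberField K] [Algebra F K] (B : ℕ), PB p K B → WrOver p K B) ∧
    -- every finite p-group embeds in a Galois group
    (∀ (H : Type) [Group H] [Finite H] (k : ℕ), Nat.card H = p ^ k → ∀ B : ℕ, EmbP p H B) ∧
    -- Galois extensions of the rationals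
    (∀ (K₀ : Type) [Field K₀] [NumberField K₀], RatP p K₀ → InP p K₀) ∧
    (∀ (A : Type) [CommGroup A] [Finite A] (k : ℕ), Nat.card A = p ^ k →
      ∃ (K₀ : Type) (_ : Field K₀) (_ : NumberField K₀), IsTotallyReal K₀ ∧ RatP p K₀ ∧
        Nonempty ((K₀ ≃ₐ[ℚ] K₀) ≃* A)) ∧
    -- real fields
    (∀ (H : Type) [Group H] [Finite H] (k : ℕ), Nat.card H = p ^ k → RealFieldP p H) :=
  ⟨fun _ _ _ _ h hk => exp_ext h hk,
    fun A _ _ k hA B => exists_abelianP hp h5 A k hA B,
    fun K _ _ _ B h => exists_wreath hp h5 K B h,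
    fun H _ _ k hH B => exists_embedP hp h5 k H hH B,
    fun K₀ _ _ h => of_ratP hp h5 K₀ h,
    fun A _ _ k hA => exists_abelianQ hp h5 A k hA,
    fun H _ _ k hH => exists_realP hp h5 H k hH⟩

end H28R
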