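import Pool.Agent.Lib.H28P.U01

/-!
# R01: facets of stacked polytopes (combinatorics)
-/

set_option autoImplicit false

namespace Pool.Agent.Lib.H28R

open Pool.Agent.Lib.H28P

theorem new_facets (x y z v : ℕ) (hxy : x ≠ y) (hxz : x ≠ z) (hyz : y ≠ z) :
    ({{v, y, z}, {v, x, z}, {v, x, y}} : Finset (Finset ℕ)) =
      ({x, y, z} : Finset ℕ).image (fun w => insert v (({x, y, z} : Finset ℕ).erase w)) := by
  have e1 : ({x, y, z} : Finset ℕ).erase x = {y, z} := by
    ext t; simp only [Finset.mem_erase, Finset.mem_insert, Finset.mem_singleton]; grind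
  have e2 : ({x, y, z} : Finset ℕ).erase y = {x, z} := by
    ext t; simp only [Finset.mem_erase, Finset.mem_insert, Finset.mem_singleton]; grind
  have e3 : ({x, y, z} : Finset ℕ).erase z = {x, y} := by
    ext t; simp only [Finset.mem_erase, Finset.mem_insert, Finset.mem_singleton]; grind
  rw [Finset.image_insert, Finset.image_insert, Finset.image_singleton, e1, e2, e3]

theorem distinct_of_card {x y z : ℕ} (h : ({x, y, z} : Finset ℕ).card = 3) :
    x ≠ y ∧ x ≠ z ∧ y ≠ z := by
  refine ⟨?_, ?_, ?_⟩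
  · rintro rfl
    rw [Finset.insert_eq_of_mem (by simp)] at h
    have := Finset.card_le_two (a := x) (b := z)
    omega
  · rintro rfl
    rw [Finset.insert_eq_of_mem (by simp)] at h
    have := Finset.card_le_two (a := y) (b := x)
    omega
  · rintro rfl
    rw [Finset.pair_eq_singleton] at h
    have := Finset.card_le_two (a := x) (b := y)
    omega

/-- The faces after stacking. -/
theorem mem_stack {F : Finset (Finset ℕ)} {x y z v : ℕ} (hxy : x ≠ y) (hxz : x ≠ z) (hyz : y ≠ z)
    {f : Finset ℕ} :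
    f ∈ F.erase {x, y, z} ∪ {{v, y, z}, {v, x, z}, {v, x, y}} ↔
      (f ∈ F ∧ f ≠ {x, y, z}) ∨
        ∃ w ∈ ({x, y, z} : Finset ℕ), f = insert v (({x, y, z} : Finset ℕ).erase w) := by
  rw [new_facets x y z v hxy hxz hyz, Finset.mem_union, Finset.mem_erase, Finset.mem_image]
  constructor
  · rintro (⟨h1, h2⟩ | ⟨w, h1, h2⟩)
    · exact Or.inl ⟨h2, h1⟩
    · exact Or.inr ⟨w, h1, h2.symm⟩
  · rintro (⟨h1, h2⟩ | ⟨w, h1, h2⟩)
    · exact Or.inl ⟨h2, h1⟩
    · exact Or.inr ⟨w, h1, h2.symm⟩

/-- For every facet `f` and each of its vertices `u` there is a facet which meets `f` in the side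
opposite to `u`. -/
theorem across {V : Finset ℕ} {E : Finset (Sym2 ℕ)} {F : Finset (Finset ℕ)}
    (h : Stacked V E F) : ∀ f ∈ F, ∀ u ∈ f, ∃ g ∈ F, f ∩ g = f.erase u := by
  induction h with
  | tetrahedron a b c d hab hac had hbc hbd hcd =>
    intro f hf u hu
    simp only [Finset.mem_insert, Finset.mem_singleton] at hf
    rcases hf with rfl | rfl | rfl | rfl <;>
      simp only [Finset.mem_insert, Finset.mem_singleton] at hu <;>
      rcases hu with rfl | rfl | rfl
    · exact ⟨{a, c, d}, by simp, by ext t; simp only [Finset.mem_inter, Finset.mem_erase, Finset.mem_insert, Finset.mem_singleton]; grind⟩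
    · exact ⟨{a, b, d}, by simp, by ext t; simp only [Finset.mem_inter, Finset.mem_erase, Finset.mem_insert, Finset.mem_singleton]; grind⟩
    · exact ⟨{a, b, c}, by simp, by ext t; simp only [Finset.mem_inter, Finset.mem_erase, Finset.mem_insert, Finset.mem_singleton]; grind⟩
    · exact ⟨{b, c, d}, by simp, by ext t; simp only [Finset.mem_inter, Finset.mem_erase, Finset.mem_insert, Finset.mem_singleton]; grind⟩
    · exact ⟨{a, b, d}, by simp, by ext t; simp only [Finset.mem_inter, Finset.mem_erase, Finset.mem_insert, Finset.mem_singleton]; grind⟩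
    · exact ⟨{a, b, c}, by simp, by ext t; simp only [Finset.mem_inter, Finset.mem_erase, Finset.mem_insert, Finset.mem_singleton]; grind⟩
    · exact ⟨{b, c, d}, by simp, by ext t; simp only [Finset.mem_inter, Finset.mem_erase, Finset.mem_insert, Finset.mem_singleton]; grind⟩
    · exact ⟨{a, c, d}, by simp, by ext t; simp only [Finset.mem_inter, Finset.mem_erase, Finset.mem_insert, Finset.mem_singleton]; grind⟩
    · exact ⟨{a, b, c}, by simp, by ext t; simp only [Finset.mem_inter, Finset.mem_erase, Finset.mem_insert, Finset.mem_singleton]; grind⟩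
    · exact ⟨{b, c, d}, by simp, by ext t; simp only [Finset.mem_inter, Finset.mem_erase, Finset.mem_insert, Finset.mem_singleton]; grind⟩
    · exact ⟨{a, c, d}, by simp, by ext t; simp only [Finset.mem_inter, Finset.mem_erase, Finset.mem_insert, Finset.mem_singleton]; grind⟩
    · exact ⟨{a, b, d}, by simp, by ext t; simp only [Finset.mem_inter, Finset.mem_erase, Finset.mem_insert, Finset.mem_singleton]; grind⟩
  | stack V E F x y z v h hf hv ih =>
    obtain ⟨-, -, hF, -⟩ := stacked_basic h
    obtain ⟨hxy, hxz, hyz⟩ := distinct_of_card (hF _ hf).1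
    have hTV := (hF _ hf).2.1
    intro f hf' u hu
    rw [mem_stack hxy hxz hyz] at hf'
    set T : Finset ℕ := {x, y, z} with hT
    have hvT : v ∉ T := fun h1 => hv (hTV h1)
    rcases hf' with ⟨h1, h2⟩ | ⟨w, hw, rfl⟩
    · have hvf : v ∉ f := fun h3 => hv ((hF _ h1).2.1 h3)
      obtain ⟨g, hg, hg2⟩ := ih f h1 u hu
      by_cases h3 : g = T
      · subst h3
        -- the third vertex of `T`
        obtain ⟨w, hw, hw2⟩ : ∃ w ∈ T, w ∉ f.erase u := by
          by_contra hcon
          push Not at hcon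
          have h4 : T ⊆ f.erase u := fun w hw => hcon w hw
          have h5 := Finset.card_le_card h4
          rw [Finset.card_erase_of_mem hu, (hF _ h1).1, (hF _ hf).1] at h5
          omega
        refine ⟨insert v (T.erase w), (mem_stack hxy hxz hyz).2 (Or.inr ⟨w, hw, rfl⟩), ?_⟩
        rw [← hg2]
        ext t
        simp only [Finset.mem_inter, Finset.mem_insert, Finset.mem_erase]
        constructor
        · rintro ⟨h4, rfl | ⟨h5, h6⟩⟩
          · exact absurd h4 hvf
          · exact ⟨h4, h6⟩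
        · rintro ⟨h4, h5⟩
          refine ⟨h4, Or.inr ⟨?_, h5⟩⟩
          rintro rfl
          exact hw2 (hg2 ▸ Finset.mem_inter.2 ⟨h4, h5⟩)
      · exact ⟨g, (mem_stack hxy hxz hyz).2 (Or.inl ⟨hg, h3⟩), hg2⟩
    · rcases eq_or_ne u v with rfl | huv
      · obtain ⟨g, hg, hg2⟩ := ih T hf w hw
        have hvg : u ∉ g := fun h3 => hv ((hF _ hg).2.1 h3)
        refine ⟨g, (mem_stack hxy hxz hyz).2 (Or.inl ⟨hg, ?_⟩), ?_⟩
        · rintro rfl
          rw [Finset.inter_self] at hg2
          exact Finset.notMem_erase w T (hg2 ▸ hw)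
        · rw [Finset.erase_insert (fun h3 => hvT (Finset.mem_of_mem_erase h3)), ← hg2]
          ext t
          simp only [Finset.mem_inter, Finset.mem_insert]
          constructor
          · rintro ⟨rfl | h4, h5⟩
            · exact absurd h5 hvg
            · exact h4
          · rintro ⟨h4, h5⟩
            exact ⟨Or.inr ⟨h4, h5⟩, h5⟩
      · have huT : u ∈ T.erase w := by
          rcases Finset.mem_insert.1 hu with h3 | h3
          · exact absurd h3 huv
          · exact h3
        refine ⟨insert v (T.erase u), (mem_stack hxy hxz hyz).2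
          (Or.inr ⟨u, Finset.mem_of_mem_erase huT, rfl⟩), ?_⟩
        ext t
        simp only [Finset.mem_inter, Finset.mem_insert, Finset.mem_erase]
        constructor
        · rintro ⟨h4 | ⟨h4, h5⟩, h6 | ⟨h6, h7⟩⟩
          · exact ⟨h4 ▸ huv.symm, Or.inl h4⟩
          · exact ⟨h6, Or.inl h4⟩
          · exact ⟨h6 ▸ huv.symm, Or.inl h6⟩
          · exact ⟨h6, Or.inr ⟨h4, h5⟩⟩
        · rintro ⟨h4, h5 | ⟨h5, h6⟩⟩
          · exact ⟨Or.inl h5, Or.inl h5⟩
          · exact ⟨Or.inr ⟨h5, h6⟩, Or.inr ⟨h4, h6⟩⟩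

/-- Every vertex is in a facet. -/
theorem exists_facet {V : Finset ℕ} {E : Finset (Sym2 ℕ)} {F : Finset (Finset ℕ)}
    (h : Stacked V E F) : ∀ u ∈ V, ∃ f ∈ F, u ∈ f := by
  induction h with
  | tetrahedron a b c d hab hac had hbc hbd hcd =>
    intro u hu
    simp only [Finset.mem_insert, Finset.mem_singleton] at hu
    rcases hu with rfl | rfl | rfl | rfl
    · exact ⟨{u, c, d}, by simp, by simp⟩
    · exact ⟨{u, c, d}, by simp, by simp⟩
    · exact ⟨{b, u, d}, by simp, by simp⟩
    · exact ⟨{b, c, u}, by simp, by simp⟩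
  | stack V E F x y z v h hf hv ih =>
    obtain ⟨-, -, hF, -⟩ := stacked_basic h
    obtain ⟨hxy, hxz, hyz⟩ := distinct_of_card (hF _ hf).1
    intro u hu
    rcases Finset.mem_insert.1 hu with rfl | hu
    · exact ⟨{u, y, z}, by simp, by simp⟩
    · obtain ⟨f, hf1, hf2⟩ := ih u hu
      by_cases h3 : f = {x, y, z}
      · subst h3
        simp only [Finset.mem_insert, Finset.mem_singleton] at hf2
        rcases hf2 with rfl | rfl | rfl
        · exact ⟨{v, u, z}, by simp, by simp⟩
        · exact ⟨{v, u, z}, by simp, by simp⟩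
        · exact ⟨{v, y, u}, by simp, by simp⟩
      · exact ⟨f, (mem_stack hxy hxz hyz).2 (Or.inl ⟨hf1, h3⟩), hf2⟩

/-- Two vertices are separated by a facet. -/
theorem exists_sep {V : Finset ℕ} {E : Finset (Sym2 ℕ)} {F : Finset (Finset ℕ)}
    (h : Stacked V E F) {u w : ℕ} (hu : u ∈ V) (huw : u ≠ w) : ∃ f ∈ F, u ∈ f ∧ w ∉ f := by
  obtain ⟨f, hf, huf⟩ := exists_facet h u hu
  by_cases hwf : w ∈ f
  · obtain ⟨g, hg, hfg⟩ := across h f hf w hwf
    refine ⟨g, hg, ?_, ?_⟩
    · have : u ∈ f ∩ g := by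
        rw [hfg]
        exact Finset.mem_erase.2 ⟨huw, huf⟩
      exact (Finset.mem_inter.1 this).2
    · intro hwg
      have : w ∈ f ∩ g := Finset.mem_inter.2 ⟨hwf, hwg⟩
      rw [hfg] at this
      exact Finset.notMem_erase w f this
  · exact ⟨f, hf, huf, hwf⟩

end Pool.Agent.Lib.H28R
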