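import Pool.Agent.Lib.H28R.RDefs

/-!
# R02: simplices
-/

set_option autoImplicit false

namespace Pool.Agent.Lib.H28R

theorem aff_eq (L : R3 →ᵃ[ℝ] ℝ) (x : R3) : L x = L.linear x + L 0 := by
  have := L.map_vadd 0 x
  simpa using this

theorem aff_comb {ι : Type*} (L : R3 →ᵃ[ℝ] ℝ) (s : Finset ι) (w : ι → ℝ) (P : ι → R3) :
    L.linear (∑ i ∈ s, w i • P i) = ∑ i ∈ s, w i * L (P i) - (∑ i ∈ s, w i) * L 0 := by
  rw [map_sum, Finset.sum_mul, ← Finset.sum_sub_distrib]
  refine Finset.sum_congr rfl fun i _ => ?_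
  rw [map_smul, aff_eq L (P i), smul_eq_mul]
  ring

theorem simplex_ind (P : Fin 4 → R3) (L : Fin 4 → R3 →ᵃ[ℝ] ℝ)
    (h0 : ∀ i j, i ≠ j → L i (P j) = 0) (h1 : ∀ i, 0 < L i (P i)) : AffineIndependent ℝ P := by
  rw [affineIndependent_iff]
  intro s w hw hP i hi
  have h := aff_comb (L i) s w P
  rw [hP, map_zero, hw, zero_mul, sub_zero, Finset.sum_eq_single_of_mem i hi] at h
  · exact (mul_eq_zero.1 h.symm).resolve_right (h1 i).ne'
  · intro j _ hj
    rw [h0 i j hj.symm, mul_zero]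

theorem simplex_hull (P : Fin 4 → R3) (L : Fin 4 → R3 →ᵃ[ℝ] ℝ)
    (h0 : ∀ i j, i ≠ j → L i (P j) = 0) (h1 : ∀ i, 0 < L i (P i)) (r : R3)
    (hr : ∀ i, 0 ≤ L i r) : r ∈ convexHull ℝ (Set.range P) := by
  have hind := simplex_ind P L h0 h1
  have hspan : affineSpan ℝ (Set.range P) = ⊤ := by
    rw [hind.affineSpan_eq_top_iff_card_eq_finrank_add_one]
    simp
  let B : AffineBasis (Fin 4) ℝ R3 := ⟨P, hind, hspan⟩
  have hB : ∀ i, B i = P i := fun _ => rfl
  have : r ∈ convexHull ℝ (Set.range B) := by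
    rw [AffineBasis.convexHull_eq_nonneg_coord]
    intro i
    have e1 := B.sum_coord_apply_eq_one r
    have e2 := B.linear_combination_coord_eq_self r
    have e3 := aff_comb (L i) Finset.univ (fun j => B.coord j r) (fun j => B j)
    rw [e2, e1, one_mul, Finset.sum_eq_single_of_mem i (Finset.mem_univ i)] at e3
    · have e4 := aff_eq (L i) r
      have e5 : L i r = B.coord i r * L i (P i) := by
        rw [e4, e3, hB]; ring
      have e6 := hr i
      rw [e5] at e6
      exact nonneg_of_mul_nonneg_left e6 (h1 i)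
    · intro j _ hj
      rw [hB, h0 i j hj.symm, mul_zero]
  exact this

end Pool.Agent.Lib.H28R
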