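import Pool.Agent.Lib.H28R.R01
import Pool.Agent.Lib.H28R.R02

/-!
# R03: realisation of stacked polytopes in space
-/

set_option autoImplicit false

open Filter Topology

namespace Pool.Agent.Lib.H28R

open Pool.Agent.Lib.H28P

/-- The points `p v`, `v ∈ V`, are the vertices of a polytope with facets `F`; `h f` is an affine
function which is negative at all vertices not in `f` and zero on `f`. -/
structure Realizes (V : Finset ℕ) (F : Finset (Finset ℕ)) (p : ℕ → R3)
    (h : Finset ℕ → R3 →ᵃ[ℝ] ℝ) : Prop where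
  zero : ∀ f ∈ F, ∀ v ∈ f, h f (p v) = 0
  neg : ∀ f ∈ F, ∀ v ∈ V, v ∉ f → h f (p v) < 0
  hull : ∀ r, (∀ f ∈ F, h f r ≤ 0) → r ∈ convexHull ℝ (p '' (V : Set ℕ))
  int : ∃ r, ∀ f ∈ F, h f r < 0

theorem realizes_base (a b c d : ℕ) (hab : a ≠ b) (hac : a ≠ c) (had : a ≠ d) (hbc : b ≠ c)
    (hbd : b ≠ d) (hcd : c ≠ d) :
    ∃ p h, Realizes {a, b, c, d} {{b, c, d}, {a, c, d}, {a, b, d}, {a, b, c}} p h := by
  classical
  obtain ⟨B⟩ : Nonempty (AffineBasis (Fin 4) ℝ R3) := by
    apply AffineBasis.exists_affineBasis_of_finiteDimensional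
    simp
  obtain ⟨p, hp⟩ : ∃ p : ℕ → R3, ∀ v, p v =
      if v = a then B 0 else if v = b then B 1 else if v = c then B 2 else B 3 := ⟨_, fun _ => rfl⟩
  obtain ⟨h, hh⟩ : ∃ h : Finset ℕ → R3 →ᵃ[ℝ] ℝ, ∀ f, h f =
      if a ∉ f then - B.coord 0 else if b ∉ f then - B.coord 1 else if c ∉ f then - B.coord 2
        else - B.coord 3 := ⟨_, fun _ => rfl⟩
  have pa : p a = B 0 := by rw [hp]; simp
  have pb : p b = B 1 := by rw [hp]; simp [hab.symm]
  have pc : p c = B 2 := by rw [hp]; simp [hac.symm, hbc.symm]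
  have pd : p d = B 3 := by rw [hp]; simp [had.symm, hbd.symm, hcd.symm]
  have h1 : h {b, c, d} = - B.coord 0 := by rw [hh]; simp [hab, hac, had]
  have h2 : h {a, c, d} = - B.coord 1 := by rw [hh]; simp [hab.symm, hbc, hbd]
  have h3 : h {a, b, d} = - B.coord 2 := by rw [hh]; simp [hac.symm, hbc.symm, hcd]
  have h4 : h {a, b, c} = - B.coord 3 := by rw [hh]; simp
  refine ⟨p, h, ?_, ?_, ?_, ?_⟩
  · intro f hf v hv
    simp only [Finset.mem_insert, Finset.mem_singleton] at hf
    rcases hf with rfl | rfl | rfl | rfl <;>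
      simp only [Finset.mem_insert, Finset.mem_singleton] at hv <;>
      rcases hv with rfl | rfl | rfl <;>
      simp only [h1, h2, h3, h4, pa, pb, pc, pd, AffineMap.coe_neg, Pi.neg_apply,
        AffineBasis.coord_apply] <;> simp
  · intro f hf v hv hvf
    simp only [Finset.mem_insert, Finset.mem_singleton] at hf hv
    rcases hf with rfl | rfl | rfl | rfl <;>
      simp only [Finset.mem_insert, Finset.mem_singleton, not_or] at hvf <;>
      rcases hv with rfl | rfl | rfl | rfl <;>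
      first
      | (exfalso; tauto)
      | (simp only [h1, h2, h3, h4, pa, pb, pc, pd, AffineMap.coe_neg, Pi.neg_apply,
          AffineBasis.coord_apply]; simp)
  · intro r hr
    have e : Set.range B ⊆ p '' (({a, b, c, d} : Finset ℕ) : Set ℕ) := by
      rintro x ⟨i, rfl⟩
      fin_cases i
      · exact ⟨a, by simp, pa⟩
      · exact ⟨b, by simp, pb⟩
      · exact ⟨c, by simp, pc⟩
      · exact ⟨d, by simp, pd⟩
    refine convexHull_mono e ?_
    rw [AffineBasis.convexHull_eq_nonneg_coord]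
    intro i
    have k1 := hr {b, c, d} (by simp)
    have k2 := hr {a, c, d} (by simp)
    have k3 := hr {a, b, d} (by simp)
    have k4 := hr {a, b, c} (by simp)
    rw [h1] at k1
    rw [h2] at k2
    rw [h3] at k3
    rw [h4] at k4
    simp only [AffineMap.coe_neg, Pi.neg_apply, neg_nonpos] at k1 k2 k3 k4
    fin_cases i
    · exact k1
    · exact k2
    · exact k3
    · exact k4
  · refine ⟨Finset.univ.centroid ℝ B, ?_⟩
    have hc : ∀ i, 0 < B.coord i (Finset.univ.centroid ℝ B) := by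
      intro i
      rw [B.coord_apply_centroid (Finset.mem_univ i)]
      simp
    intro f hf
    simp only [Finset.mem_insert, Finset.mem_singleton] at hf
    rcases hf with rfl | rfl | rfl | rfl <;>
      simp only [h1, h2, h3, h4, AffineMap.coe_neg, Pi.neg_apply, neg_lt_zero] <;> apply hc

/-- A point beyond exactly one facet. -/
theorem exists_beyond {V : Finset ℕ} {E : Finset (Sym2 ℕ)} {F : Finset (Finset ℕ)} {p : ℕ → R3}
    {h : Finset ℕ → R3 →ᵃ[ℝ] ℝ} (hS : Stacked V E F) (hR : Realizes V F p h) {x y z : ℕ}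
    (hT : {x, y, z} ∈ F) :
    ∃ q, 0 < h {x, y, z} q ∧ ∀ g ∈ F, g ≠ {x, y, z} → h g q < 0 := by
  obtain ⟨hV, -, hF, -⟩ := stacked_basic hS
  have hTc := (hF _ hT).1
  have hTV := (hF _ hT).2.1
  -- a vertex which is not in the facet
  obtain ⟨o, ho, hoT⟩ : ∃ o ∈ V, o ∉ ({x, y, z} : Finset ℕ) := by
    by_contra hcon
    push Not at hcon
    have := Finset.card_le_card (show V ⊆ ({x, y, z} : Finset ℕ) from fun o ho => hcon o ho)
    omega
  -- a point inside the facet
  obtain ⟨b, hb⟩ : ∃ b : R3, b = midpoint ℝ (p x) (midpoint ℝ (p y) (p z)) := ⟨_, rfl⟩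
  have hbv : ∀ L : R3 →ᵃ[ℝ] ℝ, L b = L (p x) / 2 + (L (p y) / 4 + L (p z) / 4) := by
    intro L
    rw [hb, AffineMap.map_midpoint, AffineMap.map_midpoint, midpoint_eq_smul_add,
      midpoint_eq_smul_add]
    simp only [smul_eq_mul, invOf_eq_inv]
    ring
  have hx : x ∈ ({x, y, z} : Finset ℕ) := by simp
  have hy : y ∈ ({x, y, z} : Finset ℕ) := by simp
  have hz : z ∈ ({x, y, z} : Finset ℕ) := by simp
  have hb0 : h {x, y, z} b = 0 := by
    rw [hbv, hR.zero _ hT x hx, hR.zero _ hT y hy, hR.zero _ hT z hz]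
    norm_num
  have hle : ∀ g ∈ F, ∀ v ∈ V, h g (p v) ≤ 0 := by
    intro g hg v hv
    by_cases hvg : v ∈ g
    · exact (hR.zero g hg v hvg).le
    · exact (hR.neg g hg v hv hvg).le
  have hbneg : ∀ g ∈ F, g ≠ {x, y, z} → h g b < 0 := by
    intro g hg hgT
    have k : ¬ (({x, y, z} : Finset ℕ) ⊆ g) := by
      intro hsub
      have := Finset.eq_of_subset_of_card_le hsub (by rw [(hF g hg).1, hTc])
      exact hgT this.symm
    rw [Finset.not_subset] at k
    obtain ⟨w, hw, hwg⟩ := k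
    have k1 := hR.neg g hg w (hTV hw) hwg
    have k2 := hle g hg x (hTV hx)
    have k3 := hle g hg y (hTV hy)
    have k4 := hle g hg z (hTV hz)
    rw [hbv]
    simp only [Finset.mem_insert, Finset.mem_singleton] at hw
    rcases hw with rfl | rfl | rfl <;> linarith
  have hev : ∀ᶠ t : ℝ in 𝓝[<] 0, ∀ g ∈ F.erase {x, y, z}, h g (AffineMap.lineMap b (p o) t) < 0 := by
    rw [Filter.eventually_all_finset]
    intro g hg
    obtain ⟨hg1, hg2⟩ := Finset.mem_erase.1 hg
    have hc : Continuous fun t : ℝ => h g (AffineMap.lineMap b (p o) t) :=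
      (h g).continuous_of_finiteDimensional.comp AffineMap.lineMap_continuous
    have h0 : h g (AffineMap.lineMap b (p o) (0 : ℝ)) < 0 := by
      rw [AffineMap.lineMap_apply_zero]
      exact hbneg g hg2 hg1
    exact (hc.tendsto 0).eventually (gt_mem_nhds h0) |>.filter_mono nhdsWithin_le_nhds
  obtain ⟨t, ht1, ht2⟩ := (hev.and self_mem_nhdsWithin).exists
  refine ⟨AffineMap.lineMap b (p o) t, ?_, fun g hg hgT => ht1 g (Finset.mem_erase.2 ⟨hgT, hg⟩)⟩
  rw [AffineMap.apply_lineMap, hb0, AffineMap.lineMap_apply]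
  have := hR.neg _ hT o ho hoT
  simp only [vsub_eq_sub, sub_zero, smul_eq_mul, vadd_eq_add, add_zero]
  exact mul_pos_of_neg_of_neg ht2 this

theorem realizes_step {V : Finset ℕ} {E : Finset (Sym2 ℕ)} {F : Finset (Finset ℕ)} {p : ℕ → R3}
    {h : Finset ℕ → R3 →ᵃ[ℝ] ℝ} (hS : Stacked V E F) (hR : Realizes V F p h) {x y z v : ℕ}
    (hT : {x, y, z} ∈ F) (hv : v ∉ V) :
    ∃ p' h', Realizes (insert v V)
      (F.erase {x, y, z} ∪ {{v, y, z}, {v, x, z}, {v, x, y}}) p' h' := by
  classical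
  obtain ⟨hV, -, hF, -⟩ := stacked_basic hS
  obtain ⟨hxy, hxz, hyz⟩ := distinct_of_card (hF _ hT).1
  obtain ⟨q, hq0, hq⟩ := exists_beyond hS hR hT
  have hacr := across hS _ hT
  obtain ⟨T, hTdef⟩ : ∃ T : Finset ℕ, T = {x, y, z} := ⟨_, rfl⟩
  rw [← hTdef] at hT hq0 hq hacr
  have hms := fun f : Finset ℕ => mem_stack (F := F) (v := v) hxy hxz hyz (f := f)
  rw [← hTdef] at hms ⊢
  have hTc := (hF _ hT).1
  have hTV := (hF _ hT).2.1
  have hvT : v ∉ T := fun h1 => hv (hTV h1)
  choose! ac hac hac2 using hacr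
  have hacT : ∀ w ∈ T, ac w ≠ T := by
    intro w hw h1
    have h2 := hac2 w hw
    rw [h1, Finset.inter_self] at h2
    exact Finset.notMem_erase w T (h2 ▸ hw)
  have hacw : ∀ w ∈ T, w ∉ ac w := by
    intro w hw h1
    have h2 : w ∈ T ∩ ac w := Finset.mem_inter.2 ⟨hw, h1⟩
    rw [hac2 w hw] at h2
    exact Finset.notMem_erase w T h2
  have hacu : ∀ w ∈ T, ∀ u ∈ T, u ≠ w → u ∈ ac w := by
    intro w hw u hu huw
    have h2 : u ∈ T.erase w := Finset.mem_erase.2 ⟨huw, hu⟩
    rw [← hac2 w hw] at h2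
    exact (Finset.mem_inter.1 h2).2
  -- the new functionals
  obtain ⟨K, hK⟩ : ∃ K : ℕ → R3 →ᵃ[ℝ] ℝ, ∀ w r,
      K w r = (- h (ac w) q) * h T r + h T q * h (ac w) r := by
    refine ⟨fun w => (- h (ac w) q) • h T + (h T q) • h (ac w), fun w r => ?_⟩
    simp
  have hinj : Set.InjOn (fun w => insert v (T.erase w)) T := by
    intro u hu w hw huw
    by_contra hne
    have h1 : u ∈ insert v (T.erase w) :=
      Finset.mem_insert_of_mem (Finset.mem_erase.2 ⟨hne, Finset.mem_coe.1 hu⟩)
    have huw' : insert v (T.erase u) = insert v (T.erase w) := huw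
    rw [← huw'] at h1
    rcases Finset.mem_insert.1 h1 with h2 | h2
    · exact hvT (h2 ▸ Finset.mem_coe.1 hu)
    · exact Finset.notMem_erase u T h2
  obtain ⟨ms, hms2⟩ : ∃ ms : Finset ℕ → ℕ, ∀ w ∈ T, ms (insert v (T.erase w)) = w :=
    ⟨Function.invFunOn (fun w => insert v (T.erase w)) T, fun w hw => hinj.leftInvOn_invFunOn hw⟩
  obtain ⟨h', hh'⟩ : ∃ h' : Finset ℕ → R3 →ᵃ[ℝ] ℝ, ∀ f, h' f =
      if v ∈ f then K (ms f) else h f := ⟨_, fun _ => rfl⟩
  obtain ⟨p', hp'⟩ : ∃ p' : ℕ → R3, ∀ u, p' u = if u = v then q else p u := ⟨_, fun _ => rfl⟩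
  have pv : p' v = q := by rw [hp']; simp
  have pu : ∀ u ∈ V, p' u = p u := by
    intro u hu
    rw [hp', if_neg]
    rintro rfl
    exact hv hu
  have hnew : ∀ w ∈ T, h' (insert v (T.erase w)) = K w := by
    intro w hw
    rw [hh', if_pos (Finset.mem_insert_self _ _), hms2 w hw]
  have hold : ∀ f ∈ F, h' f = h f := by
    intro f hf
    rw [hh', if_neg]
    exact fun h1 => hv ((hF f hf).2.1 h1)
  have hle : ∀ g ∈ F, ∀ v ∈ V, h g (p v) ≤ 0 := by
    intro g hg v hv
    by_cases hvg : v ∈ g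
    · exact (hR.zero g hg v hvg).le
    · exact (hR.neg g hg v hv hvg).le
  have hcq : ∀ w ∈ T, 0 < - h (ac w) q := fun w hw => by
    have := hq (ac w) (hac w hw) (hacT w hw)
    linarith
  have hKq : ∀ w, K w q = 0 := by
    intro w
    rw [hK]; ring
  have hK0 : ∀ w ∈ T, ∀ u ∈ T, u ≠ w → K w (p u) = 0 := by
    intro w hw u hu huw
    rw [hK, hR.zero T hT u hu, hR.zero _ (hac w hw) u (hacu w hw u hu huw)]
    ring
  have hKneg : ∀ w ∈ T, ∀ u ∈ V, (u = w ∨ u ∉ T) → K w (p u) < 0 := by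
    intro w hw u hu huw
    rw [hK]
    have k1 := hcq w hw
    have k2 := hle _ (hac w hw) u hu
    have k3 := hle _ hT u hu
    rcases huw with rfl | huT
    · rw [hR.zero T hT u hw]
      have k4 := hR.neg _ (hac u hw) u hu (hacw u hw)
      nlinarith
    · have k4 := hR.neg _ hT u hu huT
      nlinarith
  refine ⟨p', h', ?_, ?_, ?_, ?_⟩
  · intro f hf u hu
    rcases (hms f).1 hf with ⟨h1, h2⟩ | ⟨w, hw, rfl⟩
    · rw [hold f h1, pu u ((hF f h1).2.1 hu)]
      exact hR.zero f h1 u hu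
    · rw [hnew w hw]
      rcases Finset.mem_insert.1 hu with rfl | hu
      · rw [pv, hKq]
      · obtain ⟨h3, h4⟩ := Finset.mem_erase.1 hu
        rw [pu u (hTV h4)]
        exact hK0 w hw u h4 h3
  · intro f hf u hu huf
    rcases (hms f).1 hf with ⟨h1, h2⟩ | ⟨w, hw, rfl⟩
    · rw [hold f h1]
      rcases Finset.mem_insert.1 hu with rfl | hu
      · rw [pv]
        exact hq f h1 h2
      · rw [pu u hu]
        exact hR.neg f h1 u hu huf
    · rw [hnew w hw]
      simp only [Finset.mem_insert, Finset.mem_erase, not_or] at huf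
      rcases Finset.mem_insert.1 hu with rfl | hu
      · exact absurd rfl huf.1
      · rw [pu u hu]
        apply hKneg w hw u hu
        by_cases h3 : u = w
        · exact Or.inl h3
        · exact Or.inr fun h4 => huf.2 ⟨h3, h4⟩
  · intro r hr
    have himg : p '' (V : Set ℕ) ⊆ p' '' ((insert v V : Finset ℕ) : Set ℕ) := by
      rintro _ ⟨u, hu, rfl⟩
      exact ⟨u, by simp [Finset.mem_coe.1 hu], pu u (Finset.mem_coe.1 hu)⟩
    by_cases h0 : h T r ≤ 0
    · refine convexHull_mono himg (hR.hull r fun f hf => ?_)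
      by_cases hfT : f = T
      · rw [hfT]; exact h0
      · rw [← hold f hf]
        exact hr f ((hms f).2 (Or.inl ⟨hf, hfT⟩))
    · push Not at h0
      have hxT : x ∈ T := by rw [hTdef]; simp
      have hyT : y ∈ T := by rw [hTdef]; simp
      have hzT : z ∈ T := by rw [hTdef]; simp
      have hKr : ∀ w ∈ T, K w r ≤ 0 := by
        intro w hw
        rw [← hnew w hw]
        exact hr _ ((hms _).2 (Or.inr ⟨w, hw, rfl⟩))
      have himg2 : Set.range ![q, p x, p y, p z] ⊆ p' '' ((insert v V : Finset ℕ) : Set ℕ) := by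
        rintro _ ⟨i, rfl⟩
        fin_cases i
        · exact ⟨v, by simp, pv⟩
        · exact himg ⟨x, Finset.mem_coe.2 (hTV hxT), rfl⟩
        · exact himg ⟨y, Finset.mem_coe.2 (hTV hyT), rfl⟩
        · exact himg ⟨z, Finset.mem_coe.2 (hTV hzT), rfl⟩
      refine convexHull_mono himg2 (simplex_hull ![q, p x, p y, p z]
        ![h T, - K x, - K y, - K z] ?_ ?_ r ?_)
      · intro i j hij
        fin_cases i <;> fin_cases j <;> simp at hij ⊢
        · exact hR.zero T hT x hxT
        · exact hR.zero T hT y hyT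
        · exact hR.zero T hT z hzT
        · exact hKq x
        · exact hK0 x hxT y hyT hxy.symm
        · exact hK0 x hxT z hzT hxz.symm
        · exact hKq y
        · exact hK0 y hyT x hxT hxy
        · exact hK0 y hyT z hzT hyz.symm
        · exact hKq z
        · exact hK0 z hzT x hxT hxz
        · exact hK0 z hzT y hyT hyz
      · intro i
        fin_cases i <;> simp
        · exact hq0
        · exact hKneg x hxT x (hTV hxT) (Or.inl rfl)
        · exact hKneg y hyT y (hTV hyT) (Or.inl rfl)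
        · exact hKneg z hzT z (hTV hzT) (Or.inl rfl)
      · intro i
        fin_cases i <;> simp
        · exact h0.le
        · exact hKr x hxT
        · exact hKr y hyT
        · exact hKr z hzT
  · obtain ⟨r, hr⟩ := hR.int
    refine ⟨r, fun f hf => ?_⟩
    rcases (hms f).1 hf with ⟨h1, h2⟩ | ⟨w, hw, rfl⟩
    · rw [hold f h1]
      exact hr f h1
    · rw [hnew w hw, hK]
      have k1 := hcq w hw
      have k2 := hr T hT
      have k3 := hr _ (hac w hw)
      nlinarith

theorem exists_realizes {V : Finset ℕ} {E : Finset (Sym2 ℕ)} {F : Finset (Finset ℕ)}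
    (hS : Stacked V E F) : ∃ p h, Realizes V F p h := by
  induction hS with
  | tetrahedron a b c d hab hac had hbc hbd hcd => exact realizes_base a b c d hab hac had hbc hbd hcd
  | stack V E F x y z v h hf hv ih =>
    obtain ⟨p, h', hR⟩ := ih
    exact realizes_step h hR hf hv

end Pool.Agent.Lib.H28R
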