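import Pool.Agent.Lib.H28R.R03
import Pool.Agent.Lib.H28P.U05

/-!
# R04: the realised polyhedron
-/

set_option autoImplicit false

open Filter Topology

namespace Pool.Agent.Lib.H28R

open Pool.Agent.Lib.H28P

variable {V : Finset ℕ} {E : Finset (Sym2 ℕ)} {F : Finset (Finset ℕ)} {p : ℕ → R3}
  {h : Finset ℕ → R3 →ᵃ[ℝ] ℝ}

theorem Realizes.le (hR : Realizes V F p h) {f : Finset ℕ} (hf : f ∈ F) :
    ∀ r ∈ convexHull ℝ (p '' (V : Set ℕ)), h f r ≤ 0 := by
  have hc : Convex ℝ {r | h f r ≤ 0} := by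
    have := (convex_Iic (0 : ℝ)).affine_preimage (h f)
    exact this
  intro r hr
  refine convexHull_min ?_ hc hr
  rintro _ ⟨v, hv, rfl⟩
  by_cases hvf : v ∈ f
  · exact (hR.zero f hf v hvf).le
  · exact (hR.neg f hf v (Finset.mem_coe.1 hv) hvf).le

/-- Points where all functionals are negative are interior. -/
theorem Realizes.mem_interior (hR : Realizes V F p h) {r : R3} (hr : ∀ f ∈ F, h f r < 0) :
    r ∈ interior (convexHull ℝ (p '' (V : Set ℕ))) := by
  rw [mem_interior_iff_mem_nhds]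
  have hev : ∀ᶠ s in 𝓝 r, ∀ f ∈ F, h f s < 0 := by
    rw [Filter.eventually_all_finset]
    intro f hf
    have hc : Continuous (h f) := (h f).continuous_of_finiteDimensional
    exact (hc.tendsto r).eventually (gt_mem_nhds (hr f hf))
  exact hev.mono fun s hs => hR.hull s fun f hf => (hs f hf).le

theorem Realizes.polyhedron (hR : Realizes V F p h) :
    IsPolyhedron (convexHull ℝ (p '' (V : Set ℕ))) := by
  classical
  refine ⟨⟨V.image p, by rw [Finset.coe_image]⟩, ?_⟩
  obtain ⟨r, hr⟩ := hR.int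
  exact ⟨r, hR.mem_interior hr⟩

theorem Realizes.inj (hS : Stacked V E F) (hR : Realizes V F p h) :
    Set.InjOn p (V : Set ℕ) := by
  intro u hu w hw huw
  by_contra hne
  obtain ⟨f, hf, huf, hwf⟩ := exists_sep hS (Finset.mem_coe.1 hu) hne
  have h1 := hR.zero f hf u huf
  have h2 := hR.neg f hf w (Finset.mem_coe.1 hw) hwf
  rw [huw] at h1
  linarith

theorem Realizes.verts (hS : Stacked V E F) (hR : Realizes V F p h) :
    verts (convexHull ℝ (p '' (V : Set ℕ))) = p '' (V : Set ℕ) := by
  apply Set.Subset.antisymm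
  · exact extremePoints_convexHull_subset
  · rintro _ ⟨v, hv, rfl⟩
    have hvV := Finset.mem_coe.1 hv
    refine mem_extremePoints.2 ⟨subset_convexHull ℝ _ ⟨v, hv, rfl⟩, ?_⟩
    intro a ha b hb hab
    -- the points where all functionals of the facets at `v` vanish
    have key : ∀ c ∈ convexHull ℝ (p '' (V : Set ℕ)), (∀ f ∈ F, v ∈ f → h f c = 0) → c = p v := by
      have hc : Convex ℝ {c : R3 | (∀ f ∈ F, v ∈ f → h f c ≤ 0) ∧
          ((∀ f ∈ F, v ∈ f → h f c = 0) → c = p v)} := by
        rw [convex_iff_forall_pos]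
        intro c hc d hd s t hs ht hst
        have hval : ∀ f, h f (s • c + t • d) = s * h f c + t * h f d := by
          intro f
          have e1 := Convex.combo_affine_apply (f := h f) (x := c) (y := d) hst
          simpa using e1
        refine ⟨fun f hf hvf => ?_, fun hz => ?_⟩
        · rw [hval]
          have k1 := mul_nonpos_of_nonneg_of_nonpos hs.le (hc.1 f hf hvf)
          have k2 := mul_nonpos_of_nonneg_of_nonpos ht.le (hd.1 f hf hvf)
          linarith
        · have k3 : ∀ f ∈ F, v ∈ f → h f c = 0 ∧ h f d = 0 := by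
            intro f hf hvf
            have k0 := hz f hf hvf
            rw [hval] at k0
            have k1 := hc.1 f hf hvf
            have k2 := hd.1 f hf hvf
            have k4 := mul_nonpos_of_nonneg_of_nonpos hs.le k1
            have k5 := mul_nonpos_of_nonneg_of_nonpos ht.le k2
            have k6 : s * h f c = 0 := by linarith
            have k7 : t * h f d = 0 := by linarith
            exact ⟨(mul_eq_zero.1 k6).resolve_left hs.ne', (mul_eq_zero.1 k7).resolve_left ht.ne'⟩
          rw [hc.2 fun f hf hvf => (k3 f hf hvf).1, hd.2 fun f hf hvf => (k3 f hf hvf).2,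
            ← add_smul, hst, one_smul]
      intro c hc'
      have hmem := convexHull_min (s := p '' (V : Set ℕ)) ?_ hc hc'
      · exact hmem.2
      · rintro _ ⟨w, hw, rfl⟩
        have hwV := Finset.mem_coe.1 hw
        refine ⟨fun f hf _ => hR.le hf _ (subset_convexHull ℝ _ ⟨w, hw, rfl⟩), fun hz => ?_⟩
        by_contra hne
        have hvw : v ≠ w := by
          rintro rfl
          exact hne rfl
        obtain ⟨f, hf, hvf, hwf⟩ := exists_sep hS hvV hvw
        have k1 := hR.neg f hf w hwV hwf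
        have k2 := hz f hf hvf
        linarith
    obtain ⟨s, t, hs, ht, hst, hab2⟩ := hab
    have k3 : ∀ f ∈ F, v ∈ f → h f a = 0 ∧ h f b = 0 := by
      intro f hf hvf
      have k0 := hR.zero f hf v hvf
      rw [← hab2] at k0
      have e1 := Convex.combo_affine_apply (f := h f) (x := a) (y := b) hst
      simp only [smul_eq_mul] at e1
      rw [e1] at k0
      have k1 := hR.le hf a ha
      have k2 := hR.le hf b hb
      have k4 := mul_nonpos_of_nonneg_of_nonpos hs.le k1
      have k5 := mul_nonpos_of_nonneg_of_nonpos ht.le k2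
      have k6 : s * h f a = 0 := by linarith
      have k7 : t * h f b = 0 := by linarith
      exact ⟨(mul_eq_zero.1 k6).resolve_left hs.ne', (mul_eq_zero.1 k7).resolve_left ht.ne'⟩
    exact ⟨key a ha fun f hf hvf => (k3 f hf hvf).1, key b hb fun f hf hvf => (k3 f hf hvf).2⟩

/-- Edges of the polyhedron are edges of the stacked polytope. -/
theorem Realizes.edge (hS : Stacked V E F) (hR : Realizes V F p h) {u w : ℕ} (hu : u ∈ V)
    (hw : w ∈ V) (he : IsEdge (convexHull ℝ (p '' (V : Set ℕ))) (p u) (p w)) : s(u, w) ∈ E := by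
  classical
  obtain ⟨hV, -, hF, -⟩ := stacked_basic hS
  obtain ⟨-, -, hne, φ, hφ⟩ := he
  by_contra hE
  have huw : u ≠ w := fun h1 => hne (by rw [h1])
  obtain ⟨m, hm⟩ : ∃ m : R3, m = midpoint ℝ (p u) (p w) := ⟨_, rfl⟩
  have hmv : ∀ L : R3 →ᵃ[ℝ] ℝ, L m = L (p u) / 2 + L (p w) / 2 := by
    intro L
    rw [hm, AffineMap.map_midpoint, midpoint_eq_smul_add]
    simp only [smul_eq_mul, invOf_eq_inv]
    ring
  have hmP : m ∈ interior (convexHull ℝ (p '' (V : Set ℕ))) := by
    apply hR.mem_interior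
    intro f hf
    rw [hmv]
    have k1 := hR.le hf _ (subset_convexHull ℝ _ ⟨u, Finset.mem_coe.2 hu, rfl⟩)
    have k2 := hR.le hf _ (subset_convexHull ℝ _ ⟨w, Finset.mem_coe.2 hw, rfl⟩)
    by_cases huf : u ∈ f
    · have hwf : w ∉ f := fun hwf => hE ((hF f hf).2.2 u huf w hwf huw)
      have k3 := hR.neg f hf w hw hwf
      linarith
    · have k3 := hR.neg f hf u hu huf
      linarith
  have hmseg : m ∈ segment ℝ (p u) (p w) := by
    rw [hm]
    exact midpoint_mem_segment _ _
  rw [hφ] at hmseg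
  have hmax : IsLocalMax φ m := by
    have : ∀ᶠ y in 𝓝 m, y ∈ convexHull ℝ (p '' (V : Set ℕ)) :=
      mem_interior_iff_mem_nhds.1 hmP
    exact this.mono fun y hy => hmseg.2 y hy
  have h0 : φ = 0 := hmax.hasFDerivAt_eq_zero φ.hasFDerivAt
  have hall : convexHull ℝ (p '' (V : Set ℕ)) = segment ℝ (p u) (p w) := by
    rw [hφ, h0]
    ext x
    simp
  -- a third vertex
  obtain ⟨x, hx, hx2⟩ : ∃ x ∈ V, x ∉ ({u, w} : Finset ℕ) := by
    by_contra hcon
    push Not at hcon
    have := Finset.card_le_card (show V ⊆ ({u, w} : Finset ℕ) from fun o ho => hcon o ho)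
    have := Finset.card_le_two (a := u) (b := w)
    omega
  have hx3 : p x ∈ Set.extremePoints ℝ (convexHull ℝ (p '' (V : Set ℕ))) := by
    have := hR.verts hS
    unfold H28R.verts at this
    rw [this]
    exact ⟨x, Finset.mem_coe.2 hx, rfl⟩
  rw [hall, ← convexHull_pair] at hx3
  have hx4 := extremePoints_convexHull_subset hx3
  simp only [Finset.mem_insert, Finset.mem_singleton, not_or] at hx2
  rcases hx4 with h1 | h1
  · exact hx2.1 (hR.inj hS (Finset.mem_coe.2 hx) (Finset.mem_coe.2 hu) h1)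
  · exact hx2.2 (hR.inj hS (Finset.mem_coe.2 hx) (Finset.mem_coe.2 hw) h1)

/-- Every stacked polytope is realised by a convex polyhedron whose simple edge paths are paths of
the stacked polytope. -/
theorem exists_polyhedron (hS : Stacked V E F) :
    ∃ P : Set R3, IsPolyhedron P ∧ (H28R.verts P).ncard = V.card ∧
      ∀ l, IsPath P l → ∃ l', EdgePath V E l' ∧ l'.length = l.length := by
  classical
  obtain ⟨p, h, hR⟩ := exists_realizes hS
  have hv := hR.verts hS
  have hinj := hR.inj hS
  refine ⟨convexHull ℝ (p '' (V : Set ℕ)), hR.polyhedron, ?_, ?_⟩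
  · rw [hv, hinj.ncard_image, Set.ncard_coe_finset]
  · rintro l ⟨h1, h2, h3⟩
    obtain ⟨σ, hσ⟩ : ∃ σ : R3 → ℕ, ∀ v ∈ V, σ (p v) = v :=
      ⟨Function.invFunOn p V, fun v hv => hinj.leftInvOn_invFunOn (Finset.mem_coe.2 hv)⟩
    have hmem : ∀ a ∈ l, ∃ v ∈ V, p v = a := by
      intro a ha
      have := h2 a ha
      rw [hv] at this
      obtain ⟨v, hv1, hv2⟩ := this
      exact ⟨v, Finset.mem_coe.1 hv1, hv2⟩
    refine ⟨l.map σ, ⟨?_, ?_, ?_⟩, List.length_map ..⟩
    · refine List.Nodup.map_on ?_ h1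
      intro a ha b hb hab
      obtain ⟨v, hv1, rfl⟩ := hmem a ha
      obtain ⟨w, hw1, rfl⟩ := hmem b hb
      rw [hσ v hv1, hσ w hw1] at hab
      rw [hab]
    · intro t ht
      obtain ⟨a, ha, rfl⟩ := List.mem_map.1 ht
      obtain ⟨v, hv1, rfl⟩ := hmem a ha
      rw [hσ v hv1]
      exact hv1
    · rw [List.isChain_map]
      refine h3.imp ?_
      intro a b hab
      have ha := hab.1
      have hb := hab.2.1
      rw [hv] at ha hb
      obtain ⟨v, hv1, rfl⟩ := ha
      obtain ⟨w, hw1, rfl⟩ := hb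
      rw [hσ v (Finset.mem_coe.1 hv1), hσ w (Finset.mem_coe.1 hw1)]
      exact hR.edge hS (Finset.mem_coe.1 hv1) (Finset.mem_coe.1 hw1) hab

theorem moser_le {n k : ℕ} (hub : UB n k) : moser n ≤ k := by
  obtain ⟨V, E, F, hS, hc, hk⟩ := hub
  obtain ⟨P, hP, hPc, hPl⟩ := exists_polyhedron hS
  refine csSup_le' ?_
  intro j hj
  obtain ⟨l, hl, rfl⟩ := hj P hP (by rw [hPc, hc])
  obtain ⟨l', hl', hlen⟩ := hPl l hl
  rw [← hlen]
  exact hk l' hl'

end Pool.Agent.Lib.H28R
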