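import Pool.Agent.Lib.H28R.R04
import Pool.Agent.Lib.H42M.E03

/-!
# R05: upper bounds for the function of Moser
-/

set_option autoImplicit false

open Filter Topology

namespace Pool.Agent.Lib.H28R

open Pool.Agent.Lib.H28P Pool.Agent.Lib.H42M

theorem moser_add_one_le (n l : ℕ) (hn : 4 ≤ n) (h : n ≤ nn l + 2) : moser n + 1 ≤ l := by
  have h1 := moser_le (ub_of_le hn h)
  have h2 : 1 ≤ l := by
    by_contra hl
    have h2 : nn l = l - 3 := nn_small (by omega)
    omega
  omega

theorem moser_le_fStacked (n : ℕ) (hn : 4 ≤ n) : moser n ≤ fStacked n := by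
  have := moser_add_one_le n (fStacked n + 1) hn ((fStacked_iff n hn _).1 le_rfl)
  omega

theorem moser_ratio_le (n : ℕ) (hn : 4 ≤ n) :
    (moser n : ℝ) / (n : ℝ) ^ alpha ≤ (fStacked n : ℝ) / (n : ℝ) ^ alpha := by
  have h : (moser n : ℝ) ≤ fStacked n := by exact_mod_cast moser_le_fStacked n hn
  gcongr

theorem moser_eventually : ∀ᶠ n : ℕ in atTop, (moser n : ℝ) / (n : ℝ) ^ alpha ≤ Lam := by
  filter_upwards [eventually_ge_atTop 8] with n hn
  exact (moser_ratio_le n (by omega)).trans (a05_upper fStacked_iff n hn)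

theorem moser_limsup : limsup (fun n : ℕ => (moser n : ℝ) / (n : ℝ) ^ alpha) atTop ≤ Lam := by
  have hco : IsCoboundedUnder (· ≤ ·) atTop (fun n : ℕ => (moser n : ℝ) / (n : ℝ) ^ alpha) :=
    IsCoboundedUnder.of_frequently_ge (a := 0)
      (Eventually.of_forall fun n => by positivity).frequently
  exact limsup_le_of_le hco moser_eventually

theorem moser_liminf :
    liminf (fun n : ℕ => (moser n : ℝ) / (n : ℝ) ^ alpha) atTop ≤ 8 / 5 ^ alpha := by
  have hbd : IsBoundedUnder (· ≥ ·) atTop (fun n : ℕ => (moser n : ℝ) / (n : ℝ) ^ alpha) := ⟨0, by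
    simp only [eventually_map]
    exact Eventually.of_forall fun n => by positivity⟩
  refine liminf_le_of_frequently_le ?_ hbd
  refine ((a06_frequently_le fStacked_iff).and_eventually (eventually_ge_atTop 4)).mono ?_
  rintro n ⟨h1, h2⟩
  exact (moser_ratio_le n h2).trans h1

theorem moser_le_const (n : ℕ) (hn : 8 ≤ n) : (moser n : ℝ) ≤ 3.077 * (n : ℝ) ^ alpha := by
  have h1 := (moser_ratio_le n (by omega)).trans ((a05_upper fStacked_iff n hn).trans Lam_lt)
  have h2 : (0 : ℝ) < n := by
    have : 0 < n := by omega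
    exact_mod_cast this
  rwa [div_le_iff₀ (by positivity)] at h1

end Pool.Agent.Lib.H28R
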