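import Mathlib

/-!
# MP_33da41_co: convex polyhedra and the function of Moser
-/

set_option autoImplicit false

namespace Pool.Agent.Lib.H28R

/-- Euclidean space of dimension three. -/
abbrev R3 := EuclideanSpace ℝ (Fin 3)

/-- A convex polyhedron: the convex hull of finitely many points, with nonempty interior. -/
def IsPolyhedron (P : Set R3) : Prop :=
  (∃ S : Finset R3, P = convexHull ℝ (S : Set R3)) ∧ (interior P).Nonempty

/-- The vertices of `P`: the extreme points. -/
def verts (P : Set R3) : Set R3 := P.extremePoints ℝ

/-- `a` and `b` are joined by an edge of `P`: they are different vertices, and the segment between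
them is a face, that is the set of all points of `P` where some linear functional is maximal. -/
def IsEdge (P : Set R3) (a b : R3) : Prop :=
  a ∈ verts P ∧ b ∈ verts P ∧ a ≠ b ∧
    ∃ φ : R3 →L[ℝ] ℝ, segment ℝ a b = {x | x ∈ P ∧ ∀ y ∈ P, φ y ≤ φ x}

/-- A simple edge path: a list of different vertices, consecutive ones joined by edges. -/
def IsPath (P : Set R3) (l : List R3) : Prop :=
  l.Nodup ∧ (∀ v ∈ l, v ∈ verts P) ∧ l.IsChain (IsEdge P)

/-- The function of Moser: the largest `k` such that every convex polyhedron with exactly `n`
vertices has a simple edge path passing through `k` vertices. -/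
noncomputable def moser (n : ℕ) : ℕ :=
  sSup {k | ∀ P : Set R3, IsPolyhedron P → (verts P).ncard = n → ∃ l, IsPath P l ∧ l.length = k}

end Pool.Agent.Lib.H28R
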